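import Pool.Agent.Lib.EPB.Neg
import Pool.Agent.Lib.EPT.SReg
import Pool.Agent.Lib.FCC.Perm
import Pool.Agent.Lib.EpZ.Gram

/-!
# Body centred orthorhombic forms with three different parameters are not local minima
-/

open Matrix
open scoped Matrix.Norms.Elementwise

namespace Pool.Agent.Lib.EPB

open Pool.Agent.Lib.EPT Pool.Agent.Lib.EpZ Pool.Agent.Lib.EPS Pool.Agent.Lib.EPL
  Pool.Agent.Lib.FCC

open NegAux in
theorem notMin {A B C : ℝ} (hA : 3 / 4 ≤ A) (hAB : A < B) (hBC : B < C) (hC : C ≤ 2)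
    (hs : A + B + C = 4) (hd : C - A ≤ 11 / 10) {s : ℝ} (h : 3 / 2 < s) :
    ¬ LocMin s (qdir A B C).mat := by
  have hA0 : 0 < A := by linarith
  have hB0 : 0 < B := by linarith
  have hC0 : 0 < C := by linarith
  have hR := reg hA hAB.le hBC.le hC hs hd
  have hpd := hR.pd_mat
  have hu : IsUnit (qdir A B C).mat.det := hpd.det_pos.ne'.isUnit
  have hcj := conj hA0.ne' hB0.ne' hC0.ne'
  have i1 : (qdir A B C).mat⁻¹ * (hdir A B C).mat = (kdir A B C).dmat * (qdir A B C).mat := by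
    rw [← hcj, Matrix.mul_assoc (qdir A B C).mat, ← Matrix.mul_assoc, Matrix.nonsing_inv_mul _ hu,
      Matrix.one_mul]
  have htr : ((qdir A B C).mat⁻¹ * (hdir A B C).mat).trace = 0 := by
    rw [i1]
    unfold kdir
    rw [trace_poly]
    field_simp
    ring
  refine notMin_of_pos hpd (H := -(hdir A B C).mat) (mat_symm (hdir A B C)).neg ?_ (fun t ht => ?_) h
  · rw [Matrix.mul_neg, trace_neg, htr, neg_zero]
  · rw [Th_neg, Th_h0]
    have := S_neg hA hAB hBC hC hs hd ht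
    linarith

namespace BcoAux

open PermAux

lemma sp0 (l : Fin 6 → ℝ) : SP l 0 = l 0 + l 1 := rfl
lemma sp1 (l : Fin 6 → ℝ) : SP l 1 = l 2 + l 3 := rfl
lemma sp2 (l : Fin 6 → ℝ) : SP l 2 = l 4 + l 5 := rfl

/-- the scaled form -/
lemma mat_q0 {l : Fin 6 → ℝ} (he : 0 < Se l) (h1 : l 0 = l 1) (h2 : l 2 = l 3) (h3 : l 4 = l 5) :
    (qdir (2 * (Se l - SP l 0) / Se l) (2 * (Se l - SP l 1) / Se l)
      (2 * (Se l - SP l 2) / Se l)).mat = (2 / Se l) • formOf l := by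
  have he' : l 1 + l 1 + l 3 + l 3 + l 5 + l 5 ≠ 0 := by
    unfold Se at he; rw [h1, h2, h3] at he; exact he.ne'
  ext i j
  fin_cases i <;> fin_cases j <;>
    simp [Par.mat, qdir, formOf, Se, sp0, sp1, sp2, h1, h2, h3] <;> field_simp <;> ring

lemma core {l : Fin 6 → ℝ} (he : 0 < Se l) (hr : SReg l) (h0 : ∀ i, 0 ≤ l i)
    (e1 : l 0 = l 1) (e2 : l 2 = l 3) (e3 : l 4 = l 5)
    (h1 : SP l 1 < SP l 0) (h2 : SP l 2 < SP l 1) {s : ℝ}
    (hs : 3 / 2 < s) : ¬ LocMin s (formOf l) := by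
  intro hm
  have hsum : SP l 0 + SP l 1 + SP l 2 = Se l := by
    rw [sp0, sp1, sp2]; unfold Se; ring
  have hd1 := hr.d1 0
  have hd2 := hr.d2 0 2
  set A := 2 * (Se l - SP l 0) / Se l with hA
  set B := 2 * (Se l - SP l 1) / Se l with hB
  set C := 2 * (Se l - SP l 2) / Se l with hC
  have kA : 3 / 4 ≤ A := by
    rw [hA, le_div_iff₀ he]
    linarith
  have kAB : A < B := div_lt_div_of_pos_right (by linarith) he
  have kBC : B < C := div_lt_div_of_pos_right (by linarith) he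
  have kC : C ≤ 2 := by
    rw [hC, div_le_iff₀ he, sp2]
    linarith [h0 4, h0 5]
  have ks : A + B + C = 4 := by
    rw [hA, hB, hC, ← add_div, ← add_div, div_eq_iff he.ne']
    linarith
  have kd : C - A ≤ 11 / 10 := by
    rw [hC, hA, ← sub_div, div_le_iff₀ he]
    linarith
  refine notMin kA kAB kBC kC ks kd hs ?_
  have hpd : PD (formOf l) := by
    have h3 := (NegAux.reg kA kAB.le kBC.le kC ks kd).pd_mat.smul (c := Se l / 2) (by positivity)
    rw [mat_q0 he e1 e2 e3, smul_smul] at h3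
    have h4 : Se l / 2 * (2 / Se l) = 1 := by field_simp
    rwa [h4, one_smul] at h3
  rw [mat_q0 he e1 e2 e3]
  exact hm.smul (by norm_num) hpd (by positivity)

/-- the statement for one set of parameters -/
def P (s : ℝ) (l : Fin 6 → ℝ) : Prop :=
  (∀ i, 0 ≤ l i) → 0 < Se l → SReg l → l 0 = l 1 → l 2 = l 3 → l 4 = l 5 →
    SP l 0 ≠ SP l 1 → SP l 1 ≠ SP l 2 → SP l 0 ≠ SP l 2 → ¬ LocMin s (formOf l)

lemma se23 (l : Fin 6 → ℝ) : Se (s23 l) = Se l := by simp [Se, s23]; ring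
lemma se24 (l : Fin 6 → ℝ) : Se (s24 l) = Se l := by simp [Se, s24]; ring
lemma se34 (l : Fin 6 → ℝ) : Se (s34 l) = Se l := by simp [Se, s34]; ring

lemma sreg23 {l : Fin 6 → ℝ} (h : SReg l) : SReg (s23 l) := by
  refine ⟨fun k => ?_, fun j k => ?_, ?_⟩
  · rw [se23]
    fin_cases k
    exacts [h.d1 1, h.d1 0, h.d1 2]
  · rw [se23]
    fin_cases j <;> fin_cases k
    exacts [h.d2 1 1, h.d2 1 0, h.d2 1 2, h.d2 0 1, h.d2 0 0, h.d2 0 2, h.d2 2 1, h.d2 2 0,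
      h.d2 2 2]
  · rw [se23]
    show 200 * ((l 2 - l 3) ^ 2 * (Se l - SP l 1) + (l 0 - l 1) ^ 2 * (Se l - SP l 0)
      + (l 4 - l 5) ^ 2 * (Se l - SP l 2)) ≤ (Se l - SP l 1) * (Se l - SP l 0) * (Se l - SP l 2)
    have := h.off
    linarith

lemma sreg24 {l : Fin 6 → ℝ} (h : SReg l) : SReg (s24 l) := by
  refine ⟨fun k => ?_, fun j k => ?_, ?_⟩
  · rw [se24]
    fin_cases k
    exacts [h.d1 2, h.d1 1, h.d1 0]
  · rw [se24]
    fin_cases j <;> fin_cases k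
    exacts [h.d2 2 2, h.d2 2 1, h.d2 2 0, h.d2 1 2, h.d2 1 1, h.d2 1 0, h.d2 0 2, h.d2 0 1,
      h.d2 0 0]
  · rw [se24]
    show 200 * ((l 4 - l 5) ^ 2 * (Se l - SP l 2) + (l 2 - l 3) ^ 2 * (Se l - SP l 1)
      + (l 0 - l 1) ^ 2 * (Se l - SP l 0)) ≤ (Se l - SP l 2) * (Se l - SP l 1) * (Se l - SP l 0)
    have := h.off
    linarith

lemma sreg34 {l : Fin 6 → ℝ} (h : SReg l) : SReg (s34 l) := by
  refine ⟨fun k => ?_, fun j k => ?_, ?_⟩
  · rw [se34]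
    fin_cases k
    exacts [h.d1 0, h.d1 2, h.d1 1]
  · rw [se34]
    fin_cases j <;> fin_cases k
    exacts [h.d2 0 0, h.d2 0 2, h.d2 0 1, h.d2 2 0, h.d2 2 2, h.d2 2 1, h.d2 1 0, h.d2 1 2,
      h.d2 1 1]
  · rw [se34]
    show 200 * ((l 0 - l 1) ^ 2 * (Se l - SP l 0) + (l 4 - l 5) ^ 2 * (Se l - SP l 2)
      + (l 2 - l 3) ^ 2 * (Se l - SP l 1)) ≤ (Se l - SP l 0) * (Se l - SP l 2) * (Se l - SP l 1)
    have := h.off
    linarith

lemma P23 {s : ℝ} {l : Fin 6 → ℝ} (h : P s (s23 l)) : P s l := by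
  intro h0 he hr e1 e2 e3 n1 n2 n3 hm
  exact h ((rel23 l).2.2 h0) (by rw [se23]; exact he) (sreg23 hr) e2 e1 e3 (Ne.symm n1) n3 n2
    ((rel23 l).1.locMin hm)

lemma P24 {s : ℝ} {l : Fin 6 → ℝ} (h : P s (s24 l)) : P s l := by
  intro h0 he hr e1 e2 e3 n1 n2 n3 hm
  exact h ((rel24 l).2.2 h0) (by rw [se24]; exact he) (sreg24 hr) e3 e2 e1 (Ne.symm n2)
    (Ne.symm n1) (Ne.symm n3) ((rel24 l).1.locMin hm)

lemma P34 {s : ℝ} {l : Fin 6 → ℝ} (h : P s (s34 l)) : P s l := by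
  intro h0 he hr e1 e2 e3 n1 n2 n3 hm
  exact h ((rel34 l).2.2 h0) (by rw [se34]; exact he) (sreg34 hr) e1 e3 e2 n3 (Ne.symm n2) n1
    ((rel34 l).1.locMin hm)

lemma P0 {s : ℝ} (hs : 3 / 2 < s) {l : Fin 6 → ℝ} (h1 : SP l 1 ≤ SP l 0)
    (h2 : SP l 2 ≤ SP l 1) : P s l :=
  fun h0 he hr e1 e2 e3 n1 n2 _ => core he hr h0 e1 e2 e3 (lt_of_le_of_ne h1 (Ne.symm n1))
    (lt_of_le_of_ne h2 (Ne.symm n2)) hs

theorem all {s : ℝ} (hs : 3 / 2 < s) (l : Fin 6 → ℝ) : P s l := by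
  rcases le_total (SP l 1) (SP l 0) with h10 | h10 <;>
    rcases le_total (SP l 2) (SP l 1) with h21 | h21 <;>
    rcases le_total (SP l 2) (SP l 0) with h20 | h20
  · exact P0 hs h10 h21
  · exact P0 hs h10 h21
  · exact P34 (P0 hs (l := s34 l) h20 h21)
  · exact P24 (P34 (P0 hs (l := s34 (s24 l)) h20 h10))
  · exact P23 (P0 hs (l := s23 l) h10 h20)
  · exact P23 (P34 (P0 hs (l := s34 (s23 l)) h21 h20))
  · exact P24 (P0 hs (l := s24 l) h21 h10)
  · exact P24 (P0 hs (l := s24 l) h21 h10)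

end BcoAux

/-- the field `bco` of `EPL.Blocks` for `SR = EPT.SReg` -/
theorem bco_field (a b c : ℝ) (ha : 0 ≤ a) (hb : 0 ≤ b) (hc : 0 ≤ c)
    (hd : 0 < dt ![a, a, b, b, c, c]) (hr : SReg ![a, a, b, b, c, c]) (s : ℝ) (hs : 3 / 2 < s)
    (hm : LocMin s (formOf ![a, a, b, b, c, c])) : a = b ∨ b = c ∨ a = c := by
  by_contra hcon
  push Not at hcon
  obtain ⟨n1, n2, n3⟩ := hcon
  have h0 : ∀ i, 0 ≤ (![a, a, b, b, c, c] : Fin 6 → ℝ) i := by
    intro i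
    fin_cases i
    exacts [ha, ha, hb, hb, hc, hc]
  have he : 0 < Se ![a, a, b, b, c, c] := by
    show 0 < a + a + b + b + c + c
    by_contra hle
    push Not at hle
    have e1 : a = 0 := by linarith
    have e2 : b = 0 := by linarith
    exact n1 (by rw [e1, e2])
  refine BcoAux.all hs ![a, a, b, b, c, c] h0 he hr rfl rfl rfl ?_ ?_ ?_ hm
  · show a + a ≠ b + b
    intro h
    exact n1 (by linarith)
  · show b + b ≠ c + c
    intro h
    exact n2 (by linarith)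
  · show a + a ≠ c + c
    intro h
    exact n3 (by linarith)

end Pool.Agent.Lib.EPB
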