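import Pool.Agent.Lib.EPB.Defs

/-!
# Convexity tools
-/

open Set Filter Topology

namespace Pool.Agent.Lib.EPB

theorem J_nonneg {L a b c : ℝ} (ha : L ≤ a) (hab : a < b) (hbc : b < c) {f : ℝ → ℝ}
    (hf : ConvexOn ℝ (Ici L) f) : 0 ≤ J a b c f := by
  have hca : 0 < c - a := by linarith
  have h1 : 0 ≤ (c - b) / (c - a) := div_nonneg (by linarith) hca.le
  have h2 : 0 ≤ (b - a) / (c - a) := div_nonneg (by linarith) hca.le
  have h3 : (c - b) / (c - a) + (b - a) / (c - a) = 1 := by
    rw [← add_div, div_eq_one_iff_eq hca.ne']; ring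
  have h := hf.2 (show a ∈ Ici L from ha) (show c ∈ Ici L by show L ≤ c; linarith) h1 h2 h3
  simp only [smul_eq_mul] at h
  have e : (c - b) / (c - a) * a + (b - a) / (c - a) * c = b := by
    rw [div_mul_eq_mul_div, div_mul_eq_mul_div, ← add_div, div_eq_iff hca.ne']
    ring
  rw [e, div_mul_eq_mul_div, div_mul_eq_mul_div, ← add_div, le_div_iff₀ hca] at h
  unfold J
  linarith

theorem J_sq (a b c : ℝ) : J a b c (fun x => x ^ 2) = (b - a) * (c - b) * (c - a) := by
  unfold J; ring

theorem J_sub (a b c : ℝ) (f g : ℝ → ℝ) :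
    J a b c (fun x => f x - g x) = J a b c f - J a b c g := by
  unfold J; ring

theorem J_mul (a b c r : ℝ) (f : ℝ → ℝ) : J a b c (fun x => r * f x) = r * J a b c f := by
  unfold J; ring

theorem convexOn_tsum {ι : Type*} {s : Set ℝ} (hs : Convex ℝ s) {f : ι → ℝ → ℝ}
    (hc : ∀ i, ConvexOn ℝ s (f i)) (hsum : ∀ x ∈ s, Summable fun i => f i x) :
    ConvexOn ℝ s (fun x => ∑' i, f i x) := by
  refine ⟨hs, fun x hx y hy p q hp hq hpq => ?_⟩
  have hz := hs hx hy hp hq hpq
  simp only [smul_eq_mul]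
  rw [← tsum_mul_left, ← tsum_mul_left, ← ((hsum x hx).mul_left p).tsum_add
    ((hsum y hy).mul_left q)]
  exact (hsum _ hz).tsum_le_tsum (fun i => by simpa using (hc i).2 hx hy hp hq hpq)
    (((hsum x hx).mul_left p).add ((hsum y hy).mul_left q))

/-- a convex function on a half line which tends to `0` is decreasing and nonnegative -/
theorem Dn_of_tendsto {L : ℝ} {f : ℝ → ℝ} (hc : ConvexOn ℝ (Ici L) f)
    (ht : Tendsto f atTop (𝓝 0)) : Dn L f := by
  have anti : AntitoneOn f (Ici L) := by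
    intro x hx y hy hxy
    by_contra hcon
    push Not at hcon
    have hlt : x < y := lt_of_le_of_ne hxy (fun h => by rw [h] at hcon; exact lt_irrefl _ hcon)
    -- slope bound
    have key : ∀ z, y < z → (z - y) * (f y - f x) ≤ (y - x) * (f z - f y) := by
      intro z hz
      have h := hc.slope_mono_adjacent hx (show z ∈ Ici L by
        show L ≤ z
        have : L ≤ y := hy
        linarith) hlt hz
      rw [div_le_div_iff₀ (by linarith) (by linarith)] at h
      linarith
    have h1 : ∀ᶠ z in atTop, f z < 1 := ht.eventually (gt_mem_nhds one_pos)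
    have h2 : ∀ᶠ z : ℝ in atTop, y + (y - x) * (|1 - f y| + 1) / (f y - f x) < z :=
      eventually_gt_atTop _
    obtain ⟨z, hz1, hz2⟩ := (h1.and h2).exists
    have hd : 0 < f y - f x := by linarith
    have hyx : 0 < y - x := by linarith
    have hz3 : y < z := by
      have : 0 ≤ (y - x) * (|1 - f y| + 1) / (f y - f x) := by positivity
      linarith
    have h3 := key z hz3
    have h4 : (y - x) * (|1 - f y| + 1) < (z - y) * (f y - f x) := by
      have : (y - x) * (|1 - f y| + 1) / (f y - f x) < z - y := by linarith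
      rwa [div_lt_iff₀ hd] at this
    have h5 : (y - x) * (|1 - f y| + 1) < (y - x) * (f z - f y) := lt_of_lt_of_le h4 h3
    have h6 := lt_of_mul_lt_mul_left h5 hyx.le
    have h7 := le_abs_self (1 - f y)
    linarith
  refine ⟨hc, anti, fun x hx => ?_⟩
  have h1 : Tendsto (fun z : ℝ => f x - f z) atTop (𝓝 (f x - 0)) := tendsto_const_nhds.sub ht
  rw [sub_zero] at h1
  refine ge_of_tendsto h1 ?_
  filter_upwards [eventually_ge_atTop x] with z hz
  have := anti (show x ∈ Ici L from hx) (show z ∈ Ici L by show L ≤ z; linarith) hz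
  linarith

namespace Dn

variable {L : ℝ} {f g : ℝ → ℝ}

theorem add (hf : Dn L f) (hg : Dn L g) : Dn L (fun x => f x + g x) :=
  ⟨hf.cvx.add hg.cvx, fun x hx y hy h => add_le_add (hf.anti hx hy h) (hg.anti hx hy h),
    fun x hx => add_nonneg (hf.nn x hx) (hg.nn x hx)⟩

theorem mul (hf : Dn L f) (hg : Dn L g) : Dn L (fun x => f x * g x) := by
  refine ⟨?_, ?_, fun x hx => mul_nonneg (hf.nn x hx) (hg.nn x hx)⟩
  · exact ConvexOn.mul hf.cvx hg.cvx (fun x hx => hf.nn x hx) (fun x hx => hg.nn x hx)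
      (hf.anti.monovaryOn hg.anti)
  · intro x hx y hy h
    exact mul_le_mul (hf.anti hx hy h) (hg.anti hx hy h) (hg.nn y hy) (hf.nn x hx)

theorem const {r : ℝ} (hr : 0 ≤ r) : Dn L (fun _ => r) :=
  ⟨convexOn_const _ (convex_Ici L), fun _ _ _ _ _ => le_rfl, fun _ _ => hr⟩

theorem smul {r : ℝ} (hr : 0 ≤ r) (hf : Dn L f) : Dn L (fun x => r * f x) :=
  (Dn.const hr).mul hf

theorem tsum {ι : Type*} {F : ι → ℝ → ℝ} (hF : ∀ i, Dn L (F i))
    (hs : ∀ x, L ≤ x → Summable fun i => F i x) : Dn L (fun x => ∑' i, F i x) := by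
  refine ⟨convexOn_tsum (convex_Ici L) (fun i => (hF i).cvx) (fun x hx => hs x hx), ?_,
    fun x hx => tsum_nonneg fun i => (hF i).nn x hx⟩
  intro x hx y hy h
  exact (hs y hy).tsum_le_tsum (fun i => (hF i).anti hx hy h) (hs x hx)

theorem congr (hf : Dn L f) (h : ∀ x, L ≤ x → g x = f x) : Dn L g := by
  refine ⟨?_, ?_, fun x hx => by rw [h x hx]; exact hf.nn x hx⟩
  · refine ⟨convex_Ici L, fun x hx y hy p q hp hq hpq => ?_⟩
    have hz := convex_Ici L hx hy hp hq hpq
    rw [h _ hz, h x hx, h y hy]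
    exact hf.cvx.2 hx hy hp hq hpq
  · intro x hx y hy hxy
    rw [h x hx, h y hy]
    exact hf.anti hx hy hxy

theorem J_nonneg (hf : Dn L f) {a b c : ℝ} (ha : L ≤ a) (hab : a < b) (hbc : b < c) :
    0 ≤ J a b c f := EPB.J_nonneg ha hab hbc hf.cvx

end Dn

/-- a quadratic polynomial times an exponential -/
noncomputable def pe (α β γ k x : ℝ) : ℝ := (α * x ^ 2 + β * x + γ) * Real.exp (-(k * x))

theorem pe_deriv (α β γ k x : ℝ) :
    HasDerivAt (pe α β γ k) (pe (-k * α) (2 * α - k * β) (β - k * γ) k x) x := by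
  unfold pe
  have h1 : HasDerivAt (fun x : ℝ => α * x ^ 2 + β * x + γ) (2 * α * x + β) x := by
    have := ((((hasDerivAt_id x).pow 2).const_mul α).add ((hasDerivAt_id x).const_mul β)).add_const γ
    convert! this using 1
    simp; ring
  have h2 : HasDerivAt (fun x : ℝ => Real.exp (-(k * x))) (-k * Real.exp (-(k * x))) x := by
    have := (((hasDerivAt_id x).const_mul k).neg).exp
    convert! this using 1
    simp; ring
  have h3 := h1.mul h2
  convert! h3 using 1
  ring

/-- the second derivative -/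
noncomputable def pe2 (α β γ k x : ℝ) : ℝ :=
  (k ^ 2 * (α * x ^ 2 + β * x + γ) - 2 * k * (2 * α * x + β) + 2 * α) * Real.exp (-(k * x))

theorem pe2_eq (α β γ k x : ℝ) : pe (-k * (-k * α)) (2 * (-k * α) - k * (2 * α - k * β))
    ((2 * α - k * β) - k * (β - k * γ)) k x = pe2 α β γ k x := by
  unfold pe pe2; ring

theorem pe_tendsto {k : ℝ} (hk : 0 < k) (α β γ : ℝ) : Tendsto (pe α β γ k) atTop (𝓝 0) := by
  have h2 := (Real.tendsto_pow_mul_exp_neg_atTop_nhds_zero 2).comp
    (tendsto_id.const_mul_atTop hk)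
  have h1 := (Real.tendsto_pow_mul_exp_neg_atTop_nhds_zero 1).comp
    (tendsto_id.const_mul_atTop hk)
  have h0 := (Real.tendsto_pow_mul_exp_neg_atTop_nhds_zero 0).comp
    (tendsto_id.const_mul_atTop hk)
  have h := ((h2.const_mul (α / k ^ 2)).add (h1.const_mul (β / k))).add (h0.const_mul γ)
  simp only [mul_zero, add_zero] at h
  refine h.congr fun x => ?_
  simp only [Function.comp, id, pe, pow_one, pow_zero, one_mul]
  field_simp

/-- sums of two such functions with nonnegative second derivative -/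
theorem Dn_pe {L α β γ k α' β' γ' k' : ℝ} (hk : 0 < k) (hk' : 0 < k')
    (h : ∀ x, L ≤ x → 0 ≤ pe2 α β γ k x + pe2 α' β' γ' k' x) :
    Dn L (fun x => pe α β γ k x + pe α' β' γ' k' x) := by
  refine Dn_of_tendsto ?_ ?_
  · refine convexOn_of_hasDerivWithinAt2_nonneg (convex_Ici L)
      (f' := fun x => pe (-k * α) (2 * α - k * β) (β - k * γ) k x +
        pe (-k' * α') (2 * α' - k' * β') (β' - k' * γ') k' x)
      (f'' := fun x => pe2 α β γ k x + pe2 α' β' γ' k' x) ?_ ?_ ?_ ?_
    · exact fun x _ => ((pe_deriv α β γ k x).add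
        (pe_deriv α' β' γ' k' x)).continuousAt.continuousWithinAt
    · exact fun x _ => ((pe_deriv α β γ k x).add (pe_deriv α' β' γ' k' x)).hasDerivWithinAt
    · intro x _
      have h1 := (pe_deriv (-k * α) (2 * α - k * β) (β - k * γ) k x).add
        (pe_deriv (-k' * α') (2 * α' - k' * β') (β' - k' * γ') k' x)
      rw [pe2_eq, pe2_eq] at h1
      exact h1.hasDerivWithinAt
    · intro x hx
      rw [interior_Ici] at hx
      exact h x (le_of_lt hx)
  · simpa using (pe_tendsto hk α β γ).add (pe_tendsto hk' α' β' γ')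

theorem Dn_pe1 {L α β γ k : ℝ} (hk : 0 < k)
    (h : ∀ x, L ≤ x → 0 ≤ k ^ 2 * (α * x ^ 2 + β * x + γ) - 2 * k * (2 * α * x + β) + 2 * α) :
    Dn L (pe α β γ k) := by
  have := Dn_pe (L := L) (α := α) (β := β) (γ := γ) (k := k) (α' := 0) (β' := 0) (γ' := 0)
    (k' := 1) hk one_pos (fun x hx => by
      have e : pe2 0 0 0 1 x = 0 := by simp [pe2]
      rw [e, add_zero]
      exact mul_nonneg (h x hx) (Real.exp_pos _).le)
  refine this.congr fun x _ => ?_
  simp [pe]

theorem Dn_exp {L k : ℝ} (hk : 0 < k) : Dn L (fun x => Real.exp (-(k * x))) := by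
  have := Dn_pe1 (L := L) (α := 0) (β := 0) (γ := 1) (k := k) hk (fun x _ => by
    have : 0 ≤ k ^ 2 := sq_nonneg k
    nlinarith)
  exact this.congr fun x _ => by simp [pe]

/-- comparison of two exponentials -/
theorem Dn_exp_sub {L l j r : ℝ} (hl : 0 < l) (hj : 0 ≤ j) 
    (hr : (l + j) ^ 2 * Real.exp (-(j * L)) ≤ r * l ^ 2) :
    Dn L (fun x => r * Real.exp (-(l * x)) - Real.exp (-((l + j) * x))) := by
  have := Dn_pe (L := L) (α := 0) (β := 0) (γ := r) (k := l) (α' := 0) (β' := 0) (γ' := -1)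
    (k' := l + j) hl (by linarith) (fun x hx => by
      have e : Real.exp (-((l + j) * x)) = Real.exp (-(l * x)) * Real.exp (-(j * x)) := by
        rw [← Real.exp_add]; ring_nf
      have h1 : Real.exp (-(j * x)) ≤ Real.exp (-(j * L)) := by
        apply Real.exp_le_exp.mpr
        have := mul_le_mul_of_nonneg_left hx hj
        linarith
      have h2 : (l + j) ^ 2 * Real.exp (-(j * x)) ≤ r * l ^ 2 :=
        le_trans (mul_le_mul_of_nonneg_left h1 (sq_nonneg _)) hr
      unfold pe2
      rw [e]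
      have h3 := Real.exp_pos (-(l * x))
      nlinarith [mul_le_mul_of_nonneg_left h2 h3.le])
  exact this.congr fun x _ => by simp only [pe]; ring

end Pool.Agent.Lib.EPB
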