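import Mathlib

/-!
# Body centred orthorhombic forms: the one-dimensional functions

`E0, E1, O0, O1` are the even and odd parts of the one-dimensional theta function and of its
moment; `Tk k c`, `Tk1 k c` are the series in which they are expanded.  `J` is the (unnormalised)
second divided difference at three points, `Dn L` the class of nonnegative decreasing convex functions
on `[L, ∞)`.
-/

namespace Pool.Agent.Lib.EPB

/-- the even part of the theta function -/
noncomputable def E0 (x : ℝ) : ℝ := ∑' m : ℤ, Real.exp (-(x * (2 * (m : ℝ)) ^ 2))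
/-- the even part of the second moment -/
noncomputable def E1 (x : ℝ) : ℝ := ∑' m : ℤ, (2 * (m : ℝ)) ^ 2 * Real.exp (-(x * (2 * (m : ℝ)) ^ 2))
/-- the odd part of the theta function -/
noncomputable def O0 (x : ℝ) : ℝ := ∑' m : ℤ, Real.exp (-(x * (2 * (m : ℝ) + 1) ^ 2))
/-- the odd part of the second moment -/
noncomputable def O1 (x : ℝ) : ℝ :=
  ∑' m : ℤ, (2 * (m : ℝ) + 1) ^ 2 * Real.exp (-(x * (2 * (m : ℝ) + 1) ^ 2))

/-- the exponents of the integral part -/
def kI (n : ℕ) : ℝ := ((n : ℝ) + 1) ^ 2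
/-- the exponents of the half-integral part -/
def kH (n : ℕ) : ℝ := ((n : ℝ) + 1) * ((n : ℝ) + 2)

/-- the series with exponents `k` -/
noncomputable def Tk (k : ℕ → ℝ) (c x : ℝ) : ℝ := ∑' n : ℕ, c * Real.exp (-(k n * x))
/-- minus the derivative of the series -/
noncomputable def Tk1 (k : ℕ → ℝ) (c x : ℝ) : ℝ := ∑' n : ℕ, c * k n * Real.exp (-(k n * x))

/-- the second divided difference times `(b - a) (c - b) (c - a)` -/
def J (a b c : ℝ) (f : ℝ → ℝ) : ℝ := (c - b) * f a - (c - a) * f b + (b - a) * f c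

/-- nonnegative decreasing convex functions on `[L, ∞)` -/
structure Dn (L : ℝ) (f : ℝ → ℝ) : Prop where
  cvx : ConvexOn ℝ (Set.Ici L) f
  anti : AntitoneOn f (Set.Ici L)
  nn : ∀ x, L ≤ x → 0 ≤ f x

end Pool.Agent.Lib.EPB
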