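import Pool.Agent.Lib.EPB.Cvx

/-!
# The direct side: the three-point functional is positive
-/

open Set Filter Topology

namespace Pool.Agent.Lib.EPB

/-- the three-point functional with the factors `1 + τ` -/
def J3 (a b c : ℝ) (g τ : ℝ → ℝ) : ℝ :=
  (c - b) * g a * ((1 + τ b) * (1 + τ c)) - (c - a) * g b * ((1 + τ a) * (1 + τ c)) +
    (b - a) * g c * ((1 + τ a) * (1 + τ b))

theorem J3_eq (a b c : ℝ) (g τ : ℝ → ℝ) : J3 a b c g τ =
    (1 + (τ a + τ b + τ c) + (τ a * τ b + τ b * τ c + τ a * τ c)) * J a b c g -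
      (1 + (τ a + τ b + τ c)) * J a b c (fun x => g x * τ x) +
      J a b c (fun x => g x * τ x * τ x) := by
  unfold J3 J; ring

theorem J_exp_pos {k a b c : ℝ} (hk : 0 < k) (hab : a < b) (hbc : b < c) :
    0 < J a b c (fun x => Real.exp (-(k * x))) := by
  have h1 : 1 + k * (b - a) < Real.exp (k * (b - a)) := by
    have : k * (b - a) ≠ 0 := by
      have : 0 < k * (b - a) := mul_pos hk (by linarith)
      exact this.ne'
    linarith [Real.add_one_lt_exp this]
  have h2 : 1 - k * (c - b) < Real.exp (-(k * (c - b))) := by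
    have : -(k * (c - b)) ≠ 0 := by
      have : 0 < k * (c - b) := mul_pos hk (by linarith)
      linarith
    linarith [Real.add_one_lt_exp this]
  have e1 : Real.exp (-(k * a)) = Real.exp (-(k * b)) * Real.exp (k * (b - a)) := by
    rw [← Real.exp_add]; ring_nf
  have e2 : Real.exp (-(k * c)) = Real.exp (-(k * b)) * Real.exp (-(k * (c - b))) := by
    rw [← Real.exp_add]; ring_nf
  unfold J
  simp only
  rw [e1, e2]
  have h3 : (c - b) * (1 + k * (b - a)) + (b - a) * (1 - k * (c - b)) <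
      (c - b) * Real.exp (k * (b - a)) + (b - a) * Real.exp (-(k * (c - b))) :=
    add_lt_add (mul_lt_mul_of_pos_left h1 (by linarith)) (mul_lt_mul_of_pos_left h2 (by linarith))
  have h4 : (c - a) < (c - b) * Real.exp (k * (b - a)) +
      (b - a) * Real.exp (-(k * (c - b))) := by linarith
  have h5 := mul_lt_mul_of_pos_left h4 (Real.exp_pos (-(k * b)))
  linarith

theorem exp_lt1 {x : ℝ} (h : x < 0) : Real.exp x < 1 := by
  rw [← Real.exp_zero]
  exact Real.exp_lt_exp.mpr h

namespace DirAux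

/-- the left end of the region -/
noncomputable def L : ℝ := 29 / 10

theorem Dn_x {k : ℝ} (hk : 1 ≤ k) : Dn L (fun x => x * Real.exp (-(k * x))) := by
  have := Dn_pe1 (L := L) (α := 0) (β := 1) (γ := 0) (k := k) (by linarith) (fun x hx => by
    unfold L at hx
    have : 0 ≤ k * (k * x - 2) := mul_nonneg (by linarith) (by nlinarith)
    nlinarith)
  exact this.congr fun x _ => by simp [pe]

theorem Dn_x9 {k : ℝ} (hk : 1 ≤ k) :
    Dn L (fun x => x * Real.exp (-(k * x)) - 9 / 10 * Real.exp (-(k * x))) := by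
  have := Dn_pe1 (L := L) (α := 0) (β := 1) (γ := -(9 / 10)) (k := k) (by linarith)
    (fun x hx => by
      unfold L at hx
      have : 0 ≤ k * (k * (x - 9 / 10) - 2) := mul_nonneg (by linarith) (by nlinarith)
      nlinarith)
  exact this.congr fun x _ => by simp only [pe]; ring

/-- the constants of the comparison -/
noncomputable def r (n : ℕ) : ℝ := 76 / 9 * Real.exp (-(29 / 10)) * Real.exp (-(24 / 5)) ^ n

theorem r_pos (n : ℕ) : 0 < r n := by unfold r; positivity

theorem r_bound {j : ℝ} {n : ℕ} (hj : 1 + 3 * (n : ℝ) ≤ j) :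
    (1 + j) * (9 + 29 * j) / 9 * Real.exp (-(29 / 10 * j)) ≤ r n := by
  have hn : (0 : ℝ) ≤ n := Nat.cast_nonneg n
  have hj1 : 0 ≤ j - 1 := by linarith
  have h1 : 1 + (j - 1) / 2 ≤ Real.exp ((j - 1) / 2) := by linarith [Real.add_one_le_exp ((j - 1) / 2)]
  have h2 : 1 + 29 * (j - 1) / 38 ≤ Real.exp (29 * (j - 1) / 38) := by
    linarith [Real.add_one_le_exp (29 * (j - 1) / 38)]
  have h3 : (1 + j) * (9 + 29 * j) / 9 ≤
      76 / 9 * (Real.exp ((j - 1) / 2) * Real.exp (29 * (j - 1) / 38)) := by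
    have := mul_le_mul h1 h2 (by positivity) (Real.exp_pos _).le
    nlinarith
  have h4 := mul_le_mul_of_nonneg_right h3 (Real.exp_pos (-(29 / 10 * j))).le
  refine h4.trans ?_
  unfold r
  rw [← Real.exp_nat_mul]
  have e1 : 76 / 9 * (Real.exp ((j - 1) / 2) * Real.exp (29 * (j - 1) / 38)) *
      Real.exp (-(29 / 10 * j)) =
      76 / 9 * Real.exp ((j - 1) / 2 + 29 * (j - 1) / 38 + -(29 / 10 * j)) := by
    rw [Real.exp_add, Real.exp_add]; ring
  have e2 : 76 / 9 * Real.exp (-(29 / 10)) * Real.exp ((n : ℝ) * -(24 / 5)) =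
      76 / 9 * Real.exp (-(29 / 10) + (n : ℝ) * -(24 / 5)) := by
    rw [Real.exp_add]; ring
  rw [e1, e2]
  refine mul_le_mul_of_nonneg_left (Real.exp_le_exp.mpr ?_) (by norm_num)
  linarith

/-- the comparison of the functions `x exp (-k x)` -/
theorem cmp_x {k j : ℝ} {n : ℕ} (hk : 1 ≤ k) (hj : 1 + 3 * (n : ℝ) ≤ j) :
    Dn L (fun x => r n * (x * Real.exp (-(k * x))) - x * Real.exp (-((k + j) * x))) := by
  have hn : (0 : ℝ) ≤ n := Nat.cast_nonneg n
  have := Dn_pe (L := L) (α := 0) (β := r n) (γ := 0) (k := k) (α' := 0) (β' := -1) (γ' := 0)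
    (k' := k + j) (by linarith) (by linarith) (fun x hx => by
      unfold L at hx
      have e : Real.exp (-((k + j) * x)) = Real.exp (-(k * x)) * Real.exp (-(j * x)) := by
        rw [← Real.exp_add]; ring_nf
      have hj0 : 0 ≤ j := by linarith
      have h1 : Real.exp (-(j * x)) ≤ Real.exp (-(29 / 10 * j)) := by
        apply Real.exp_le_exp.mpr
        have := mul_le_mul_of_nonneg_left hx hj0
        linarith
      -- the polynomial inequality
      have hkx : 0 ≤ k * x - 29 / 10 := by nlinarith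
      have hA : 0 ≤ k * (k * x - 2) := mul_nonneg (by linarith) (by linarith)
      have h2 : (k + j) ^ 2 * x - 2 * (k + j) ≤ (1 + j) * (9 + 29 * j) / 9 * (k * (k * x - 2)) := by
        -- (k + j) ≤ k (1 + j) and ((k+j) x - 2) ≤ (9 + 29 j)/9 (k x - 2)
        have a1 : k + j ≤ k * (1 + j) := by nlinarith
        have a2 : (k + j) * x - 2 ≤ (9 + 29 * j) / 9 * (k * x - 2) := by
          -- j x ≤ 29 j / 9 (k x - 2) : 9 x ≤ 29 k x - 58
          have : 9 * x ≤ 29 * (k * x) - 58 := by nlinarith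
          nlinarith
        have a3 : 0 ≤ (k + j) * x - 2 := by nlinarith
        have a4 := mul_le_mul a1 a2 a3 (by positivity : (0 : ℝ) ≤ k * (1 + j))
        nlinarith
      have h3 : ((k + j) ^ 2 * x - 2 * (k + j)) * Real.exp (-(j * x)) ≤ r n * (k * (k * x - 2)) := by
        have b0 : 0 ≤ (k + j) ^ 2 * x - 2 * (k + j) := by
          have : 0 ≤ (k + j) * ((k + j) * x - 2) := mul_nonneg (by linarith) (by nlinarith)
          nlinarith
        calc ((k + j) ^ 2 * x - 2 * (k + j)) * Real.exp (-(j * x)) ≤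
              ((1 + j) * (9 + 29 * j) / 9 * (k * (k * x - 2))) * Real.exp (-(29 / 10 * j)) :=
              mul_le_mul h2 h1 (Real.exp_pos _).le (b0.trans h2)
          _ = ((1 + j) * (9 + 29 * j) / 9 * Real.exp (-(29 / 10 * j))) * (k * (k * x - 2)) := by ring
          _ ≤ _ := mul_le_mul_of_nonneg_right (r_bound hj) hA
      unfold pe2
      rw [e]
      have h4 := mul_le_mul_of_nonneg_left h3 (Real.exp_pos (-(k * x))).le
      nlinarith)
  exact this.congr fun x _ => by simp only [pe]; ring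

variable {k : ℕ → ℝ} {c : ℝ}

theorem k_one (hk : ∀ n : ℕ, 1 + 3 * (n : ℝ) ≤ k n) (n : ℕ) : 1 ≤ k n := by
  have hn : (0 : ℝ) ≤ n := Nat.cast_nonneg n
  linarith [hk n]

theorem sum_exp (hk : ∀ n : ℕ, 1 + 3 * (n : ℝ) ≤ k n) {x : ℝ} (hx : 0 < x) :
    Summable fun n : ℕ => Real.exp (-(k n * x)) := by
  refine Summable.of_nonneg_of_le (fun n => (Real.exp_pos _).le) (fun n => ?_)
    (summable_geometric_of_lt_one (Real.exp_pos (-(3 * x))).le
      (exp_lt1 (by linarith : -(3 * x) < 0)))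
  rw [← Real.exp_nat_mul]
  refine Real.exp_le_exp.mpr ?_
  have := mul_le_mul_of_nonneg_right (hk n) hx.le
  nlinarith

theorem sum_kexp (hk : ∀ n : ℕ, 1 + 3 * (n : ℝ) ≤ k n) {x : ℝ} (hx : 0 < x) :
    Summable fun n : ℕ => k n * Real.exp (-(k n * x)) := by
  refine Summable.of_nonneg_of_le (fun n => mul_nonneg (by linarith [k_one hk n])
    (Real.exp_pos _).le) (fun n => ?_) ((sum_exp hk (x := x / 2) (by positivity)).mul_left (2 / x))
  have h1 : k n * x / 2 ≤ Real.exp (k n * x / 2) := by linarith [Real.add_one_le_exp (k n * x / 2)]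
  have e : Real.exp (-(k n * (x / 2))) = Real.exp (-(k n * x)) * Real.exp (k n * x / 2) := by
    rw [← Real.exp_add]; ring_nf
  rw [e]
  have h2 := mul_le_mul_of_nonneg_left h1 (Real.exp_pos (-(k n * x))).le
  have h3 : 2 / x * (Real.exp (-(k n * x)) * (k n * x / 2)) = k n * Real.exp (-(k n * x)) := by
    field_simp
  rw [← h3]
  exact mul_le_mul_of_nonneg_left h2 (by positivity)

theorem Dn_Tk (hk : ∀ n : ℕ, 1 + 3 * (n : ℝ) ≤ k n) (hc : 0 ≤ c) : Dn L (Tk k c) := by
  refine Dn.tsum (F := fun n x => c * Real.exp (-(k n * x))) (fun n => ?_) (fun x hx => ?_)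
  · exact (Dn_exp (by linarith [k_one hk n])).smul hc
  · exact (sum_exp hk (by unfold L at hx; linarith)).mul_left c

theorem xTk1 (x : ℝ) : x * Tk1 k c x = ∑' n : ℕ, c * k n * (x * Real.exp (-(k n * x))) := by
  unfold Tk1
  rw [← tsum_mul_left]
  exact tsum_congr fun n => by ring

theorem sum_x (hk : ∀ n : ℕ, 1 + 3 * (n : ℝ) ≤ k n) {x : ℝ} (hx : 0 < x) :
    Summable fun n : ℕ => c * k n * (x * Real.exp (-(k n * x))) := by
  refine ((sum_kexp hk hx).mul_left (c * x)).congr fun n => ?_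
  ring

theorem Dn_g (hk : ∀ n : ℕ, 1 + 3 * (n : ℝ) ≤ k n) (hc : 0 ≤ c) : Dn L (fun x => x * Tk1 k c x) := by
  have := Dn.tsum (L := L) (F := fun n x => c * k n * (x * Real.exp (-(k n * x))))
    (fun n => (Dn_x (k_one hk n)).smul (mul_nonneg hc (by linarith [k_one hk n])))
    (fun x hx => sum_x hk (by unfold L at hx; linarith))
  exact this.congr fun x _ => xTk1 x

theorem sum_r : Summable r := by
  unfold r
  exact (summable_geometric_of_lt_one (Real.exp_pos _).le
    (exp_lt1 (by norm_num))).mul_left _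

theorem Dn_cmp (hk : ∀ n : ℕ, 1 + 3 * (n : ℝ) ≤ k n) (hc : 0 ≤ c) :
    Dn L (fun x => (∑' n, c * r n) * (x * Tk1 k c x) - x * Tk1 k c x * Tk k c x) := by
  have h1 : ∀ m, Dn L (fun x => c * k m * (x * Real.exp (-(k m * x))) *
      ((∑' n, c * r n) - Tk k c x)) := by
    intro m
    have h2 : Dn L (fun x => ∑' n, c * (r n * (x * Real.exp (-(k m * x))) -
        x * Real.exp (-((k m + k n) * x)))) := by
      refine Dn.tsum (F := fun n x => c * (r n * (x * Real.exp (-(k m * x))) -
        x * Real.exp (-((k m + k n) * x)))) (fun n => (cmp_x (k_one hk m) (hk n)).smul hc) ?_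
      intro x hx
      unfold L at hx
      refine Summable.mul_left c (Summable.sub (sum_r.mul_right _) ?_)
      refine ((sum_exp hk (x := x) (by linarith)).mul_left (x * Real.exp (-(k m * x)))).congr
        fun n => ?_
      rw [mul_assoc, ← Real.exp_add]
      ring_nf
    have h3 := h2.smul (r := c * k m) (mul_nonneg hc (by linarith [k_one hk m]))
    refine h3.congr fun x hx => ?_
    unfold L at hx
    have e1 : ∀ n, c * (r n * (x * Real.exp (-(k m * x))) - x * Real.exp (-((k m + k n) * x))) =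
        (c * r n) * (x * Real.exp (-(k m * x))) -
          c * Real.exp (-(k n * x)) * (x * Real.exp (-(k m * x))) := by
      intro n
      have : Real.exp (-((k m + k n) * x)) = Real.exp (-(k m * x)) * Real.exp (-(k n * x)) := by
        rw [← Real.exp_add]; ring_nf
      rw [this]; ring
    simp only [e1]
    rw [((sum_r.mul_left c).mul_right _).tsum_sub
      (((sum_exp hk (x := x) (by linarith)).mul_left c).mul_right _), tsum_mul_right,
      tsum_mul_right]
    unfold Tk
    ring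
  have h4 := Dn.tsum h1 (fun x hx => by
    unfold L at hx
    exact (sum_x hk (by linarith)).mul_right _)
  refine h4.congr fun x hx => ?_
  rw [tsum_mul_right, ← xTk1]
  ring

theorem rho_lt (hc : 0 ≤ c) (hc2 : c ≤ 2) : ∑' n, c * r n < 1 := by
  rw [tsum_mul_left]
  unfold r
  rw [tsum_mul_left, tsum_geometric_of_lt_one (Real.exp_pos _).le
    (exp_lt1 (by norm_num))]
  -- e^{2.9} ≥ 18.1 , e^{4.8} ≥ 100
  have h1 : (18 : ℝ) + 1 / 10 ≤ Real.exp (29 / 10) := by
    have := Real.sum_le_exp_of_nonneg (x := 29 / 10) (by norm_num) 12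
    refine le_trans ?_ this
    norm_num [Finset.sum_range_succ, Nat.factorial]
  have h2 : (100 : ℝ) ≤ Real.exp (24 / 5) := by
    have := Real.sum_le_exp_of_nonneg (x := 24 / 5) (by norm_num) 12
    refine le_trans ?_ this
    norm_num [Finset.sum_range_succ, Nat.factorial]
  have h3 : Real.exp (-(29 / 10)) ≤ 10 / 181 := by
    rw [Real.exp_neg, inv_le_comm₀ (Real.exp_pos _) (by norm_num)]
    linarith
  have h4 : Real.exp (-(24 / 5)) ≤ 1 / 100 := by
    rw [Real.exp_neg, inv_le_comm₀ (Real.exp_pos _) (by norm_num)]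
    linarith
  have h5 : (1 - Real.exp (-(24 / 5)))⁻¹ ≤ 100 / 99 := by
    rw [inv_le_comm₀ (by linarith) (by norm_num)]
    linarith
  have h6 : 76 / 9 * Real.exp (-(29 / 10)) ≤ 76 / 9 * (10 / 181) :=
    mul_le_mul_of_nonneg_left h3 (by norm_num)
  have h7 : 0 ≤ (1 - Real.exp (-(24 / 5)))⁻¹ := inv_nonneg.mpr (by linarith)
  calc c * (76 / 9 * Real.exp (-(29 / 10)) * (1 - Real.exp (-(24 / 5)))⁻¹) ≤
        2 * (76 / 9 * (10 / 181) * (100 / 99)) :=
        mul_le_mul hc2 (mul_le_mul h6 h5 h7 (by norm_num)) (by positivity) (by norm_num)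
    _ < 1 := by norm_num

theorem J_g_pos (hk : ∀ n : ℕ, 1 + 3 * (n : ℝ) ≤ k n) (hc : 0 < c) {X Y Z : ℝ} (hX : L ≤ X)
    (hXY : X < Y) (hYZ : Y < Z) : 0 < J X Y Z (fun x => x * Tk1 k c x) := by
  have k0 := k_one hk 0
  -- g - 9/10 c k0 exp(-k0 x) is convex
  have h1 : Dn L (fun x => ∑' n : ℕ, c * k n * (x * Real.exp (-(k n * x)) -
      9 / 10 * Real.exp (-(k n * x)))) := by
    refine Dn.tsum (F := fun n x => c * k n * (x * Real.exp (-(k n * x)) -
      9 / 10 * Real.exp (-(k n * x)))) (fun n => (Dn_x9 (k_one hk n)).smul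
        (mul_nonneg hc.le (by linarith [k_one hk n]))) (fun x hx => ?_)
    unfold L at hx
    refine ((sum_kexp hk (x := x) (by linarith)).mul_left (c * (x - 9 / 10))).congr fun n => ?_
    ring
  have h2 : Dn L (fun x => ∑' n : ℕ, c * k (n + 1) * Real.exp (-(k (n + 1) * x))) := by
    refine Dn.tsum (F := fun n x => c * k (n + 1) * Real.exp (-(k (n + 1) * x)))
      (fun n => (Dn_exp (by linarith [k_one hk (n + 1)])).smul
        (mul_nonneg hc.le (by linarith [k_one hk (n + 1)]))) (fun x hx => ?_)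
    unfold L at hx
    have := (summable_nat_add_iff 1).mpr (sum_kexp hk (x := x) (by linarith))
    refine (this.mul_left c).congr fun n => ?_
    ring
  have h3 := (h1.add (h2.smul (r := 9 / 10) (by norm_num))).J_nonneg hX hXY hYZ
  have h4 := J_exp_pos (k := k 0) (by linarith) hXY hYZ
  have e : ∀ x, L ≤ x → x * Tk1 k c x = (∑' n : ℕ, c * k n * (x * Real.exp (-(k n * x)) -
      9 / 10 * Real.exp (-(k n * x)))) + 9 / 10 * (∑' n : ℕ, c * k (n + 1) *
        Real.exp (-(k (n + 1) * x))) + 9 / 10 * (c * k 0) * Real.exp (-(k 0 * x)) := by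
    intro x hx
    unfold L at hx
    have s1 := (sum_kexp hk (x := x) (by linarith)).mul_left c
    have e1 : Tk1 k c x = c * k 0 * Real.exp (-(k 0 * x)) +
        ∑' n : ℕ, c * k (n + 1) * Real.exp (-(k (n + 1) * x)) := by
      unfold Tk1
      have s2 : Summable fun n : ℕ => c * k n * Real.exp (-(k n * x)) := by
        refine s1.congr fun n => ?_
        ring
      exact s2.tsum_eq_zero_add
    have e2 : (∑' n : ℕ, c * k n * (x * Real.exp (-(k n * x)) - 9 / 10 * Real.exp (-(k n * x)))) =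
        (x - 9 / 10) * Tk1 k c x := by
      unfold Tk1
      rw [← tsum_mul_left]
      exact tsum_congr fun n => by ring
    rw [e2]
    nlinarith [e1]
  have hY : L ≤ Y := by linarith
  have hZ : L ≤ Z := by linarith
  unfold J at h3 h4 ⊢
  simp only at h3 h4 ⊢
  rw [e X hX, e Y hY, e Z hZ]
  have h5 : 0 < 9 / 10 * (c * k 0) := by
    have : 0 < c * k 0 := mul_pos hc (by linarith)
    linarith
  have h6 := mul_pos h5 h4
  nlinarith [h3, h6]

end DirAux

open DirAux

theorem J3_dir {k : ℕ → ℝ} {c : ℝ} (hk : ∀ n : ℕ, 1 + 3 * (n : ℝ) ≤ k n) (hc : 0 < c) (hc2 : c ≤ 2)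
    {X Y Z : ℝ} (hX : 29 / 10 ≤ X) (hXY : X < Y) (hYZ : Y < Z) :
    0 < J3 X Y Z (fun x => x * Tk1 k c x) (Tk k c) := by
  have hX' : L ≤ X := hX
  have hg := Dn_g hk hc.le
  have ht := Dn_Tk hk hc.le
  have h1 := (Dn_cmp hk hc.le).J_nonneg hX' hXY hYZ
  have h2 := J_g_pos hk hc hX' hXY hYZ
  have h3 := ((hg.mul ht).mul ht).J_nonneg hX' hXY hYZ
  have h4 := rho_lt hc.le hc2
  have t1 := ht.nn X hX'
  have t2 := ht.nn Y (by linarith)
  have t3 := ht.nn Z (by linarith)
  rw [J3_eq]
  rw [J_sub, J_mul] at h1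
  set G := J X Y Z (fun x => x * Tk1 k c x)
  set G1 := J X Y Z (fun x => x * Tk1 k c x * Tk k c x)
  set G2 := J X Y Z (fun x => x * Tk1 k c x * Tk k c x * Tk k c x)
  have h5 : G1 ≤ G := by nlinarith
  have h6 : G1 < G := by nlinarith
  have h7 : (1 + (Tk k c X + Tk k c Y + Tk k c Z)) * G1 <
      (1 + (Tk k c X + Tk k c Y + Tk k c Z)) * G := mul_lt_mul_of_pos_left h6 (by linarith)
  have h8 : 0 ≤ (Tk k c X * Tk k c Y + Tk k c Y * Tk k c Z + Tk k c X * Tk k c Z) * G := by
    positivity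
  nlinarith

end Pool.Agent.Lib.EPB
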