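import Pool.Agent.Lib.EPB.Defs

/-!
# The final numerical inequality

Numerically the worst ratio of the two sides is `0.7796` (at `a = 51/40`, `P = 41/20 a`).
PROOF.  Divide by `2 a exp (P/2)`.
Case 1, `P ≤ 13/5`: use `min ≤ 8a²-8a+1`.  Lemmas: `(4a - 4 + 1/(2a)) exp (-2a) ≤ 0.1195` for all `a ≥ 51/40` (maximum
`0.11914` near `a = 1.385`; for instance multiply by `exp (2a) ≥ exp (14/5) (1 + z + z²/2 + z³/6)`, `z = 2a - 14/5`, or split) and
`25/2 (81a²-36a+2) exp (-8a) / (2a) ≤ 0.016` (decreasing).  So the left-hand side divided by `2a exp (P/2)` is at most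
`0.248 exp (P/2) + 0.016 exp (P/2)`, and with `y = exp (P/6)`, `1 ≤ y ≤ exp (13/30) ≤ 1.5425`, `2.09/(2a) ≤ 0.8197`,
`a/4 ≥ 0.31875` it suffices that `0.264 y⁶ + 0.8197 - 0.31875 y² < y³` (multiply by `y³`; numerically the difference is
at least `0.05` on `[1, 1.5425]`).
Case 2, `P ≥ 13/5`: use `min ≤ (8a²-4a)/P`; `exp (P/2)/P` is increasing for `P ≥ 2`, so the first term divided by
`2a exp (P/2)` is at most `2.075 (4a-2) exp (-0.975a)/(2.05a) ≤ 0.7101` (decreasing in `a ≥ 51/40`), the second at most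
`25/2 (81a²-36a+2) exp (-6.975a)/(2a) ≤ 0.0593`, `2.09/(2a) exp (-P/2) ≤ 0.8197 exp (-1.3) ≤ 0.2235`; sum `0.993 < 1`
(the term with `exp (P/3)` is only needed in case 1).
-/

namespace Pool.Agent.Lib.EPB

namespace FinAux

open Finset

theorem exp_a : (128 / 10 : ℝ) ≤ Real.exp (51 / 20) := by
  have h1 : (2.7182818283 : ℝ) ≤ Real.exp 1 := Real.exp_one_gt_d9.le
  have h2 : (1.7327 : ℝ) ≤ Real.exp (11 / 20) := by
    have h := Real.sum_le_exp_of_nonneg (x := 11 / 20) (by norm_num) 5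
    refine le_trans ?_ h
    norm_num [Finset.sum_range_succ, Nat.factorial]
  have h3 : Real.exp (51 / 20) = Real.exp 1 ^ 2 * Real.exp (11 / 20) := by
    rw [← Real.exp_nat_mul, ← Real.exp_add]
    norm_num
  rw [h3]
  calc (128 / 10 : ℝ) ≤ 2.7182818283 ^ 2 * 1.7327 := by norm_num
    _ ≤ _ := by gcongr

theorem exp_b : (26500 : ℝ) ≤ Real.exp (51 / 5) := by
  have h1 : (2.7182818283 : ℝ) ≤ Real.exp 1 := Real.exp_one_gt_d9.le
  have h2 : (1.22 : ℝ) ≤ Real.exp (1 / 5) := by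
    have h := Real.sum_le_exp_of_nonneg (x := 1 / 5) (by norm_num) 3
    refine le_trans ?_ h
    norm_num [Finset.sum_range_succ, Nat.factorial]
  have h3 : Real.exp (51 / 5) = Real.exp 1 ^ 10 * Real.exp (1 / 5) := by
    rw [← Real.exp_nat_mul, ← Real.exp_add]
    norm_num
  rw [h3]
  calc (26500 : ℝ) ≤ 2.7182818283 ^ 10 * 1.22 := by norm_num
    _ ≤ _ := by gcongr

theorem exp_c : (7000 : ℝ) ≤ Real.exp (14229 / 1600) := by
  have h1 : (2.7182818283 : ℝ) ≤ Real.exp 1 := Real.exp_one_gt_d9.le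
  have h2 : (2.4 : ℝ) ≤ Real.exp (1429 / 1600) := by
    have h := Real.sum_le_exp_of_nonneg (x := 1429 / 1600) (by norm_num) 4
    refine le_trans ?_ h
    norm_num [Finset.sum_range_succ, Nat.factorial]
  have h3 : Real.exp (14229 / 1600) = Real.exp 1 ^ 8 * Real.exp (1429 / 1600) := by
    rw [← Real.exp_nat_mul, ← Real.exp_add]
    norm_num
  rw [h3]
  calc (7000 : ℝ) ≤ 2.7182818283 ^ 8 * 2.4 := by norm_num
    _ ≤ _ := by gcongr

theorem exp_d : (3.465 : ℝ) ≤ Real.exp (1989 / 1600) := by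
  have h := Real.sum_le_exp_of_nonneg (x := 1989 / 1600) (by norm_num) 8
  refine le_trans ?_ h
  norm_num [Finset.sum_range_succ, Nat.factorial]

theorem exp_e : (3.66 : ℝ) ≤ Real.exp (13 / 10) := by
  have h := Real.sum_le_exp_of_nonneg (x := 13 / 10) (by norm_num) 6
  refine le_trans ?_ h
  norm_num [Finset.sum_range_succ, Nat.factorial]

theorem exp_f : Real.exp (13 / 30) ≤ 617 / 400 := by
  have h1 : Real.exp 1 ≤ (2.7182818286 : ℝ) := Real.exp_one_lt_d9.le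
  have h2 : Real.exp (13 / 30) ^ 30 = Real.exp 1 ^ 13 := by
    rw [← Real.exp_nat_mul, ← Real.exp_nat_mul]
    norm_num
  have h3 : Real.exp (13 / 30) ^ 30 ≤ (617 / 400 : ℝ) ^ 30 := by
    rw [h2]
    calc Real.exp 1 ^ 13 ≤ (2.7182818286 : ℝ) ^ 13 := by gcongr
      _ ≤ _ := by norm_num
  exact le_of_pow_le_pow_left₀ (by norm_num) (by norm_num) h3

/-- first coefficient in case 1 -/
theorem k1 {a : ℝ} (ha : 51 / 40 ≤ a) :
    83 / 40 * (8 * a ^ 2 - 8 * a + 1) ≤ 1 / 2 * a * Real.exp (2 * a) := by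
  obtain ⟨z, hz⟩ : ∃ z, z = 2 * a - 51 / 20 := ⟨_, rfl⟩
  have hz0 : 0 ≤ z := by linarith
  have h1 : Real.exp (2 * a) = Real.exp (51 / 20) * Real.exp z := by
    rw [← Real.exp_add, hz]
    ring_nf
  have h2 : 1 + z + z ^ 2 / 2 ≤ Real.exp z := Real.quadratic_le_exp_of_nonneg hz0
  have h3 : 128 / 10 * (1 + z + z ^ 2 / 2) ≤ Real.exp (2 * a) := by
    rw [h1]
    have h4 := exp_a
    gcongr
  have ha' : a = (z + 51 / 20) / 2 := by linarith
  have h5 : 1 / 2 * a * (128 / 10 * (1 + z + z ^ 2 / 2)) ≤ 1 / 2 * a * Real.exp (2 * a) := by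
    gcongr
  refine le_trans ?_ h5
  rw [ha']
  nlinarith [sq_nonneg (z - 24 / 100), mul_nonneg hz0 (sq_nonneg z)]

/-- second coefficient in case 1 -/
theorem k2 {a : ℝ} (ha : 51 / 40 ≤ a) :
    25 / 2 * (81 * a ^ 2 - 36 * a + 2) ≤ 33 / 1000 * a * Real.exp (8 * a) := by
  obtain ⟨t, ht⟩ : ∃ t, t = a - 51 / 40 := ⟨_, rfl⟩
  have ht0 : 0 ≤ t := by linarith
  have h1 : Real.exp (8 * a) = Real.exp (51 / 5) * Real.exp (8 * t) := by
    rw [← Real.exp_add, ht]
    ring_nf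
  have h2 : 8 * t + 1 ≤ Real.exp (8 * t) := Real.add_one_le_exp _
  have h3 : 26500 * (8 * t + 1) ≤ Real.exp (8 * a) := by
    rw [h1]
    have h4 := exp_b
    gcongr
  have ha' : a = t + 51 / 40 := by linarith
  have h5 : 33 / 1000 * a * (26500 * (8 * t + 1)) ≤ 33 / 1000 * a * Real.exp (8 * a) := by
    gcongr
  refine le_trans ?_ h5
  rw [ha']
  nlinarith [mul_nonneg ht0 ht0]

/-- the polynomial inequality of case 1 -/
theorem poly {y : ℝ} (h1 : 1 ≤ y) (h2 : y ≤ 617 / 400) :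
    533 / 2000 * y ^ 6 + 8197 / 10000 < y ^ 3 + 51 / 160 * y ^ 2 := by
  have h3 : 1 + 1033 / 2000 * (y ^ 3 - 1) ≤ y ^ 2 := by
    have h4 : 0 ≤ (y + 1) - 1033 / 2000 * (y ^ 2 + y + 1) := by
      nlinarith [mul_nonneg (sub_nonneg.2 h1) (sub_nonneg.2 h2)]
    nlinarith [mul_nonneg (sub_nonneg.2 h1) h4]
  have h5 : 1 ≤ y ^ 3 := one_le_pow₀ h1
  have h6 : y ^ 3 ≤ 36701 / 10000 := by
    calc y ^ 3 ≤ (617 / 400 : ℝ) ^ 3 := by gcongr
      _ ≤ _ := by norm_num
  have h7 : y ^ 6 = (y ^ 3) ^ 2 := by ring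
  rw [h7]
  generalize y ^ 3 = s at *
  nlinarith [mul_nonneg (sub_nonneg.2 h5) (sub_nonneg.2 h6)]

theorem case1 {a P : ℝ} (ha : 51 / 40 ≤ a) (hP0 : 0 < P) (hP : P ≤ 13 / 5) :
    83 / 40 * Real.exp (P - 2 * a) * (8 * a ^ 2 - 8 * a + 1) +
      25 / 2 * (81 * a ^ 2 - 36 * a + 2) * Real.exp (P - 8 * a) <
    -(209 / 100) + 2 * a * Real.exp (P / 2) + a ^ 2 / 2 * Real.exp (P / 3) := by
  obtain ⟨y, hy⟩ : ∃ y, y = Real.exp (P / 6) := ⟨_, rfl⟩
  have hy1 : 1 ≤ y := by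
    rw [hy]
    exact Real.one_le_exp (by linarith)
  have hy2 : y ≤ 617 / 400 := by
    rw [hy]
    exact (Real.exp_le_exp.2 (by linarith)).trans exp_f
  have e2 : Real.exp (P / 2) = y ^ 3 := by
    rw [hy, ← Real.exp_nat_mul]
    congr 1
    push_cast
    ring
  have e3 : Real.exp (P / 3) = y ^ 2 := by
    rw [hy, ← Real.exp_nat_mul]
    congr 1
    push_cast
    ring
  have e4 : Real.exp (P - 2 * a) = y ^ 6 * Real.exp (-(2 * a)) := by
    rw [hy, ← Real.exp_nat_mul, ← Real.exp_add]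
    congr 1
    push_cast
    ring
  have e5 : Real.exp (P - 8 * a) = y ^ 6 * Real.exp (-(8 * a)) := by
    rw [hy, ← Real.exp_nat_mul, ← Real.exp_add]
    congr 1
    push_cast
    ring
  have c1 : 83 / 40 * Real.exp (-(2 * a)) * (8 * a ^ 2 - 8 * a + 1) ≤ 1 / 2 * a := by
    have h := mul_le_mul_of_nonneg_right (k1 ha) (Real.exp_pos (-(2 * a))).le
    have h' : Real.exp (2 * a) * Real.exp (-(2 * a)) = 1 := by
      rw [← Real.exp_add]
      simp
    calc 83 / 40 * Real.exp (-(2 * a)) * (8 * a ^ 2 - 8 * a + 1)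
        = 83 / 40 * (8 * a ^ 2 - 8 * a + 1) * Real.exp (-(2 * a)) := by ring
      _ ≤ 1 / 2 * a * Real.exp (2 * a) * Real.exp (-(2 * a)) := h
      _ = 1 / 2 * a * (Real.exp (2 * a) * Real.exp (-(2 * a))) := by ring
      _ = 1 / 2 * a := by rw [h', mul_one]
  have c2 : 25 / 2 * (81 * a ^ 2 - 36 * a + 2) * Real.exp (-(8 * a)) ≤ 33 / 1000 * a := by
    have h := mul_le_mul_of_nonneg_right (k2 ha) (Real.exp_pos (-(8 * a))).le
    have h' : Real.exp (8 * a) * Real.exp (-(8 * a)) = 1 := by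
      rw [← Real.exp_add]
      simp
    calc 25 / 2 * (81 * a ^ 2 - 36 * a + 2) * Real.exp (-(8 * a))
        ≤ 33 / 1000 * a * Real.exp (8 * a) * Real.exp (-(8 * a)) := h
      _ = 33 / 1000 * a * (Real.exp (8 * a) * Real.exp (-(8 * a))) := by ring
      _ = 33 / 1000 * a := by rw [h', mul_one]
  rw [e2, e3, e4, e5]
  have hy6 : 0 < y ^ 6 := by positivity
  have hp := poly hy1 hy2
  have d1 := mul_le_mul_of_nonneg_left c1 hy6.le
  have d2 := mul_le_mul_of_nonneg_left c2 hy6.le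
  have d3 : 2 * a * (533 / 2000 * y ^ 6 + 8197 / 10000) < 2 * a * (y ^ 3 + 51 / 160 * y ^ 2) :=
    mul_lt_mul_of_pos_left hp (by linarith)
  have d4 : 0 ≤ (a - 51 / 40) * a * y ^ 2 :=
    mul_nonneg (mul_nonneg (by linarith) (by linarith)) (sq_nonneg y)
  nlinarith [d1, d2, d3, d4]

theorem case2 {a P : ℝ} (ha : 51 / 40 ≤ a) (hP0 : 13 / 5 ≤ P) (hP : P ≤ 41 / 20 * a) :
    83 / 40 * Real.exp (P - 2 * a) * ((8 * a ^ 2 - 4 * a) / P) +
      25 / 2 * (81 * a ^ 2 - 36 * a + 2) * Real.exp (P - 8 * a) <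
    -(209 / 100) + 2 * a * Real.exp (P / 2) + a ^ 2 / 2 * Real.exp (P / 3) := by
  obtain ⟨t, ht⟩ : ∃ t, t = a - 51 / 40 := ⟨_, rfl⟩
  have ht0 : 0 ≤ t := by linarith
  have ha' : a = t + 51 / 40 := by linarith
  have hPpos : 0 < P := by linarith
  -- A
  have hA : 83 / 40 * (4 * a - 2) ≤ 712 / 1000 * P * Real.exp (2 * a - P / 2) := by
    have h1 : Real.exp (2 * a - P / 2) =
        Real.exp (1989 / 1600) * Real.exp (39 / 40 * t) * Real.exp ((41 / 20 * a - P) / 2) := by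
      rw [← Real.exp_add, ← Real.exp_add, ht]
      ring_nf
    have h2 : 39 / 40 * t + 1 ≤ Real.exp (39 / 40 * t) := Real.add_one_le_exp _
    have h3 : (41 / 20 * a - P) / 2 + 1 ≤ Real.exp ((41 / 20 * a - P) / 2) := Real.add_one_le_exp _
    have h4 : 3.465 * (39 / 40 * t + 1) * ((41 / 20 * a - P) / 2 + 1) ≤ Real.exp (2 * a - P / 2) := by
      rw [h1]
      have h5 := exp_d
      have h6 : 0 ≤ (41 / 20 * a - P) / 2 + 1 := by linarith
      gcongr
    have h7 : 41 / 20 * a ≤ P * ((41 / 20 * a - P) / 2 + 1) := by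
      nlinarith [mul_nonneg (sub_nonneg.2 hP) (show (0 : ℝ) ≤ P / 2 - 1 by linarith)]
    have h8 : 712 / 1000 * (3.465 * (39 / 40 * t + 1)) * (41 / 20 * a) ≤
        712 / 1000 * (3.465 * (39 / 40 * t + 1)) * (P * ((41 / 20 * a - P) / 2 + 1)) := by
      gcongr
    have h9 : 712 / 1000 * P * (3.465 * (39 / 40 * t + 1) * ((41 / 20 * a - P) / 2 + 1)) ≤
        712 / 1000 * P * Real.exp (2 * a - P / 2) := by
      gcongr
    have h10 : 83 / 40 * (4 * a - 2) ≤ 712 / 1000 * (3.465 * (39 / 40 * t + 1)) * (41 / 20 * a) := by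
      rw [ha']
      nlinarith [mul_nonneg ht0 ht0]
    linarith
  -- B
  have hB : 25 / 2 * (81 * a ^ 2 - 36 * a + 2) ≤ 124 / 1000 * a * Real.exp (8 * a - P / 2) := by
    have h1 : Real.exp (14229 / 1600) * Real.exp (279 / 40 * t) ≤ Real.exp (8 * a - P / 2) := by
      rw [← Real.exp_add]
      apply Real.exp_le_exp.2
      rw [ht]
      linarith
    have h2 : 279 / 40 * t + 1 ≤ Real.exp (279 / 40 * t) := Real.add_one_le_exp _
    have h3 : 7000 * (279 / 40 * t + 1) ≤ Real.exp (8 * a - P / 2) := by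
      refine le_trans ?_ h1
      have h4 := exp_c
      gcongr
    have h5 : 124 / 1000 * a * (7000 * (279 / 40 * t + 1)) ≤ 124 / 1000 * a * Real.exp (8 * a - P / 2) := by
      gcongr
    refine le_trans ?_ h5
    rw [ha']
    nlinarith [mul_nonneg ht0 ht0]
  -- C
  have hC : (3.66 : ℝ) ≤ Real.exp (P / 2) :=
    exp_e.trans (Real.exp_le_exp.2 (by linarith))
  have hX : 0 < Real.exp (P / 2) := Real.exp_pos _
  have A2 : 83 / 40 * Real.exp (P - 2 * a) * ((8 * a ^ 2 - 4 * a) / P) ≤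
      712 / 1000 * (2 * a) * Real.exp (P / 2) := by
    have h1 : Real.exp (P / 2) = Real.exp (P - 2 * a) * Real.exp (2 * a - P / 2) := by
      rw [← Real.exp_add]
      ring_nf
    rw [h1]
    have h2 : 83 / 40 * Real.exp (P - 2 * a) * ((8 * a ^ 2 - 4 * a) / P) =
        (2 * a * Real.exp (P - 2 * a) / P) * (83 / 40 * (4 * a - 2)) := by
      field_simp
      ring
    have h3 : 712 / 1000 * (2 * a) * (Real.exp (P - 2 * a) * Real.exp (2 * a - P / 2)) =
        (2 * a * Real.exp (P - 2 * a) / P) * (712 / 1000 * P * Real.exp (2 * a - P / 2)) := by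
      field_simp
    rw [h2, h3]
    apply mul_le_mul_of_nonneg_left hA
    positivity
  have B2 : 25 / 2 * (81 * a ^ 2 - 36 * a + 2) * Real.exp (P - 8 * a) ≤
      124 / 1000 * a * Real.exp (P / 2) := by
    have h1 : Real.exp (P / 2) = Real.exp (8 * a - P / 2) * Real.exp (P - 8 * a) := by
      rw [← Real.exp_add]
      ring_nf
    rw [h1, ← mul_assoc]
    exact mul_le_mul_of_nonneg_right hB (Real.exp_pos _).le
  have C2 : 209 / 100 ≤ 2245 / 10000 * (2 * a) * Real.exp (P / 2) := by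
    have h1 : 2245 / 10000 * (2 * (51 / 40)) * (3.66 : ℝ) ≤ 2245 / 10000 * (2 * a) * Real.exp (P / 2) := by
      gcongr
    refine le_trans ?_ h1
    norm_num
  have D2 : 0 < a ^ 2 / 2 * Real.exp (P / 3) := by positivity
  have E2 : 0 < a * Real.exp (P / 2) := by positivity
  nlinarith [A2, B2, C2, D2, E2]

end FinAux

open FinAux

theorem fin_ineq {a P : ℝ} (ha : 51 / 40 ≤ a) (hP0 : 0 < P) (hP : P ≤ 41 / 20 * a) :
    83 / 40 * Real.exp (P - 2 * a) * min (8 * a ^ 2 - 8 * a + 1) ((8 * a ^ 2 - 4 * a) / P) +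
      25 / 2 * (81 * a ^ 2 - 36 * a + 2) * Real.exp (P - 8 * a) <
    -(209 / 100) + 2 * a * Real.exp (P / 2) + a ^ 2 / 2 * Real.exp (P / 3) := by
  have hpos : 0 ≤ 83 / 40 * Real.exp (P - 2 * a) := by positivity
  rcases le_total P (13 / 5) with h | h
  · refine lt_of_le_of_lt ?_ (case1 ha hP0 h)
    have h1 := mul_le_mul_of_nonneg_left
      (min_le_left (8 * a ^ 2 - 8 * a + 1) ((8 * a ^ 2 - 4 * a) / P)) hpos
    linarith
  · refine lt_of_le_of_lt ?_ (case2 ha h hP)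
    have h1 := mul_le_mul_of_nonneg_left
      (min_le_right (8 * a ^ 2 - 8 * a + 1) ((8 * a ^ 2 - 4 * a) / P)) hpos
    linarith

end Pool.Agent.Lib.EPB
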