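import Pool.Agent.Lib.EPB.Defs

/-!
# The one-dimensional functions as series over the natural numbers

PROOF.  `E0 x = 1 + 2 ∑_{m ≥ 1} exp (-4 m² x)`: an even function of `m : ℤ` (`tsum_int_eq_zero_add_two_mul_tsum_pnat`
or `HasSum.int_rec`, `HasSum.of_nat_of_neg_add_one`).  `E1` in the same way, `(2m)² = 4 m²`.
`O0`, `O1`: symmetric under `m ↦ -m-1` (`HasSum.of_nat_of_neg_add_one`), so `∑_ℤ = 2 ∑_ℕ`; the term `m = 0` of the sum over
`ℕ` is `exp (-x)`, and `(2m+1)² = 4 m (m+1) + 1`; the terms `m = n + 1` are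
`exp (-x) exp (-(kH n (4 x)))`, with the factor `4 kH n + 1` for `O1`.
-/

namespace Pool.Agent.Lib.EPB

namespace SerAux

theorem hasSum_congr {f g : ℕ → ℝ} {S : ℝ} (h : HasSum f S) (e : ∀ n, g n = f n) :
    HasSum g S := by
  rwa [show g = f from funext e]

theorem even_sum {f : ℤ → ℝ} {S : ℝ} (h : HasSum (fun n : ℕ => f ((n : ℤ) + 1)) S)
    (he : ∀ n : ℕ, f (-((n : ℤ) + 1)) = f ((n : ℤ) + 1)) : ∑' m, f m = f 0 + 2 * S := by
  have h1 : HasSum (fun n : ℕ => f (n : ℤ)) (S + f 0) := by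
    have := (hasSum_nat_add_iff (f := fun n : ℕ => f (n : ℤ)) 1 (g := S)).mp (by
      simpa using h)
    simpa using this
  have h2 : HasSum (fun n : ℕ => f (-((n : ℤ) + 1))) S := by
    simpa only [he] using h
  rw [(h1.of_nat_of_neg_add_one h2).tsum_eq]
  ring

theorem odd_sum {f : ℤ → ℝ} {S : ℝ} (h : HasSum (fun n : ℕ => f ((n : ℤ) + 1)) S)
    (he : ∀ n : ℕ, f (-((n : ℤ) + 1)) = f (n : ℤ)) : ∑' m, f m = 2 * (f 0 + S) := by
  have h1 : HasSum (fun n : ℕ => f (n : ℤ)) (S + f 0) := by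
    have := (hasSum_nat_add_iff (f := fun n : ℕ => f (n : ℤ)) 1 (g := S)).mp (by
      simpa using h)
    simpa using this
  have h2 : HasSum (fun n : ℕ => f (-((n : ℤ) + 1))) (S + f 0) := by
    simpa only [he] using h1
  rw [(h1.of_nat_of_neg_add_one h2).tsum_eq]
  ring

theorem summable_k1 {k : ℕ → ℝ} (hk : ∀ n : ℕ, (n : ℝ) + 1 ≤ k n) (hk2 : ∀ n : ℕ, k n ≤ 2 * ((n : ℝ) + 1) ^ 2)
    {x : ℝ} (hx : 0 < x) : Summable fun n : ℕ => k n * Real.exp (-(k n * x)) := by
  have h0 := Real.summable_pow_mul_exp_neg_nat_mul 2 hx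
  have h1 : Summable fun n : ℕ => (((n + 1 : ℕ) : ℝ)) ^ 2 * Real.exp (-x * ((n + 1 : ℕ) : ℝ)) :=
    (summable_nat_add_iff 1).mpr h0
  refine Summable.of_nonneg_of_le (fun n => ?_) (fun n => ?_) (h1.mul_left 2)
  · have : 0 ≤ k n := le_trans (by positivity) (hk n)
    positivity
  · have hn : (0 : ℝ) ≤ (n : ℝ) + 1 := by positivity
    have hkn : 0 ≤ k n := hn.trans (hk n)
    have e1 : Real.exp (-(k n * x)) ≤ Real.exp (-x * ((n + 1 : ℕ) : ℝ)) := by
      refine Real.exp_le_exp.mpr ?_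
      push_cast
      have := mul_le_mul_of_nonneg_right (hk n) hx.le
      linarith
    calc k n * Real.exp (-(k n * x)) ≤ 2 * ((n : ℝ) + 1) ^ 2 * Real.exp (-x * ((n + 1 : ℕ) : ℝ)) :=
          mul_le_mul (hk2 n) e1 (Real.exp_pos _).le (by positivity)
      _ = _ := by push_cast; ring

theorem summable_k0 {k : ℕ → ℝ} (hk : ∀ n : ℕ, (n : ℝ) + 1 ≤ k n) (hk2 : ∀ n : ℕ, k n ≤ 2 * ((n : ℝ) + 1) ^ 2)
    {x : ℝ} (hx : 0 < x) : Summable fun n : ℕ => Real.exp (-(k n * x)) := by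
  refine Summable.of_nonneg_of_le (fun n => (Real.exp_pos _).le) (fun n => ?_) (summable_k1 hk hk2 hx)
  have h1 : 1 ≤ k n := le_trans (by have : (0 : ℝ) ≤ n := Nat.cast_nonneg n; linarith) (hk n)
  have := Real.exp_pos (-(k n * x))
  nlinarith

theorem kI_low (n : ℕ) : (n : ℝ) + 1 ≤ kI n := by
  unfold kI
  have : (0 : ℝ) ≤ n := Nat.cast_nonneg n
  nlinarith

theorem kI_up (n : ℕ) : kI n ≤ 2 * ((n : ℝ) + 1) ^ 2 := by
  unfold kI
  nlinarith [sq_nonneg ((n : ℝ) + 1)]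

theorem kH_low (n : ℕ) : (n : ℝ) + 1 ≤ kH n := by
  unfold kH
  have : (0 : ℝ) ≤ n := Nat.cast_nonneg n
  nlinarith

theorem kH_up (n : ℕ) : kH n ≤ 2 * ((n : ℝ) + 1) ^ 2 := by
  unfold kH
  have : (0 : ℝ) ≤ n := Nat.cast_nonneg n
  nlinarith

end SerAux

open SerAux

theorem E0_eq {x : ℝ} (hx : 0 < x) : E0 x = 1 + Tk kI 2 (4 * x) := by
  have hs := (summable_k0 kI_low kI_up (x := 4 * x) (by positivity)).hasSum
  unfold E0 Tk
  rw [even_sum (S := ∑' n : ℕ, Real.exp (-(kI n * (4 * x)))), tsum_mul_left]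
  · simp
  · refine hasSum_congr hs fun n => ?_
    unfold kI
    push_cast
    congr 1
    ring
  · intro n
    push_cast
    congr 1
    ring

theorem E1_eq {x : ℝ} (hx : 0 < x) : E1 x = 4 * Tk1 kI 2 (4 * x) := by
  have hs := ((summable_k1 kI_low kI_up (x := 4 * x) (by positivity)).mul_left 4).hasSum
  unfold E1 Tk1
  rw [even_sum (S := ∑' n : ℕ, 4 * (kI n * Real.exp (-(kI n * (4 * x)))))]
  · simp only [mul_assoc]
    rw [tsum_mul_left, tsum_mul_left]
    simp
    ring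
  · refine hasSum_congr hs fun n => ?_
    unfold kI
    push_cast
    rw [← mul_assoc]
    congr 1
    · ring
    · congr 1
      ring
  · intro n
    push_cast
    congr 1
    · ring
    · congr 1
      ring

theorem O0_eq {x : ℝ} (hx : 0 < x) : O0 x = 2 * Real.exp (-x) * (1 + Tk kH 1 (4 * x)) := by
  have hs := ((summable_k0 kH_low kH_up (x := 4 * x) (by positivity)).mul_left
    (Real.exp (-x))).hasSum
  unfold O0 Tk
  rw [odd_sum (S := ∑' n : ℕ, Real.exp (-x) * Real.exp (-(kH n * (4 * x)))), tsum_mul_left]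
  · simp
    ring
  · refine hasSum_congr hs fun n => ?_
    rw [← Real.exp_add]
    unfold kH
    push_cast
    congr 1
    ring
  · intro n
    push_cast
    congr 1
    ring

theorem O1_eq {x : ℝ} (hx : 0 < x) :
    O1 x = O0 x + 8 * Real.exp (-x) * Tk1 kH 1 (4 * x) := by
  have s0 := (summable_k0 kH_low kH_up (x := 4 * x) (by positivity)).mul_left (Real.exp (-x))
  have s1 := (summable_k1 kH_low kH_up (x := 4 * x) (by positivity)).mul_left (4 * Real.exp (-x))
  have hs := (s0.add s1).hasSum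
  rw [O0_eq hx]
  unfold O1 Tk Tk1
  rw [odd_sum (S := ∑' n : ℕ, (Real.exp (-x) * Real.exp (-(kH n * (4 * x))) +
    4 * Real.exp (-x) * (kH n * Real.exp (-(kH n * (4 * x)))))), s0.tsum_add s1, tsum_mul_left,
    tsum_mul_left]
  · simp
    ring
  · refine hasSum_congr hs fun n => ?_
    have e : Real.exp (-(x * (2 * (((n : ℤ) + 1 : ℤ) : ℝ) + 1) ^ 2)) =
        Real.exp (-x) * Real.exp (-(kH n * (4 * x))) := by
      rw [← Real.exp_add]
      unfold kH
      push_cast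
      congr 1
      ring
    rw [e]
    unfold kH
    push_cast
    ring
  · intro n
    push_cast
    congr 1
    · ring
    · congr 1
      ring

end Pool.Agent.Lib.EPB
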