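import Pool.Agent.Lib.EPB.SmD

/-!
# The dual side: the small functions

`L = 51/40`.  `σ x = sg x = Tk kI 2 (4 x) = ∑ 2 exp (-4 (n+1)² x)`, `τ x = tu x = Tk kH 1 (4 x) = ∑ exp (-4 (n+1)(n+2) x)`.
PROOF.  Pattern: `DirAux` in `EPB.Dir`.
* `Dn_s`, `Dn_t`, `Dn_xs`: `Dn.tsum` of `Dn_exp` (`exp x * exp (-(4 (n+1)² x)) = exp (-((4 (n+1)² - 1) x))`); summability by comparison with a
  geometric series (`4 (n+1)² ≥ 4 + 12 n`, `4 (n+1)(n+2) ≥ 8 + 12 n ≥ 4 + 12 n`).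
* General lemma: let `κ n ≥ 4 + 12 n`, `0 ≤ C ≤ 4`, `l ≥ 1`: `x ↦ exp (-(l x)) (1 - ∑ C exp (-(κ n x)))` is `Dn L`.  With
  `w n = C (1 + κ n)² exp (-(51/40 κ n))` the function is `(1 - ∑ w n) exp (-(l x)) + ∑ (w n exp (-(l x)) - C exp (-((l + κ n) x)))`, each
  bracket is `Dn L` by `Dn_exp_sub` (`(l + κ)² ≤ l² (1 + κ)²`), and `∑ w n ≤ 1`:
  `(1 + κ)² = 25 (1 + (κ-4)/5)² ≤ 25 exp (2 (κ-4)/5)`, so `w n ≤ 100 exp (-51/10) exp (-(7/8) 12 n)`, `100 exp (-5.1) = 0.60968`.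
* `Dn_s1`: `σ (1 - σ) = ∑ 2 exp (-(κ n x)) (1 - σ)`, `Dn.tsum` of the general lemma with `C = 2`; `Dn_t1` with `C = 1`;
  `Dn_es`: `1 - 2σ`, `C = 4`, `l = 1`.
* `s_le`: `σ` is decreasing; `2 exp (-5.1) = 0.0121935...`; `t_le`: `exp (-10.2) = 3.7e-5`.
-/

open Set Filter Topology

namespace Pool.Agent.Lib.EPB

namespace SmlAux

theorem kI_ge (n : ℕ) : 4 + 12 * (n : ℝ) ≤ 4 * kI n := by
  unfold kI
  have h : (n : ℝ) ≤ (n : ℝ) ^ 2 := by exact_mod_cast Nat.le_self_pow two_ne_zero n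
  nlinarith

theorem kH_ge (n : ℕ) : 8 + 12 * (n : ℝ) ≤ 4 * kH n := by
  unfold kH
  nlinarith [sq_nonneg (n : ℝ)]

theorem kH_ge' (n : ℕ) : 4 + 12 * (n : ℝ) ≤ 4 * kH n := by
  have := kH_ge n
  linarith

theorem sg_eq (x : ℝ) : sg x = ∑' n : ℕ, 2 * Real.exp (-((4 * kI n) * x)) := by
  unfold sg Tk
  refine tsum_congr fun n => ?_
  rw [show kI n * (4 * x) = 4 * kI n * x by ring]

theorem tu_eq (x : ℝ) : tu x = ∑' n : ℕ, 1 * Real.exp (-((4 * kH n) * x)) := by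
  unfold tu Tk
  refine tsum_congr fun n => ?_
  rw [show kH n * (4 * x) = 4 * kH n * x by ring]

theorem summ {κ : ℕ → ℝ} (hκ : ∀ n : ℕ, 4 + 12 * (n : ℝ) ≤ κ n) {x : ℝ} (hx : 51 / 40 ≤ x) :
    Summable fun n : ℕ => Real.exp (-(κ n * x)) := by
  refine Summable.of_nonneg_of_le (fun n => (Real.exp_pos _).le) (fun n => ?_)
    Real.summable_exp_neg_nat
  apply Real.exp_le_exp.mpr
  have h0 : (0 : ℝ) ≤ n := n.cast_nonneg
  have h1 := hκ n
  have h2 : 0 ≤ κ n * (x - 51 / 40) := mul_nonneg (by linarith) (by linarith)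
  nlinarith

theorem exp5 : Real.exp (-(51 / 10)) ≤ 3 / 400 ∧ 2 * Real.exp (-(51 / 10)) ≤ 12196 / 1000000 := by
  have h1 : (148.41 : ℝ) ≤ Real.exp 5 := by
    have h := Real.exp_one_gt_d9
    have e : Real.exp 5 = Real.exp 1 ^ 5 := by
      rw [← Real.exp_nat_mul]; norm_num
    rw [e]
    calc (148.41 : ℝ) ≤ 2.7182818283 ^ 5 := by norm_num
      _ ≤ Real.exp 1 ^ 5 := pow_le_pow_left₀ (by norm_num) h.le 5
  have h2 : (1.105 : ℝ) ≤ Real.exp (1 / 10) := by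
    have h := Real.quadratic_le_exp_of_nonneg (x := 1 / 10) (by norm_num)
    norm_num at h ⊢
    linarith
  have h3 : (163.993 : ℝ) ≤ Real.exp (51 / 10) := by
    have e : Real.exp (51 / 10) = Real.exp 5 * Real.exp (1 / 10) := by
      rw [← Real.exp_add]; norm_num
    rw [e]
    calc (163.993 : ℝ) ≤ 148.41 * 1.105 := by norm_num
      _ ≤ _ := mul_le_mul h1 h2 (by norm_num) (Real.exp_pos _).le
  have h4 : Real.exp (-(51 / 10)) ≤ 1 / 163.993 := by
    rw [Real.exp_neg, inv_eq_one_div]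
    exact one_div_le_one_div_of_le (by norm_num) h3
  constructor
  · refine h4.trans (by norm_num)
  · have : (2 : ℝ) * (1 / 163.993) ≤ 12196 / 1000000 := by norm_num
    linarith

theorem exp1 : Real.exp (-1) ≤ 37 / 100 := by
  have h := Real.exp_one_gt_d9
  rw [Real.exp_neg, inv_eq_one_div, div_le_div_iff₀ (Real.exp_pos _) (by norm_num)]
  linarith

/-- upper bound of a series -/
theorem ub {κ : ℕ → ℝ} {p C : ℝ} (hp : 0 ≤ p) (hκ : ∀ n : ℕ, p + 12 * (n : ℝ) ≤ κ n) (hC : 0 ≤ C)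
    {x : ℝ} (hx : 51 / 40 ≤ x) :
    ∑' n : ℕ, C * Real.exp (-(κ n * x)) ≤ C * Real.exp (-(51 / 40 * p)) * (100001 / 100000) := by
  set q : ℝ := Real.exp (-15) with hq
  have hq0 : 0 ≤ q := (Real.exp_pos _).le
  have hq1 : q ≤ 1 / 100001 := by
    have e : q = Real.exp (-1) ^ 15 := by
      rw [hq, ← Real.exp_nat_mul]; norm_num
    rw [e]
    calc Real.exp (-1) ^ 15 ≤ (37 / 100) ^ 15 :=
          pow_le_pow_left₀ (Real.exp_pos _).le exp1 15
      _ ≤ 1 / 100001 := by norm_num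
  have hs : HasSum (fun n : ℕ => C * Real.exp (-(51 / 40 * p)) * q ^ n)
      (C * Real.exp (-(51 / 40 * p)) * (1 - q)⁻¹) :=
    (hasSum_geometric_of_lt_one hq0 (by linarith)).mul_left _
  have hle : ∀ n : ℕ, C * Real.exp (-(κ n * x)) ≤ C * Real.exp (-(51 / 40 * p)) * q ^ n := by
    intro n
    have e : Real.exp (-(51 / 40 * p)) * q ^ n = Real.exp (-(51 / 40 * p) + n * (-15)) := by
      rw [Real.exp_add, hq, ← Real.exp_nat_mul]
    rw [mul_assoc, e]
    apply mul_le_mul_of_nonneg_left _ hC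
    apply Real.exp_le_exp.mpr
    have h0 : (0 : ℝ) ≤ n := n.cast_nonneg
    have h1 := hκ n
    have h2 : 0 ≤ κ n * (x - 51 / 40) := mul_nonneg (by linarith) (by linarith)
    nlinarith
  have hss : Summable fun n : ℕ => C * Real.exp (-(κ n * x)) :=
    Summable.of_nonneg_of_le (fun n => mul_nonneg hC (Real.exp_pos _).le) hle hs.summable
  have h := hss.tsum_le_tsum hle hs.summable
  rw [hs.tsum_eq] at h
  refine h.trans ?_
  apply mul_le_mul_of_nonneg_left _ (mul_nonneg hC (Real.exp_pos _).le)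
  rw [inv_le_comm₀ (by linarith) (by norm_num)]
  norm_num
  linarith

/-- the weights -/
theorem w_le {κ : ℝ} {n : ℕ} (hκ : 4 + 12 * (n : ℝ) ≤ κ) {C : ℝ} (hC : C ≤ 4) :
    C * ((1 + κ) ^ 2 * Real.exp (-(κ * (51 / 40)))) ≤ 3 / 4 * (1 / 4) ^ n := by
  have h0 : (0 : ℝ) ≤ n := n.cast_nonneg
  have hκ0 : 0 ≤ κ := by linarith
  have h1 : (1 + κ) ^ 2 ≤ 25 * Real.exp (2 * (κ - 4) / 5) := by
    have h := Real.add_one_le_exp ((κ - 4) / 5)
    have h' : 0 ≤ (κ - 4) / 5 + 1 := by linarith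
    have h2 := pow_le_pow_left₀ h' h 2
    have e : Real.exp ((κ - 4) / 5) ^ 2 = Real.exp (2 * (κ - 4) / 5) := by
      rw [← Real.exp_nat_mul]
      congr 1
      push_cast
      ring
    rw [e] at h2
    nlinarith
  have h2 : Real.exp (2 * (κ - 4) / 5) * Real.exp (-(κ * (51 / 40))) ≤
      Real.exp (-(51 / 10)) * Real.exp (-2) ^ n := by
    rw [← Real.exp_nat_mul, ← Real.exp_add, ← Real.exp_add]
    apply Real.exp_le_exp.mpr
    linarith
  have h3 : Real.exp (-2) ≤ 1 / 4 := by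
    have e : Real.exp (-2) = Real.exp (-1) ^ 2 := by
      rw [← Real.exp_nat_mul]; norm_num
    rw [e]
    calc Real.exp (-1) ^ 2 ≤ (37 / 100) ^ 2 := pow_le_pow_left₀ (Real.exp_pos _).le exp1 2
      _ ≤ 1 / 4 := by norm_num
  have h4 : Real.exp (-(51 / 10)) * Real.exp (-2) ^ n ≤ 3 / 400 * (1 / 4) ^ n :=
    mul_le_mul exp5.1 (pow_le_pow_left₀ (Real.exp_pos _).le h3 n) (by positivity) (by norm_num)
  have h5 : (1 + κ) ^ 2 * Real.exp (-(κ * (51 / 40))) ≤ 25 * (3 / 400 * (1 / 4) ^ n) := by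
    calc (1 + κ) ^ 2 * Real.exp (-(κ * (51 / 40)))
        ≤ (25 * Real.exp (2 * (κ - 4) / 5)) * Real.exp (-(κ * (51 / 40))) :=
          mul_le_mul_of_nonneg_right h1 (Real.exp_pos _).le
      _ = 25 * (Real.exp (2 * (κ - 4) / 5) * Real.exp (-(κ * (51 / 40)))) := by ring
      _ ≤ 25 * (3 / 400 * (1 / 4) ^ n) :=
          mul_le_mul_of_nonneg_left (h2.trans h4) (by norm_num)
  have h6 : 0 ≤ (1 + κ) ^ 2 * Real.exp (-(κ * (51 / 40))) :=
    mul_nonneg (sq_nonneg _) (Real.exp_pos _).le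
  calc C * ((1 + κ) ^ 2 * Real.exp (-(κ * (51 / 40))))
      ≤ 4 * (25 * (3 / 400 * (1 / 4) ^ n)) := mul_le_mul hC h5 h6 (by norm_num)
    _ = 3 / 4 * (1 / 4) ^ n := by ring

/-- the general lemma -/
theorem gen {κ : ℕ → ℝ} (hκ : ∀ n : ℕ, 4 + 12 * (n : ℝ) ≤ κ n) {C : ℝ} (hC0 : 0 ≤ C) (hC : C ≤ 4)
    {l : ℝ} (hl : 1 ≤ l) :
    Dn (51 / 40) (fun x => Real.exp (-(l * x)) * (1 - ∑' n : ℕ, C * Real.exp (-(κ n * x)))) := by
  have hκ0 : ∀ n, 0 ≤ κ n := fun n => by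
    have h0 : (0 : ℝ) ≤ n := n.cast_nonneg
    have := hκ n
    linarith
  set w : ℕ → ℝ := fun n => C * ((1 + κ n) ^ 2 * Real.exp (-(κ n * (51 / 40)))) with hw
  have hw0 : ∀ n, 0 ≤ w n := fun n =>
    mul_nonneg hC0 (mul_nonneg (sq_nonneg _) (Real.exp_pos _).le)
  have hg : HasSum (fun n : ℕ => 3 / 4 * (1 / 4 : ℝ) ^ n) (3 / 4 * (1 - 1 / 4)⁻¹) :=
    (hasSum_geometric_of_lt_one (by norm_num) (by norm_num)).mul_left _
  have hwle : ∀ n, w n ≤ 3 / 4 * (1 / 4 : ℝ) ^ n := fun n => w_le (hκ n) hC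
  have hws : Summable w := Summable.of_nonneg_of_le hw0 hwle hg.summable
  have hw1 : ∑' n, w n ≤ 1 := by
    have h := hws.tsum_le_tsum hwle hg.summable
    rw [hg.tsum_eq] at h
    norm_num at h
    exact h
  have hb : ∀ n, Dn (51 / 40) (fun x => w n * Real.exp (-(l * x)) -
      C * Real.exp (-((l + κ n) * x))) := by
    intro n
    have h := Dn_exp_sub (L := 51 / 40) (l := l) (j := κ n)
      (r := (1 + κ n) ^ 2 * Real.exp (-(κ n * (51 / 40)))) (by linarith) (hκ0 n) (by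
        have h1 : l + κ n ≤ l * (1 + κ n) := by
          nlinarith [mul_nonneg (sub_nonneg.2 hl) (hκ0 n)]
        have h2 : (l + κ n) ^ 2 ≤ (l * (1 + κ n)) ^ 2 :=
          pow_le_pow_left₀ (by linarith [hκ0 n]) h1 2
        calc (l + κ n) ^ 2 * Real.exp (-(κ n * (51 / 40)))
            ≤ (l * (1 + κ n)) ^ 2 * Real.exp (-(κ n * (51 / 40))) :=
              mul_le_mul_of_nonneg_right h2 (Real.exp_pos _).le
          _ = _ := by ring)
    refine (h.smul hC0).congr fun x _ => ?_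
    simp only [hw]
    ring
  have hsum : ∀ x : ℝ, 51 / 40 ≤ x → Summable fun n => C * Real.exp (-((l + κ n) * x)) := by
    intro x hx
    refine ((summ hκ hx).mul_left (C * Real.exp (-(l * x)))).congr fun n => ?_
    rw [mul_assoc, ← Real.exp_add]
    ring_nf
  have hmain : Dn (51 / 40) (fun x => (1 - ∑' n, w n) * Real.exp (-(l * x)) +
      ∑' n, (w n * Real.exp (-(l * x)) - C * Real.exp (-((l + κ n) * x)))) :=
    ((Dn_exp (by linarith)).smul (by linarith)).add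
      (Dn.tsum hb fun x hx => (hws.mul_right _).sub (hsum x hx))
  refine hmain.congr fun x hx => ?_
  have e1 : ∑' n, (w n * Real.exp (-(l * x)) - C * Real.exp (-((l + κ n) * x))) =
      (∑' n, w n) * Real.exp (-(l * x)) -
        Real.exp (-(l * x)) * ∑' n, C * Real.exp (-(κ n * x)) := by
    rw [(hws.mul_right _).tsum_sub (hsum x hx), tsum_mul_right, ← tsum_mul_left]
    congr 1
    refine tsum_congr fun n => ?_
    rw [show Real.exp (-(l * x)) * (C * Real.exp (-(κ n * x))) =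
      C * (Real.exp (-(l * x)) * Real.exp (-(κ n * x))) by ring, ← Real.exp_add]
    ring_nf
  rw [e1]
  ring

theorem gen1 {κ : ℕ → ℝ} (hκ : ∀ n : ℕ, 4 + 12 * (n : ℝ) ≤ κ n) {C : ℝ} (hC0 : 0 ≤ C) (hC : C ≤ 4) :
    Dn (51 / 40) (fun x => (∑' n : ℕ, C * Real.exp (-(κ n * x))) *
      (1 - ∑' n : ℕ, C * Real.exp (-(κ n * x)))) := by
  have h : Dn (51 / 40) (fun x => ∑' m : ℕ, C * (Real.exp (-(κ m * x)) *
      (1 - ∑' n : ℕ, C * Real.exp (-(κ n * x))))) := by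
    refine Dn.tsum (fun m => (gen hκ hC0 hC ?_).smul hC0) fun x hx => ?_
    · have h0 : (0 : ℝ) ≤ m := m.cast_nonneg
      have := hκ m
      linarith
    · exact ((summ hκ hx).mul_right _).mul_left _
  refine h.congr fun x _ => ?_
  rw [← tsum_mul_right]
  refine tsum_congr fun m => ?_
  ring

end SmlAux

open SmlAux

theorem Dn_s : Dn (51 / 40) sg := by
  have h : Dn (51 / 40) (fun x => ∑' n : ℕ, 2 * Real.exp (-((4 * kI n) * x))) := by
    refine Dn.tsum (fun n => (Dn_exp ?_).smul zero_le_two) fun x hx => (summ kI_ge hx).mul_left _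
    have h0 : (0 : ℝ) ≤ n := n.cast_nonneg
    have := kI_ge n
    linarith
  exact h.congr fun x _ => sg_eq x

theorem Dn_t : Dn (51 / 40) tu := by
  have h : Dn (51 / 40) (fun x => ∑' n : ℕ, 1 * Real.exp (-((4 * kH n) * x))) := by
    refine Dn.tsum (fun n => (Dn_exp ?_).smul zero_le_one) fun x hx => (summ kH_ge' hx).mul_left _
    have h0 : (0 : ℝ) ≤ n := n.cast_nonneg
    have := kH_ge n
    linarith
  exact h.congr fun x _ => tu_eq x

theorem Dn_xs : Dn (51 / 40) (fun x => Real.exp x * sg x) := by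
  have h : Dn (51 / 40) (fun x => ∑' n : ℕ, 2 * Real.exp (-((4 * kI n - 1) * x))) := by
    refine Dn.tsum (fun n => (Dn_exp ?_).smul zero_le_two) fun x hx => ?_
    · have h0 : (0 : ℝ) ≤ n := n.cast_nonneg
      have := kI_ge n
      linarith
    · refine ((summ kI_ge hx).mul_left (2 * Real.exp x)).congr fun n => ?_
      rw [mul_assoc, ← Real.exp_add]
      ring_nf
  refine h.congr fun x _ => ?_
  rw [sg_eq, ← tsum_mul_left]
  refine tsum_congr fun n => ?_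
  rw [show Real.exp x * (2 * Real.exp (-(4 * kI n * x))) =
    2 * (Real.exp x * Real.exp (-(4 * kI n * x))) by ring, ← Real.exp_add]
  ring_nf

theorem Dn_s1 : Dn (51 / 40) (fun x => sg x * (1 - sg x)) := by
  refine (gen1 kI_ge zero_le_two (by norm_num)).congr fun x _ => ?_
  rw [sg_eq]

theorem Dn_t1 : Dn (51 / 40) (fun x => tu x * (1 - tu x)) := by
  refine (gen1 kH_ge' zero_le_one (by norm_num)).congr fun x _ => ?_
  rw [tu_eq]

theorem Dn_es : Dn (51 / 40) (fun x => Real.exp (-x) * (1 - 2 * sg x)) := by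
  refine (gen kI_ge (C := 4) (by norm_num) le_rfl le_rfl).congr fun x _ => ?_
  rw [sg_eq, ← tsum_mul_left, one_mul]
  congr 2
  refine tsum_congr fun n => ?_
  ring

theorem s_le {x : ℝ} (hx : 51 / 40 ≤ x) : sg x ≤ 61 / 5000 := by
  rw [sg_eq]
  refine (ub (p := 4) (by norm_num) kI_ge zero_le_two hx).trans ?_
  have h := exp5.2
  rw [show (51 / 40 * 4 : ℝ) = 51 / 10 by norm_num]
  linarith

theorem t_le {x : ℝ} (hx : 51 / 40 ≤ x) : tu x ≤ 1 / 10000 := by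
  rw [tu_eq]
  refine (ub (p := 8) (by norm_num) kH_ge zero_le_one hx).trans ?_
  have h := exp5.1
  have h0 := (Real.exp_pos (-(51 / 10))).le
  have e : Real.exp (-(51 / 40 * 8)) = Real.exp (-(51 / 10)) ^ 2 := by
    rw [← Real.exp_nat_mul]; norm_num
  have h2 := pow_le_pow_left₀ h0 h 2
  rw [e]
  norm_num at h2 ⊢
  linarith

end Pool.Agent.Lib.EPB
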