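import Pool.Agent.Lib.EPB.SmD
import Pool.Agent.Lib.EPB.Dir
import Pool.Agent.Lib.EPB.Ser

/-!
# The dual side: upper bounds, integral part

`g1 x = x² E1 = ∑ 8 (n+1)² x² exp (-4 (n+1)² x)`, `g2 x = x² exp x (E1 - σ) = ∑ 2 (4 (n+1)² - 1) x² exp (-(4 (n+1)² - 1) x)`.
Write `ψ_k x = x² exp (-(k x))`, `ψ_k'' = (k² x² - 4 k x + 2) exp (-(k x))`, `V = (b-a)(c-b)(c-a) = J a b c (x²)` (`J_sq`).
Pattern: `DirAux` in `EPB.Dir` (`Dn_pe1`, `Dn_pe`, `Dn.tsum`, `Dn.congr`, `Dn.J_nonneg`; `J_nonneg` for functions which are only convex, e.g.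
`M x² - ψ_k`, with `convexOn_of_hasDerivWithinAt2_nonneg` on `Ici a` and `pe_deriv`).
PROOF.
* `Dn_g1`, `Dn_g2`: `ψ_k` is `Dn (51/40)` for `k ≥ 3` (`k x ≥ 3.825 > 2 + √2`).
* `J_psi4a`: `M x² - ψ_4` is convex on `[a, ∞)` for `M = (8a²-8a+1) exp (-4a)`, because `(8x²-8x+1) exp (-4x)` is decreasing for
  `x ≥ 51/40` (derivative `(-32x²+48x-12) exp (-4x)`).
* `J_psi4b`: `J ψ = (c-b)(ψ a - ψ b) - (b-a)(ψ b - ψ c) ≤ (c-b)(ψ a - ψ b) ≤ (c-b)(b-a)(-ψ'(a))` (`ψ_4` decreasing and convex),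
  `-ψ_4'(a) = (4a²-2a) exp (-4a)`.
* `J_g1`: for `k = 4 (n+1)²`, `n ≥ 1` (`k ≥ 16`): `r ψ_4 - ψ_k` is `Dn (51/40)` for `r = k²/4.6 exp (-(51/40)(k-4))` since
  `k² x² - 4 k x + 2 ≤ k² x²` and `16x²-16x+2 ≥ 4.6 x²`.  So `J g1 ≤ 8 (1 + ε) J ψ_4`, `ε = ∑_{n≥1} (n+1)² r_n ≤ 6e-5`: with
  `N = (n+1)² - 1 ≥ 3 n`, `(1+N)³ = 64 (1 + (N-3)/4)³ ≤ 64 exp (3 (N-3)/4)`, `r_n (n+1)² = 16/4.6 (1+N)³ exp (-5.1 N)`,
  `≤ 16/4.6 * 64 * exp (-15.3) exp (-4.35 (N-3))`, `exp (-15.3) = 2.27e-7` (needed: `ε ≤ 1/8000`).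
* `J_g2`: `6 ψ_3`: `M x² - ψ_3` is convex for `M = 0.0243` (`(9x²-12x+2) exp (-3x) ≤ 0.04813` for `x ≥ 51/40`, maximum at
  `x = 1 + 1/√3`; needed `≤ 0.0486`): `6 * 0.0243 = 0.1458`.  The rest, `k = 4 (n+1)² - 1 ≥ 15` (`n ≥ 1`): `M_k x² - ψ_k` is convex for
  `M_k = (k x)²/2 exp (-(k x)) ≤ 1.09 exp (-(51/80) k)` (`y² exp (-y/2) ≤ 16 exp (-2) ≤ 2.17`), weights `2k`,
  `2 k * 1.09 exp (-0.6375 k) ≤ 2.18 * 2.7 * exp (-k/2)` (`k exp (-0.1375 k) ≤ 1/(0.1375 e) ≤ 2.7`), `k ≥ 15 + 12 (n-1)`: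
  sum `≤ 5.9 exp (-7.5)/(1 - exp (-6)) ≤ 0.0034`.  Total `≤ 0.1492 ≤ 0.15`.
-/

open Set Filter Topology

namespace Pool.Agent.Lib.EPB

namespace UbEAux

/-- `x² exp (-k x)` -/
noncomputable def ps (k x : ℝ) : ℝ := x ^ 2 * Real.exp (-(k * x))

theorem ps_pe (k : ℝ) : ps k = pe 1 0 0 k := by
  funext x
  simp [ps, pe]

theorem ps_deriv (k x : ℝ) : HasDerivAt (ps k) (pe (-k) 2 0 k x) x := by
  have h := pe_deriv 1 0 0 k x
  rw [ps_pe]
  simpa using h

theorem Dn_ps {k : ℝ} (hk : 3 ≤ k) : Dn (51 / 40) (ps k) := by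
  rw [ps_pe]
  refine Dn_pe1 (by linarith) (fun x hx => ?_)
  have h1 : 153 / 40 ≤ k * x := by nlinarith
  have h2 : k ^ 2 * (1 * x ^ 2 + 0 * x + 0) - 2 * k * (2 * 1 * x + 0) + 2 * 1 =
      (k * x - 153 / 40) * (k * x - 7 / 40) + (2 - 153 / 40 * (7 / 40)) := by ring
  rw [h2]
  have h3 : 0 ≤ (k * x - 153 / 40) * (k * x - 7 / 40) := mul_nonneg (by linarith) (by linarith)
  norm_num at h3 ⊢
  linarith

/-- the second difference from a bound for the second derivative -/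
theorem J_ps_le {k M a b c : ℝ} (hab : a < b) (hbc : b < c)
    (h : ∀ x, a ≤ x → (k ^ 2 * x ^ 2 - 4 * k * x + 2) * Real.exp (-(k * x)) ≤ 2 * M) :
    J a b c (ps k) ≤ (b - a) * (c - b) * (c - a) * M := by
  have hc : ConvexOn ℝ (Ici a) (fun x => M * x ^ 2 - ps k x) := by
    refine convexOn_of_hasDerivWithinAt2_nonneg (convex_Ici a)
      (f' := fun x => M * (2 * x) - pe (-k) 2 0 k x)
      (f'' := fun x => M * 2 - pe (-k * -k) (2 * (-k) - k * 2) (2 - k * 0) k x) ?_ ?_ ?_ ?_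
    · exact fun x _ => ((((hasDerivAt_pow 2 x).const_mul M).sub
        (ps_deriv k x)).continuousAt.continuousWithinAt)
    · intro x _
      have h1 := ((hasDerivAt_pow 2 x).const_mul M).sub (ps_deriv k x)
      refine HasDerivAt.hasDerivWithinAt ?_
      convert! h1 using 1
      simp
    · intro x _
      have h1 := (((hasDerivAt_id x).const_mul 2).const_mul M).sub (pe_deriv (-k) 2 0 k x)
      refine HasDerivAt.hasDerivWithinAt ?_
      convert! h1 using 1
      simp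
    · intro x hx
      rw [interior_Ici] at hx
      have h1 := h x (le_of_lt hx)
      unfold pe
      have e : (-k * -k * x ^ 2 + (2 * (-k) - k * 2) * x + (2 - k * 0)) =
        k ^ 2 * x ^ 2 - 4 * k * x + 2 := by ring
      rw [e]
      linarith
  have h1 := J_nonneg le_rfl hab hbc hc
  rw [J_sub, J_mul, J_sq] at h1
  linarith

theorem J_hasSum {a b c : ℝ} {g : ℝ → ℝ} {F : ℕ → ℝ → ℝ}
    (ha : HasSum (fun n => F n a) (g a)) (hb : HasSum (fun n => F n b) (g b))
    (hc : HasSum (fun n => F n c) (g c)) : HasSum (fun n => J a b c (F n)) (J a b c g) := by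
  unfold J
  exact ((ha.mul_left (c - b)).sub (hb.mul_left (c - a))).add (hc.mul_left (b - a))

/-- the exponents of `g1` -/
noncomputable def kA (n : ℕ) : ℝ := 4 * ((n : ℝ) + 1) ^ 2
/-- the exponents of `g2` -/
noncomputable def kB (n : ℕ) : ℝ := 4 * ((n : ℝ) + 1) ^ 2 - 1

theorem kA_low (n : ℕ) : 1 + 3 * (n : ℝ) ≤ kA n := by
  unfold kA
  have : (0 : ℝ) ≤ n := Nat.cast_nonneg n
  nlinarith

theorem kB_low (n : ℕ) : 1 + 3 * (n : ℝ) ≤ kB n := by
  unfold kB
  have : (0 : ℝ) ≤ n := Nat.cast_nonneg n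
  nlinarith

theorem kB_three (n : ℕ) : 3 ≤ kB n := by
  unfold kB
  have : (0 : ℝ) ≤ n := Nat.cast_nonneg n
  nlinarith

theorem kA_three (n : ℕ) : 3 ≤ kA n := by
  unfold kA
  have : (0 : ℝ) ≤ n := Nat.cast_nonneg n
  nlinarith

theorem sum_ps {k : ℕ → ℝ} (hk : ∀ n : ℕ, 1 + 3 * (n : ℝ) ≤ k n) {x : ℝ} (hx : 0 < x) :
    Summable fun n : ℕ => 2 * k n * ps (k n) x := by
  refine ((DirAux.sum_kexp hk hx).mul_left (2 * x ^ 2)).congr fun n => ?_
  unfold ps
  ring

theorem g1_sum {x : ℝ} (hx : 0 < x) : HasSum (fun n => 2 * kA n * ps (kA n) x) (g1 x) := by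
  have h := (sum_ps kA_low hx).hasSum
  convert! h using 1
  unfold g1 Tk1
  rw [← tsum_mul_left, ← tsum_mul_left]
  refine tsum_congr fun n => ?_
  unfold kI kA ps
  have e : -((((n : ℝ) + 1) ^ 2) * (4 * x)) = -(4 * ((n : ℝ) + 1) ^ 2 * x) := by ring
  rw [e]
  ring

theorem g2_sum {x : ℝ} (hx : 0 < x) : HasSum (fun n => 2 * kB n * ps (kB n) x) (g2 x) := by
  have h := (sum_ps kB_low hx).hasSum
  convert! h using 1
  have s1 := SerAux.summable_k1 SerAux.kI_low SerAux.kI_up (x := 4 * x) (by positivity)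
  have s0 := SerAux.summable_k0 SerAux.kI_low SerAux.kI_up (x := 4 * x) (by positivity)
  have s1' : Summable fun n : ℕ => 4 * (2 * kI n * Real.exp (-(kI n * (4 * x)))) := by
    refine (s1.mul_left 8).congr fun n => ?_
    ring
  have s0' : Summable fun n : ℕ => 2 * Real.exp (-(kI n * (4 * x))) := s0.mul_left 2
  unfold g2 Tk1 Tk
  rw [← tsum_mul_left, ← s1'.tsum_sub s0', ← tsum_mul_left]
  refine tsum_congr fun n => ?_
  unfold kI kB ps
  have e : Real.exp (-((4 * ((n : ℝ) + 1) ^ 2 - 1) * x)) =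
      Real.exp x * Real.exp (-(((n : ℝ) + 1) ^ 2 * (4 * x))) := by
    rw [← Real.exp_add]
    congr 1
    ring
  rw [e]
  ring

theorem exp51 : (150 : ℝ) ≤ Real.exp (51 / 10) := by
  have := Real.sum_le_exp_of_nonneg (x := 51 / 10) (by norm_num) 14
  refine le_trans ?_ this
  norm_num [Finset.sum_range_succ, Nat.factorial]

theorem exp4732 : (1134 / 10 : ℝ) ≤ Real.exp (4732 / 1000) := by
  have := Real.sum_le_exp_of_nonneg (x := 4732 / 1000) (by norm_num) 18
  refine le_trans ?_ this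
  norm_num [Finset.sum_range_succ, Nat.factorial]

theorem exp75 : (1800 : ℝ) ≤ Real.exp (15 / 2) := by
  have := Real.sum_le_exp_of_nonneg (x := 15 / 2) (by norm_num) 22
  refine le_trans ?_ this
  norm_num [Finset.sum_range_succ, Nat.factorial]

theorem exp6 : (400 : ℝ) ≤ Real.exp 6 := by
  have := Real.sum_le_exp_of_nonneg (x := 6) (by norm_num) 16
  refine le_trans ?_ this
  norm_num [Finset.sum_range_succ, Nat.factorial]

theorem exp_neg_le {y r : ℝ} (hr : 0 < r) (h : r ≤ Real.exp y) : Real.exp (-y) ≤ 1 / r := by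
  rw [Real.exp_neg, one_div]
  exact inv_anti₀ hr h

/-- the comparison with `ps 4` -/
theorem cmp_ps {k r a b c : ℝ} (ha : 51 / 40 ≤ a) (hab : a < b) (hbc : b < c) (hk : 4 ≤ k)
    (hr : k ^ 2 * Real.exp (-(51 / 40 * (k - 4))) ≤ r * (23 / 5)) :
    J a b c (ps k) ≤ r * J a b c (ps 4) := by
  have hD : Dn (51 / 40) (fun x => pe r 0 0 4 x + pe (-1) 0 0 k x) := by
    refine Dn_pe (by norm_num) (by linarith) (fun x hx => ?_)
    unfold pe2
    have e : Real.exp (-(k * x)) = Real.exp (-(4 * x)) * Real.exp (-((k - 4) * x)) := by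
      rw [← Real.exp_add]
      congr 1
      ring
    have h1 : Real.exp (-((k - 4) * x)) ≤ Real.exp (-(51 / 40 * (k - 4))) := by
      apply Real.exp_le_exp.mpr
      have := mul_le_mul_of_nonneg_left hx (by linarith : 0 ≤ k - 4)
      linarith
    have hr0 : 0 ≤ r := by
      have h0 : 0 ≤ k ^ 2 * Real.exp (-(51 / 40 * (k - 4))) := by positivity
      linarith
    have h2 : (k ^ 2 * x ^ 2 - 4 * k * x + 2) * Real.exp (-((k - 4) * x)) ≤
        r * (16 * x ^ 2 - 16 * x + 2) := by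
      have a1 : k ^ 2 * x ^ 2 - 4 * k * x + 2 ≤ k ^ 2 * x ^ 2 := by nlinarith
      have a2 : 23 / 5 * x ^ 2 ≤ 16 * x ^ 2 - 16 * x + 2 := by nlinarith
      calc (k ^ 2 * x ^ 2 - 4 * k * x + 2) * Real.exp (-((k - 4) * x)) ≤
            (k ^ 2 * x ^ 2) * Real.exp (-((k - 4) * x)) :=
            mul_le_mul_of_nonneg_right a1 (Real.exp_pos _).le
        _ ≤ (k ^ 2 * x ^ 2) * Real.exp (-(51 / 40 * (k - 4))) :=
            mul_le_mul_of_nonneg_left h1 (by positivity)
        _ = (k ^ 2 * Real.exp (-(51 / 40 * (k - 4)))) * x ^ 2 := by ring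
        _ ≤ (r * (23 / 5)) * x ^ 2 := mul_le_mul_of_nonneg_right hr (sq_nonneg x)
        _ = r * (23 / 5 * x ^ 2) := by ring
        _ ≤ r * (16 * x ^ 2 - 16 * x + 2) := mul_le_mul_of_nonneg_left a2 hr0
    have h3 := mul_le_mul_of_nonneg_left h2 (Real.exp_pos (-(4 * x))).le
    rw [e]
    nlinarith
  have h := hD.J_nonneg ha hab hbc
  have e : J a b c (fun x => pe r 0 0 4 x + pe (-1) 0 0 k x) =
      r * J a b c (ps 4) - J a b c (ps k) := by
    unfold J pe ps
    ring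
  rw [e] at h
  linarith

end UbEAux

open UbEAux

theorem Dn_g1 : Dn (51 / 40) g1 := by
  have h := Dn.tsum (L := 51 / 40) (F := fun n x => 2 * kA n * ps (kA n) x)
    (fun n => (Dn_ps (kA_three n)).smul (by linarith [kA_three n]))
    (fun x hx => sum_ps kA_low (by linarith))
  exact h.congr fun x hx => (g1_sum (by linarith)).tsum_eq.symm

theorem Dn_g2 : Dn (51 / 40) g2 := by
  have h := Dn.tsum (L := 51 / 40) (F := fun n x => 2 * kB n * ps (kB n) x)
    (fun n => (Dn_ps (kB_three n)).smul (by linarith [kB_three n]))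
    (fun x hx => sum_ps kB_low (by linarith))
  exact h.congr fun x hx => (g2_sum (by linarith)).tsum_eq.symm

theorem J_psi4a {a b c : ℝ} (ha : 51 / 40 ≤ a) (hab : a < b) (hbc : b < c) :
    J a b c (fun x => x ^ 2 * Real.exp (-(4 * x))) ≤
      (b - a) * (c - b) * (c - a) * ((8 * a ^ 2 - 8 * a + 1) * Real.exp (-(4 * a))) := by
  refine J_ps_le (k := 4) hab hbc (fun x hx => ?_)
  have hanti : AntitoneOn (pe 8 (-8) 1 4) (Ici (51 / 40)) := by
    refine antitoneOn_of_deriv_nonpos (convex_Ici _) ?_ ?_ ?_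
    · exact fun x _ => (pe_deriv 8 (-8) 1 4 x).continuousAt.continuousWithinAt
    · exact fun x _ => (pe_deriv 8 (-8) 1 4 x).differentiableAt.differentiableWithinAt
    · intro x hx
      rw [interior_Ici] at hx
      rw [(pe_deriv 8 (-8) 1 4 x).deriv]
      unfold pe
      have hx' : 51 / 40 < x := hx
      have : -4 * 8 * x ^ 2 + (2 * 8 - 4 * -8) * x + (-8 - 4 * 1) ≤ 0 := by nlinarith
      exact mul_nonpos_of_nonpos_of_nonneg this (Real.exp_pos _).le
  have h := hanti (show a ∈ Ici (51 / 40) from ha) (show x ∈ Ici (51 / 40) from ha.trans hx) hx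
  unfold pe at h
  have e : (4 ^ 2 * x ^ 2 - 4 * 4 * x + 2) * Real.exp (-(4 * x)) =
      2 * ((8 * x ^ 2 + -8 * x + 1) * Real.exp (-(4 * x))) := by ring
  rw [e]
  have e2 : 2 * ((8 * a ^ 2 - 8 * a + 1) * Real.exp (-(4 * a))) =
      2 * ((8 * a ^ 2 + -8 * a + 1) * Real.exp (-(4 * a))) := by ring
  rw [e2]
  linarith

theorem J_psi4b {a b c : ℝ} (ha : 51 / 40 ≤ a) (hab : a < b) (hbc : b < c) :
    J a b c (fun x => x ^ 2 * Real.exp (-(4 * x))) ≤
      (b - a) * (c - b) * ((4 * a ^ 2 - 2 * a) * Real.exp (-(4 * a))) := by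
  have hD := Dn_ps (k := 4) (by norm_num)
  have hb : b ∈ Ici (51 / 40 : ℝ) := by show 51 / 40 ≤ b; linarith
  have hc : c ∈ Ici (51 / 40 : ℝ) := by show 51 / 40 ≤ c; linarith
  have h1 : ps 4 c ≤ ps 4 b := hD.anti hb hc hbc.le
  have h2 := hD.cvx.le_slope_of_hasDerivAt (show a ∈ Ici (51 / 40 : ℝ) from ha) hb hab
    (ps_deriv 4 a)
  rw [slope_def_field, le_div_iff₀ (by linarith)] at h2
  unfold pe at h2
  show J a b c (ps 4) ≤ _
  have e : J a b c (ps 4) = (c - b) * (ps 4 a - ps 4 b) - (b - a) * (ps 4 b - ps 4 c) := by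
    unfold J
    ring
  rw [e]
  have h3 : 0 ≤ (b - a) * (ps 4 b - ps 4 c) := mul_nonneg (by linarith) (by linarith)
  have h4 : (c - b) * (ps 4 a - ps 4 b) ≤
      (c - b) * ((b - a) * ((4 * a ^ 2 - 2 * a) * Real.exp (-(4 * a)))) := by
    apply mul_le_mul_of_nonneg_left _ (by linarith)
    linarith
  linarith

theorem J_g1 {a b c : ℝ} (ha : 51 / 40 ≤ a) (hab : a < b) (hbc : b < c) :
    J a b c g1 ≤ (8 + 1 / 1000) * J a b c (fun x => x ^ 2 * Real.exp (-(4 * x))) := by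
  have hJ0 : 0 ≤ J a b c (ps 4) := (Dn_ps (by norm_num)).J_nonneg ha hab hbc
  have hs := J_hasSum (F := fun n x => 2 * kA n * ps (kA n) x) (g1_sum (x := a) (by linarith))
    (g1_sum (x := b) (by linarith)) (g1_sum (x := c) (by linarith))
  have hs' : HasSum (fun n => 2 * kA n * J a b c (ps (kA n))) (J a b c g1) := by
    refine SerAux.hasSum_congr hs (fun n => ?_)
    unfold J
    ring
  -- the tail
  have h1 := (hasSum_nat_add_iff' 1).mpr hs'
  have e0 : kA 0 = 4 := by unfold kA; norm_num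
  simp only [Finset.range_one, Finset.sum_singleton, e0] at h1
  obtain ⟨ρ, hρ⟩ : ∃ ρ : ℝ, ρ = Real.exp (-(261 / 20)) := ⟨_, rfl⟩
  have hρ0 : 0 < ρ := by rw [hρ]; exact Real.exp_pos _
  have hρ1 : ρ ≤ 1 / 400 := by
    rw [hρ]
    exact (Real.exp_le_exp.mpr (by norm_num)).trans (exp_neg_le (by norm_num) exp6)
  have hgeo := (hasSum_geometric_of_lt_one hρ0.le (by linarith : ρ < 1)).mul_left
    (8 * (1024 / (23 / 5)) * Real.exp (-(153 / 10)) * J a b c (ps 4))
  have hle := hasSum_le (fun m => ?_) h1 hgeo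
  · have h5 : Real.exp (-(153 / 10)) ≤ 1 / 3375000 := by
      apply exp_neg_le (by norm_num)
      have e : (153 / 10 : ℝ) = ((3 : ℕ) : ℝ) * (51 / 10) := by norm_num
      rw [e, Real.exp_nat_mul]
      have := pow_le_pow_left₀ (by norm_num) exp51 3
      norm_num at this ⊢
      exact this
    have h6 : (1 - ρ)⁻¹ ≤ 400 / 399 := by
      rw [inv_le_comm₀ (by linarith) (by norm_num)]
      linarith
    have h7 : 8 * (1024 / (23 / 5)) * Real.exp (-(153 / 10)) * (1 - ρ)⁻¹ ≤ 1 / 1000 := by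
      calc 8 * (1024 / (23 / 5)) * Real.exp (-(153 / 10)) * (1 - ρ)⁻¹ ≤
            8 * (1024 / (23 / 5)) * (1 / 3375000) * (400 / 399) := by
            apply mul_le_mul _ h6 (inv_nonneg.mpr (by linarith)) (by norm_num)
            exact mul_le_mul_of_nonneg_left h5 (by norm_num)
        _ ≤ 1 / 1000 := by norm_num
    have h8 := mul_le_mul_of_nonneg_right h7 hJ0
    show J a b c g1 ≤ (8 + 1 / 1000) * J a b c (ps 4)
    linarith
  · -- the terms
    obtain ⟨N, hN⟩ : ∃ N : ℝ, N = ((m : ℝ) + 2) ^ 2 - 1 := ⟨_, rfl⟩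
    have hm : (0 : ℝ) ≤ m := Nat.cast_nonneg m
    have hN3 : 3 + 3 * (m : ℝ) ≤ N := by rw [hN]; nlinarith
    have ek : kA (m + 1) = 4 * (1 + N) := by
      unfold kA
      rw [hN]
      push_cast
      ring
    rw [ek]
    have hcmp := cmp_ps (k := 4 * (1 + N)) (r := 16 * (1 + N) ^ 2 / (23 / 5) *
      Real.exp (-(51 / 10 * N))) ha hab hbc (by linarith) (by
        apply le_of_eq
        have e : -(51 / 40 * (4 * (1 + N) - 4)) = -(51 / 10 * N) := by ring
        rw [e]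
        ring)
    have hk0 : 0 ≤ 2 * (4 * (1 + N)) := by linarith
    refine (mul_le_mul_of_nonneg_left hcmp hk0).trans ?_
    rw [← mul_assoc]
    have e3 : 8 * (1024 / (23 / 5)) * Real.exp (-(153 / 10)) * J a b c (ps 4) * ρ ^ m =
        (8 * (1024 / (23 / 5)) * Real.exp (-(153 / 10)) * ρ ^ m) * J a b c (ps 4) := by ring
    rw [e3]
    apply mul_le_mul_of_nonneg_right _ hJ0
    have hexp : (1 + N) ^ 3 ≤ 64 * Real.exp (3 / 4 * (N - 3)) := by
      have h1 : (1 + N) / 4 ≤ Real.exp ((N - 3) / 4) := by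
        linarith [Real.add_one_le_exp ((N - 3) / 4)]
      have h2 := pow_le_pow_left₀ (by linarith : 0 ≤ (1 + N) / 4) h1 3
      rw [← Real.exp_nat_mul] at h2
      have e : ((3 : ℕ) : ℝ) * ((N - 3) / 4) = 3 / 4 * (N - 3) := by push_cast; ring
      rw [e] at h2
      linarith
    have hρm : Real.exp (3 / 4 * (N - 3)) * Real.exp (-(51 / 10 * N)) ≤
        Real.exp (-(153 / 10)) * ρ ^ m := by
      rw [hρ, ← Real.exp_nat_mul, ← Real.exp_add, ← Real.exp_add]
      apply Real.exp_le_exp.mpr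
      linarith
    calc 2 * (4 * (1 + N)) * (16 * (1 + N) ^ 2 / (23 / 5) * Real.exp (-(51 / 10 * N))) =
          8 * (16 / (23 / 5)) * ((1 + N) ^ 3 * Real.exp (-(51 / 10 * N))) := by ring
      _ ≤ 8 * (16 / (23 / 5)) * ((64 * Real.exp (3 / 4 * (N - 3))) * Real.exp (-(51 / 10 * N))) := by
          apply mul_le_mul_of_nonneg_left _ (by norm_num)
          exact mul_le_mul_of_nonneg_right hexp (Real.exp_pos _).le
      _ = 8 * (1024 / (23 / 5)) * (Real.exp (3 / 4 * (N - 3)) * Real.exp (-(51 / 10 * N))) := by ring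
      _ ≤ 8 * (1024 / (23 / 5)) * (Real.exp (-(153 / 10)) * ρ ^ m) :=
          mul_le_mul_of_nonneg_left hρm (by norm_num)
      _ = 8 * (1024 / (23 / 5)) * Real.exp (-(153 / 10)) * ρ ^ m := by ring

theorem J_g2 {a b c : ℝ} (ha : 51 / 40 ≤ a) (hab : a < b) (hbc : b < c) :
    J a b c g2 ≤ (b - a) * (c - b) * (c - a) * (3 / 20) := by
  obtain ⟨V, hV⟩ : ∃ V : ℝ, V = (b - a) * (c - b) * (c - a) := ⟨_, rfl⟩
  have hV0 : 0 ≤ V := by
    rw [hV]
    exact mul_nonneg (mul_nonneg (by linarith) (by linarith)) (by linarith)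
  rw [← hV]
  have hs := J_hasSum (F := fun n x => 2 * kB n * ps (kB n) x) (g2_sum (x := a) (by linarith))
    (g2_sum (x := b) (by linarith)) (g2_sum (x := c) (by linarith))
  have hs' : HasSum (fun n => 2 * kB n * J a b c (ps (kB n))) (J a b c g2) := by
    refine SerAux.hasSum_congr hs (fun n => ?_)
    unfold J
    ring
  have h1 := (hasSum_nat_add_iff' 1).mpr hs'
  have e0 : kB 0 = 3 := by unfold kB; norm_num
  simp only [Finset.range_one, Finset.sum_singleton, e0] at h1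
  -- the first term
  have hfirst : J a b c (ps 3) ≤ V * (243 / 10000) := by
    rw [hV]
    refine J_ps_le hab hbc (fun x hx => ?_)
    obtain ⟨s, hs⟩ : ∃ s : ℝ, s = 3 * x - 4732 / 1000 := ⟨_, rfl⟩
    have hs1 : -(907 / 1000) ≤ s := by rw [hs]; linarith
    have hx3 : 3 * x = 4732 / 1000 + s := by rw [hs]; ring
    have h2 : (1 + s / 2) ^ 2 ≤ Real.exp s := by
      have h3 : 1 + s / 2 ≤ Real.exp (s / 2) := by linarith [Real.add_one_le_exp (s / 2)]
      have h4 := pow_le_pow_left₀ (by linarith : 0 ≤ 1 + s / 2) h3 2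
      rw [← Real.exp_nat_mul] at h4
      have e : ((2 : ℕ) : ℝ) * (s / 2) = s := by push_cast; ring
      rw [e] at h4
      exact h4
    have h5 : 1134 / 10 * (1 + s / 2) ^ 2 ≤ Real.exp (3 * x) := by
      rw [hx3, Real.exp_add]
      exact mul_le_mul exp4732 h2 (sq_nonneg _) (Real.exp_pos _).le
    have h6 : 3 ^ 2 * x ^ 2 - 4 * 3 * x + 2 ≤ 2 * (243 / 10000) * Real.exp (3 * x) := by
      have e : (3 : ℝ) ^ 2 * x ^ 2 - 4 * 3 * x + 2 = (3 * x) ^ 2 - 4 * (3 * x) + 2 := by ring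
      rw [e, hx3]
      rw [hx3] at h5
      nlinarith [sq_nonneg (s + 7 / 100)]
    rw [Real.exp_neg, ← div_eq_mul_inv, div_le_iff₀ (Real.exp_pos _)]
    exact h6
  -- the tail
  obtain ⟨ρ, hρ⟩ : ∃ ρ : ℝ, ρ = Real.exp (-6) := ⟨_, rfl⟩
  have hρ0 : 0 < ρ := by rw [hρ]; exact Real.exp_pos _
  have hρ1 : ρ ≤ 1 / 400 := by
    rw [hρ]
    exact exp_neg_le (by norm_num) exp6
  have hgeo := (hasSum_geometric_of_lt_one hρ0.le (by linarith : ρ < 1)).mul_left
    (59 / 10 * Real.exp (-(15 / 2)) * V)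
  have hle := hasSum_le (fun m => ?_) h1 hgeo
  · have h5 : Real.exp (-(15 / 2)) ≤ 1 / 1800 := exp_neg_le (by norm_num) exp75
    have h6 : (1 - ρ)⁻¹ ≤ 400 / 399 := by
      rw [inv_le_comm₀ (by linarith) (by norm_num)]
      linarith
    have h7 : 59 / 10 * Real.exp (-(15 / 2)) * (1 - ρ)⁻¹ ≤ 34 / 10000 := by
      calc 59 / 10 * Real.exp (-(15 / 2)) * (1 - ρ)⁻¹ ≤
            59 / 10 * (1 / 1800) * (400 / 399) := by
            apply mul_le_mul _ h6 (inv_nonneg.mpr (by linarith)) (by norm_num)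
            exact mul_le_mul_of_nonneg_left h5 (by norm_num)
        _ ≤ 34 / 10000 := by norm_num
    have h8 := mul_le_mul_of_nonneg_right h7 hV0
    linarith
  · have hm : (0 : ℝ) ≤ m := Nat.cast_nonneg m
    obtain ⟨k, hk⟩ : ∃ k : ℝ, k = kB (m + 1) := ⟨_, rfl⟩
    rw [← hk]
    have hk15 : 15 + 12 * (m : ℝ) ≤ k := by
      rw [hk]
      unfold kB
      push_cast
      nlinarith
    have hJ : J a b c (ps k) ≤ V * (109 / 100 * Real.exp (-(51 / 80 * k))) := by
      rw [hV]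
      refine J_ps_le hab hbc (fun x hx => ?_)
      have hx1 : 51 / 40 ≤ x := ha.trans hx
      have hkx : 51 / 40 * k ≤ k * x := by nlinarith
      have a1 : k ^ 2 * x ^ 2 - 4 * k * x + 2 ≤ (k * x) ^ 2 := by nlinarith
      have a2 : (k * x) ^ 2 ≤ 16 * Real.exp (k * x / 2 - 2) := by
        have h3 : k * x / 4 ≤ Real.exp (k * x / 4 - 1) := by
          linarith [Real.add_one_le_exp (k * x / 4 - 1)]
        have h4 := pow_le_pow_left₀ (by nlinarith : 0 ≤ k * x / 4) h3 2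
        rw [← Real.exp_nat_mul] at h4
        have e : ((2 : ℕ) : ℝ) * (k * x / 4 - 1) = k * x / 2 - 2 := by push_cast; ring
        rw [e] at h4
        nlinarith
      have a3 : Real.exp (-2) ≤ 218 / 1600 := by
        have h3 : (738 / 100 : ℝ) ≤ Real.exp 2 := by
          have := Real.sum_le_exp_of_nonneg (x := 2) (by norm_num) 9
          refine le_trans ?_ this
          norm_num [Finset.sum_range_succ, Nat.factorial]
        refine (exp_neg_le (by norm_num) h3).trans ?_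
        norm_num
      have a4 : Real.exp (-(k * x / 2)) ≤ Real.exp (-(51 / 80 * k)) := by
        apply Real.exp_le_exp.mpr
        linarith
      calc (k ^ 2 * x ^ 2 - 4 * k * x + 2) * Real.exp (-(k * x)) ≤
            (16 * Real.exp (k * x / 2 - 2)) * Real.exp (-(k * x)) :=
            mul_le_mul_of_nonneg_right (a1.trans a2) (Real.exp_pos _).le
        _ = 16 * (Real.exp (-2) * Real.exp (-(k * x / 2))) := by
            rw [mul_assoc, ← Real.exp_add, ← Real.exp_add]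
            congr 2
            ring
        _ ≤ 16 * (218 / 1600 * Real.exp (-(51 / 80 * k))) := by
            apply mul_le_mul_of_nonneg_left _ (by norm_num)
            exact mul_le_mul a3 a4 (Real.exp_pos _).le (by norm_num)
        _ = 2 * (109 / 100 * Real.exp (-(51 / 80 * k))) := by ring
    have hk0 : 0 ≤ 2 * k := by linarith
    refine (mul_le_mul_of_nonneg_left hJ hk0).trans ?_
    have h9 : k ≤ 27 / 10 * Real.exp (11 / 80 * k) := by
      have h3 : 11 / 80 * k ≤ Real.exp (11 / 80 * k - 1) := by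
        linarith [Real.add_one_le_exp (11 / 80 * k - 1)]
      have h4 : Real.exp (11 / 80 * k - 1) = Real.exp (11 / 80 * k) * Real.exp (-1) := by
        rw [← Real.exp_add]
        congr 1
      have h5 : Real.exp (-1) ≤ 297 / 800 := by
        have h6 : (27 / 10 : ℝ) ≤ Real.exp 1 := by
          have := Real.exp_one_gt_d9
          linarith
        refine (exp_neg_le (by norm_num) h6).trans ?_
        norm_num
      rw [h4] at h3
      have h7 := mul_le_mul_of_nonneg_left h5 (Real.exp_pos (11 / 80 * k)).le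
      linarith
    have h10 : Real.exp (11 / 80 * k) * Real.exp (-(51 / 80 * k)) ≤
        Real.exp (-(15 / 2)) * ρ ^ m := by
      rw [hρ, ← Real.exp_nat_mul, ← Real.exp_add, ← Real.exp_add]
      apply Real.exp_le_exp.mpr
      linarith
    calc 2 * k * (V * (109 / 100 * Real.exp (-(51 / 80 * k)))) =
          (218 / 100 * V) * (k * Real.exp (-(51 / 80 * k))) := by ring
      _ ≤ (218 / 100 * V) * ((27 / 10 * Real.exp (11 / 80 * k)) * Real.exp (-(51 / 80 * k))) := by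
          apply mul_le_mul_of_nonneg_left _ (by positivity)
          exact mul_le_mul_of_nonneg_right h9 (Real.exp_pos _).le
      _ = (5886 / 1000 * V) * (Real.exp (11 / 80 * k) * Real.exp (-(51 / 80 * k))) := by ring
      _ ≤ (5886 / 1000 * V) * (Real.exp (-(15 / 2)) * ρ ^ m) :=
          mul_le_mul_of_nonneg_left h10 (by positivity)
      _ ≤ 59 / 10 * Real.exp (-(15 / 2)) * V * ρ ^ m := by
          have h11 : 0 ≤ V * (Real.exp (-(15 / 2)) * ρ ^ m) := by positivity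
          linarith

end Pool.Agent.Lib.EPB
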