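import Pool.Agent.Lib.EPB.SmD
import Pool.Agent.Lib.EPB.Dir

/-!
# The dual side: upper bounds, half-integral part

`g3 x = x² exp x τ = ∑ x² exp (-(4 (n+1)(n+2) - 1) x)`, `g4 x = x² (O1 - O0) = ∑ 8 (n+1)(n+2) x² exp (-(4 (n+1)(n+2) + 1) x)`.
Write `ψ_k x = x² exp (-(k x))`, `ψ_k'' = (k² x² - 4 k x + 2) exp (-(k x))`, `V = (b-a)(c-b)(c-a) = J a b c (x²)` (`J_sq`).
Pattern: `DirAux` in `EPB.Dir` (`Dn_pe1`, `Dn_pe`, `Dn.tsum`, `Dn.congr`, `Dn.J_nonneg`; `J_nonneg` for functions which are only convex, e.g.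
`M x² - ψ_k`, with `convexOn_of_hasDerivWithinAt2_nonneg` on `Ici a` and `pe_deriv`).
PROOF.
* `Dn_g3`, `Dn_g4`: `ψ_k` is `Dn (51/40)` for `k ≥ 3`.
* `J_g3`: `k = 4 (n+1)(n+2) - 1 ≥ 7 + 12 n`: `M_k x² - ψ_k` is convex on `[51/40, ∞)` for `M_k = 1.09 exp (-(51/80) k)`
  (`(k x)²/2 exp (-(k x)) ≤ 1.09 exp (-k x/2)` since `y² exp (-y/2) ≤ 16 exp (-2) ≤ 2.17`): sum `≤ 1.09 exp (-4.4625)/(1 - exp (-7.65)) ≤ 0.0127`.
* `J_g4`: the term `n = 0` is `16 ψ_9`, and `M x² - ψ_9` is convex on `[a, ∞)` for `M = (81a²-36a+2)/2 exp (-9a)` (the function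
  `(81x²-36x+2) exp (-9x)` is decreasing: `y² - 6y + 6 > 0` for `y = 9 x ≥ 11.4`): `16 M = 8 (81a²-36a+2) exp (-9a)`.  The terms with
  `k = 4 (n+1)(n+2) + 1 ≥ 25`: `r ψ_9 - ψ_k` is `Dn (51/40)` for `r = k²/53 exp (-(51/40)(k-9))` (`81x²-36x+2 ≥ 53 x²`), weight
  `8 (n+1)(n+2) ≤ 2 k`; the sum of the weights times `r` is tiny (`≤ 1/100`, first term `48 * 11.8 * exp (-20.4) = 8e-7`).
-/

open Set Filter Topology

namespace Pool.Agent.Lib.EPB

namespace UbOAux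

/-- the exponents of `g3` -/
noncomputable def k3 (n : ℕ) : ℝ := 4 * kH n - 1
/-- the exponents of `g4` -/
noncomputable def k4 (n : ℕ) : ℝ := 4 * kH n + 1

theorem k3_ge (n : ℕ) : 7 + 12 * (n : ℝ) ≤ k3 n := by
  have hn : (0 : ℝ) ≤ n := Nat.cast_nonneg n
  unfold k3 kH
  nlinarith

theorem k4_ge (n : ℕ) : 9 + 12 * (n : ℝ) ≤ k4 n := by
  have hn : (0 : ℝ) ≤ n := Nat.cast_nonneg n
  unfold k4 kH
  nlinarith

theorem k4_succ_ge (n : ℕ) : 25 + 20 * (n : ℝ) ≤ k4 (n + 1) := by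
  have hn : (0 : ℝ) ≤ n := Nat.cast_nonneg n
  unfold k4 kH
  push_cast
  nlinarith

theorem k3_dir (n : ℕ) : 1 + 3 * (n : ℝ) ≤ k3 n := by
  have hn : (0 : ℝ) ≤ n := Nat.cast_nonneg n
  linarith [k3_ge n]

theorem k4_dir (n : ℕ) : 1 + 3 * (n : ℝ) ≤ k4 n := by
  have hn : (0 : ℝ) ≤ n := Nat.cast_nonneg n
  linarith [k4_ge n]

theorem Dn_psi {k : ℝ} (hk : 3 ≤ k) : Dn (51 / 40) (fun x => x ^ 2 * Real.exp (-(k * x))) := by
  have := Dn_pe1 (L := 51 / 40) (α := 1) (β := 0) (γ := 0) (k := k) (by linarith)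
    (fun x hx => by
      have hkx : 153 / 40 ≤ k * x := by nlinarith
      nlinarith)
  exact this.congr fun x _ => by simp only [pe]; ring

/-- a quadratic function minus `ψ_k` is convex if the second derivative is nonnegative -/
theorem cvx_sq_sub {L k M : ℝ} (h : ∀ x, L ≤ x → pe2 1 0 0 k x ≤ 2 * M) :
    ConvexOn ℝ (Ici L) (fun x => M * x ^ 2 - x ^ 2 * Real.exp (-(k * x))) := by
  have e : (fun x : ℝ => M * x ^ 2 - x ^ 2 * Real.exp (-(k * x))) =
      fun x => M * x ^ 2 - pe 1 0 0 k x := by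
    funext x
    simp only [pe]
    ring
  rw [e]
  have hq : ∀ x : ℝ, HasDerivAt (fun x : ℝ => M * x ^ 2) (2 * M * x) x := by
    intro x
    have := ((hasDerivAt_id x).pow 2).const_mul M
    convert! this using 1
    simp
    ring
  have hl : ∀ x : ℝ, HasDerivAt (fun x : ℝ => 2 * M * x) (2 * M) x := by
    intro x
    have := (hasDerivAt_id x).const_mul (2 * M)
    convert! this using 1
    simp
  refine convexOn_of_hasDerivWithinAt2_nonneg (convex_Ici L)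
    (f' := fun x => 2 * M * x - pe (-k * 1) (2 * 1 - k * 0) (0 - k * 0) k x)
    (f'' := fun x => 2 * M - pe2 1 0 0 k x) ?_ ?_ ?_ ?_
  · exact fun x _ => ((hq x).sub (pe_deriv 1 0 0 k x)).continuousAt.continuousWithinAt
  · exact fun x _ => ((hq x).sub (pe_deriv 1 0 0 k x)).hasDerivWithinAt
  · intro x _
    have h1 := (hl x).sub (pe_deriv (-k * 1) (2 * 1 - k * 0) (0 - k * 0) k x)
    rw [pe2_eq] at h1
    exact h1.hasDerivWithinAt
  · intro x hx
    rw [interior_Ici] at hx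
    have := h x (le_of_lt hx)
    show 0 ≤ 2 * M - pe2 1 0 0 k x
    linarith

/-- `y² exp (-y) ≤ 2.18 exp (-y/2)` -/
theorem sq_exp_le {y : ℝ} (hy : 0 ≤ y) : y ^ 2 * Real.exp (-y) ≤ 109 / 50 * Real.exp (-(y / 2)) := by
  have h1 : y / 4 ≤ Real.exp (y / 4 - 1) := by linarith [Real.add_one_le_exp (y / 4 - 1)]
  have h2 : (y / 4) ^ 2 ≤ Real.exp (y / 4 - 1) ^ 2 := pow_le_pow_left₀ (by positivity) h1 2
  have h3 : Real.exp (y / 4 - 1) ^ 2 = Real.exp (-2) * Real.exp (y / 2) := by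
    rw [← Real.exp_nat_mul, ← Real.exp_add]
    congr 1
    push_cast
    ring
  have h4 : Real.exp (-2) ≤ 109 / 800 := by
    rw [Real.exp_neg, inv_le_comm₀ (Real.exp_pos _) (by norm_num)]
    have := Real.sum_le_exp_of_nonneg (x := 2) (by norm_num) 10
    refine le_trans ?_ this
    norm_num [Finset.sum_range_succ, Nat.factorial]
  have h5 : y ^ 2 ≤ 109 / 50 * Real.exp (y / 2) := by
    rw [h3] at h2
    have h6 := mul_le_mul_of_nonneg_right h4 (Real.exp_pos (y / 2)).le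
    nlinarith
  have h6 : Real.exp (y / 2) * Real.exp (-y) = Real.exp (-(y / 2)) := by
    rw [← Real.exp_add]
    congr 1
    ring
  calc y ^ 2 * Real.exp (-y) ≤ 109 / 50 * Real.exp (y / 2) * Real.exp (-y) :=
        mul_le_mul_of_nonneg_right h5 (Real.exp_pos _).le
    _ = 109 / 50 * Real.exp (-(y / 2)) := by rw [mul_assoc, h6]

theorem g3_eq (x : ℝ) : g3 x = ∑' n : ℕ, x ^ 2 * Real.exp (-(k3 n * x)) := by
  unfold g3 Tk
  rw [← tsum_mul_left]
  refine tsum_congr fun n => ?_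
  have : Real.exp (-(k3 n * x)) = Real.exp x * Real.exp (-(kH n * (4 * x))) := by
    rw [← Real.exp_add]
    unfold k3
    congr 1
    ring
  rw [this]
  ring

theorem g4_eq (x : ℝ) : g4 x = ∑' n : ℕ, 8 * kH n * (x ^ 2 * Real.exp (-(k4 n * x))) := by
  unfold g4 Tk1
  rw [← tsum_mul_left, ← tsum_mul_left]
  refine tsum_congr fun n => ?_
  have : Real.exp (-(k4 n * x)) = Real.exp (-x) * Real.exp (-(kH n * (4 * x))) := by
    rw [← Real.exp_add]
    unfold k4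
    congr 1
    ring
  rw [this]
  ring

theorem sum_g3 {x : ℝ} (hx : 0 < x) : Summable fun n : ℕ => x ^ 2 * Real.exp (-(k3 n * x)) :=
  (DirAux.sum_exp k3_dir hx).mul_left _

theorem kH_nonneg (n : ℕ) : 0 ≤ kH n := by
  unfold kH
  positivity

theorem sum_g4 {x : ℝ} (hx : 0 < x) :
    Summable fun n : ℕ => 8 * kH n * (x ^ 2 * Real.exp (-(k4 n * x))) := by
  have h1 := ((DirAux.sum_kexp k4_dir hx).mul_left (2 * x ^ 2)).sub
    ((DirAux.sum_exp k4_dir hx).mul_left (2 * x ^ 2))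
  refine h1.congr fun n => ?_
  unfold k4
  ring

/-- the constants for `g3` -/
noncomputable def m3 (n : ℕ) : ℝ := 109 / 100 * Real.exp (-(357 / 80)) * Real.exp (-(153 / 20)) ^ n

theorem pe2_le_m3 (n : ℕ) {x : ℝ} (hx : 51 / 40 ≤ x) : pe2 1 0 0 (k3 n) x ≤ 2 * m3 n := by
  have hn : (0 : ℝ) ≤ n := Nat.cast_nonneg n
  have hk := k3_ge n
  obtain ⟨k, hkk⟩ : ∃ k, k = k3 n := ⟨_, rfl⟩
  rw [← hkk] at hk ⊢
  obtain ⟨y, hy⟩ : ∃ y, y = k * x := ⟨_, rfl⟩
  have hy1 : 51 / 40 * k ≤ y := by rw [hy]; nlinarith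
  have hy0 : 1 ≤ y := by linarith
  have h1 : pe2 1 0 0 k x = (y ^ 2 - 4 * y + 2) * Real.exp (-y) := by
    unfold pe2
    rw [hy]
    ring
  have h2 : (y ^ 2 - 4 * y + 2) * Real.exp (-y) ≤ y ^ 2 * Real.exp (-y) :=
    mul_le_mul_of_nonneg_right (by linarith) (Real.exp_pos _).le
  have h3 : Real.exp (-(y / 2)) ≤ Real.exp (-(357 / 80)) * Real.exp (-(153 / 20)) ^ n := by
    rw [← Real.exp_nat_mul, ← Real.exp_add]
    apply Real.exp_le_exp.mpr
    linarith
  rw [h1]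
  refine (h2.trans (sq_exp_le (by linarith))).trans ?_
  unfold m3
  have := mul_le_mul_of_nonneg_left h3 (by norm_num : (0 : ℝ) ≤ 109 / 50)
  linarith

theorem sum_m3 : Summable m3 := by
  unfold m3
  exact (summable_geometric_of_lt_one (Real.exp_pos _).le (exp_lt1 (by norm_num))).mul_left _

theorem tsum_m3 : ∑' n, m3 n ≤ 13 / 1000 := by
  unfold m3
  rw [tsum_mul_left, tsum_geometric_of_lt_one (Real.exp_pos _).le (exp_lt1 (by norm_num))]
  -- exp 4.4625 ≥ 86, exp 7.65 ≥ 1000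
  have h1 : (86 : ℝ) ≤ Real.exp (357 / 80) := by
    have := Real.sum_le_exp_of_nonneg (x := 357 / 80) (by norm_num) 16
    refine le_trans ?_ this
    norm_num [Finset.sum_range_succ, Nat.factorial]
  have h2 : (1000 : ℝ) ≤ Real.exp (153 / 20) := by
    have := Real.sum_le_exp_of_nonneg (x := 153 / 20) (by norm_num) 16
    refine le_trans ?_ this
    norm_num [Finset.sum_range_succ, Nat.factorial]
  have h3 : Real.exp (-(357 / 80)) ≤ 1 / 86 := by
    rw [Real.exp_neg, inv_le_comm₀ (Real.exp_pos _) (by norm_num)]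
    linarith
  have h4 : Real.exp (-(153 / 20)) ≤ 1 / 1000 := by
    rw [Real.exp_neg, inv_le_comm₀ (Real.exp_pos _) (by norm_num)]
    linarith
  have h5 : (1 - Real.exp (-(153 / 20)))⁻¹ ≤ 1000 / 999 := by
    rw [inv_le_comm₀ (by linarith) (by norm_num)]
    linarith
  have h7 : 0 ≤ (1 - Real.exp (-(153 / 20)))⁻¹ := inv_nonneg.mpr (by linarith)
  have h6 : 109 / 100 * Real.exp (-(357 / 80)) ≤ 109 / 100 * (1 / 86) :=
    mul_le_mul_of_nonneg_left h3 (by norm_num)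
  calc 109 / 100 * Real.exp (-(357 / 80)) * (1 - Real.exp (-(153 / 20)))⁻¹ ≤
        109 / 100 * (1 / 86) * (1000 / 999) := mul_le_mul h6 h5 h7 (by norm_num)
    _ ≤ 13 / 1000 := by norm_num

/-- the constants for `g4` -/
noncomputable def r4 (n : ℕ) : ℝ := 87 / 100 * Real.exp (-(22 / 5)) * Real.exp (-(11 / 2)) ^ n

theorem sum_r4 : Summable r4 := by
  unfold r4
  exact (summable_geometric_of_lt_one (Real.exp_pos _).le (exp_lt1 (by norm_num))).mul_left _

theorem tsum_r4 : ∑' n, r4 n ≤ 1 / 50 := by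
  unfold r4
  rw [tsum_mul_left, tsum_geometric_of_lt_one (Real.exp_pos _).le (exp_lt1 (by norm_num))]
  have h1 : (80 : ℝ) ≤ Real.exp (22 / 5) := by
    have := Real.sum_le_exp_of_nonneg (x := 22 / 5) (by norm_num) 16
    refine le_trans ?_ this
    norm_num [Finset.sum_range_succ, Nat.factorial]
  have h2 : (100 : ℝ) ≤ Real.exp (11 / 2) := by
    have := Real.sum_le_exp_of_nonneg (x := 11 / 2) (by norm_num) 12
    refine le_trans ?_ this
    norm_num [Finset.sum_range_succ, Nat.factorial]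
  have h3 : Real.exp (-(22 / 5)) ≤ 1 / 80 := by
    rw [Real.exp_neg, inv_le_comm₀ (Real.exp_pos _) (by norm_num)]
    linarith
  have h4 : Real.exp (-(11 / 2)) ≤ 1 / 100 := by
    rw [Real.exp_neg, inv_le_comm₀ (Real.exp_pos _) (by norm_num)]
    linarith
  have h5 : (1 - Real.exp (-(11 / 2)))⁻¹ ≤ 100 / 99 := by
    rw [inv_le_comm₀ (by linarith) (by norm_num)]
    linarith
  have h7 : 0 ≤ (1 - Real.exp (-(11 / 2)))⁻¹ := inv_nonneg.mpr (by linarith)
  have h6 : 87 / 100 * Real.exp (-(22 / 5)) ≤ 87 / 100 * (1 / 80) :=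
    mul_le_mul_of_nonneg_left h3 (by norm_num)
  calc 87 / 100 * Real.exp (-(22 / 5)) * (1 - Real.exp (-(11 / 2)))⁻¹ ≤
        87 / 100 * (1 / 80) * (100 / 99) := mul_le_mul h6 h5 h7 (by norm_num)
    _ ≤ 1 / 50 := by norm_num

theorem r4_bound {j : ℝ} {n : ℕ} (hj : 16 + 20 * (n : ℝ) ≤ j) :
    2 * (9 + j) ^ 3 * Real.exp (-(51 / 40 * j)) ≤ 53 * r4 n := by
  have hn : (0 : ℝ) ≤ n := Nat.cast_nonneg n
  have hj0 : 16 ≤ j := by linarith
  have h1 : (9 + j) ^ 3 ≤ (25 / 16 * j) ^ 3 := pow_le_pow_left₀ (by linarith) (by linarith) 3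
  have h2 : j ^ 3 / 6 ≤ Real.exp j := by
    have := Real.pow_div_factorial_le_exp j (by linarith) 3
    norm_num [Nat.factorial] at this
    exact this
  have h3 : 2 * (9 + j) ^ 3 ≤ 4611 / 100 * Real.exp j := by
    have h4 : (25 / 16 * j) ^ 3 = 15625 / 4096 * j ^ 3 := by ring
    have h5 := Real.exp_pos j
    nlinarith
  have h4 : Real.exp j * Real.exp (-(51 / 40 * j)) ≤
      Real.exp (-(22 / 5)) * Real.exp (-(11 / 2)) ^ n := by
    rw [← Real.exp_add, ← Real.exp_nat_mul, ← Real.exp_add]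
    apply Real.exp_le_exp.mpr
    linarith
  calc 2 * (9 + j) ^ 3 * Real.exp (-(51 / 40 * j)) ≤
        4611 / 100 * Real.exp j * Real.exp (-(51 / 40 * j)) :=
        mul_le_mul_of_nonneg_right h3 (Real.exp_pos _).le
    _ = 4611 / 100 * (Real.exp j * Real.exp (-(51 / 40 * j))) := by ring
    _ ≤ 4611 / 100 * (Real.exp (-(22 / 5)) * Real.exp (-(11 / 2)) ^ n) :=
        mul_le_mul_of_nonneg_left h4 (by norm_num)
    _ = 53 * r4 n := by unfold r4; ring

/-- the comparison with `ψ_9` -/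
theorem cmp4 (n : ℕ) : Dn (51 / 40) (fun x => r4 n * (x ^ 2 * Real.exp (-(9 * x))) -
    8 * kH (n + 1) * (x ^ 2 * Real.exp (-(k4 (n + 1) * x)))) := by
  have hn : (0 : ℝ) ≤ n := Nat.cast_nonneg n
  have hk := k4_succ_ge n
  obtain ⟨j, hj⟩ : ∃ j, j = k4 (n + 1) - 9 := ⟨_, rfl⟩
  have hj1 : 16 + 20 * (n : ℝ) ≤ j := by linarith
  have hk4 : k4 (n + 1) = 9 + j := by linarith
  have hw : 8 * kH (n + 1) = 2 * (8 + j) := by
    have : k4 (n + 1) = 4 * kH (n + 1) + 1 := rfl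
    linarith
  rw [hk4, hw]
  have := Dn_pe (L := 51 / 40) (α := r4 n) (β := 0) (γ := 0) (k := 9) (α' := -(2 * (8 + j)))
    (β' := 0) (γ' := 0) (k' := 9 + j) (by norm_num) (by linarith) (fun x hx => by
      have e : Real.exp (-((9 + j) * x)) = Real.exp (-(9 * x)) * Real.exp (-(j * x)) := by
        rw [← Real.exp_add]; ring_nf
      have hj0 : 16 ≤ j := by linarith
      have h1 : Real.exp (-(j * x)) ≤ Real.exp (-(51 / 40 * j)) := by
        apply Real.exp_le_exp.mpr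
        nlinarith
      have hr := r4_bound hj1
      have hx0 : 0 < x := by linarith
      -- the two sides
      have hkx : 1 ≤ (9 + j) * x := by nlinarith
      have a1 : (9 + j) ^ 2 * x ^ 2 - 4 * ((9 + j) * x) + 2 ≤ (9 + j) ^ 2 * x ^ 2 := by linarith
      have a2 : 2 * (8 + j) * ((9 + j) ^ 2 * x ^ 2 - 4 * ((9 + j) * x) + 2) ≤
          2 * (9 + j) ^ 3 * x ^ 2 := by
        have b1 : 0 ≤ (9 + j) ^ 2 * x ^ 2 := by positivity
        have b2 := mul_le_mul_of_nonneg_left a1 (by linarith : (0 : ℝ) ≤ 2 * (8 + j))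
        nlinarith
      have a3 : 53 * x ^ 2 ≤ 81 * x ^ 2 - 36 * x + 2 := by nlinarith
      have hr0 : 0 ≤ r4 n := by unfold r4; positivity
      have a4 : 2 * (8 + j) * ((9 + j) ^ 2 * x ^ 2 - 4 * ((9 + j) * x) + 2) * Real.exp (-(j * x)) ≤
          r4 n * (81 * x ^ 2 - 36 * x + 2) := by
        calc _ ≤ 2 * (9 + j) ^ 3 * x ^ 2 * Real.exp (-(j * x)) :=
              mul_le_mul_of_nonneg_right a2 (Real.exp_pos _).le
          _ ≤ 2 * (9 + j) ^ 3 * x ^ 2 * Real.exp (-(51 / 40 * j)) :=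
              mul_le_mul_of_nonneg_left h1 (by positivity)
          _ = 2 * (9 + j) ^ 3 * Real.exp (-(51 / 40 * j)) * x ^ 2 := by ring
          _ ≤ 53 * r4 n * x ^ 2 := mul_le_mul_of_nonneg_right hr (sq_nonneg x)
          _ = r4 n * (53 * x ^ 2) := by ring
          _ ≤ _ := mul_le_mul_of_nonneg_left a3 hr0
      unfold pe2
      rw [e]
      have h4 := mul_le_mul_of_nonneg_left a4 (Real.exp_pos (-(9 * x))).le
      nlinarith)
  exact this.congr fun x _ => by simp only [pe]; ring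

theorem Dn_h9 : Dn (51 / 40) (pe 81 (-36) 2 9) :=
  Dn_pe1 (by norm_num) (fun x hx => by nlinarith)

/-- the bound for `ψ_9` -/
theorem J_psi9 {a b c : ℝ} (ha : 51 / 40 ≤ a) (hab : a < b) (hbc : b < c) :
    J a b c (fun x => x ^ 2 * Real.exp (-(9 * x))) ≤
      (b - a) * (c - b) * (c - a) * ((81 * a ^ 2 - 36 * a + 2) / 2 * Real.exp (-(9 * a))) := by
  have h1 := cvx_sq_sub (L := a) (k := 9)
    (M := (81 * a ^ 2 - 36 * a + 2) / 2 * Real.exp (-(9 * a))) (fun x hx => by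
      have h2 := Dn_h9.anti (show a ∈ Ici (51 / 40 : ℝ) from ha)
        (show x ∈ Ici (51 / 40 : ℝ) from ha.trans hx) hx
      have e1 : pe2 1 0 0 9 x = pe 81 (-36) 2 9 x := by
        unfold pe2 pe
        ring
      rw [e1]
      refine h2.trans (le_of_eq ?_)
      unfold pe
      ring)
  have h2 := J_nonneg le_rfl hab hbc h1
  rw [J_sub, J_mul, J_sq] at h2
  linarith

end UbOAux

open UbOAux

theorem Dn_g3 : Dn (51 / 40) g3 := by
  have h := Dn.tsum (L := 51 / 40) (F := fun n x => x ^ 2 * Real.exp (-(k3 n * x)))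
    (fun n => Dn_psi (by
      have hn : (0 : ℝ) ≤ n := Nat.cast_nonneg n
      linarith [k3_ge n])) (fun x hx => sum_g3 (by linarith))
  exact h.congr fun x _ => g3_eq x

theorem Dn_g4 : Dn (51 / 40) g4 := by
  have h := Dn.tsum (L := 51 / 40) (F := fun n x => 8 * kH n * (x ^ 2 * Real.exp (-(k4 n * x))))
    (fun n => (Dn_psi (by
      have hn : (0 : ℝ) ≤ n := Nat.cast_nonneg n
      linarith [k4_ge n])).smul (by
        have := kH_nonneg n
        positivity)) (fun x hx => sum_g4 (by linarith))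
  exact h.congr fun x _ => g4_eq x

theorem J_g3 {a b c : ℝ} (ha : 51 / 40 ≤ a) (hab : a < b) (hbc : b < c) :
    J a b c g3 ≤ (b - a) * (c - b) * (c - a) * (13 / 1000) := by
  have h1 : ConvexOn ℝ (Ici (51 / 40 : ℝ)) (fun x => ∑' n : ℕ, (m3 n * x ^ 2 -
      x ^ 2 * Real.exp (-(k3 n * x)))) := by
    refine convexOn_tsum (convex_Ici _) (f := fun n x => m3 n * x ^ 2 -
      x ^ 2 * Real.exp (-(k3 n * x))) (fun n => cvx_sq_sub fun x hx => pe2_le_m3 n hx) ?_
    intro x hx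
    have hx' : (51 / 40 : ℝ) ≤ x := hx
    exact (sum_m3.mul_right _).sub (sum_g3 (by linarith))
  have h2 := J_nonneg ha hab hbc h1
  have e : ∀ x, 51 / 40 ≤ x → (∑' n : ℕ, (m3 n * x ^ 2 - x ^ 2 * Real.exp (-(k3 n * x)))) =
      (∑' n, m3 n) * x ^ 2 - g3 x := by
    intro x hx
    rw [(sum_m3.mul_right (x ^ 2)).tsum_sub (sum_g3 (by linarith)), tsum_mul_right, g3_eq]
  have h3 : J a b c (fun x => ∑' n : ℕ, (m3 n * x ^ 2 - x ^ 2 * Real.exp (-(k3 n * x)))) =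
      (∑' n, m3 n) * ((b - a) * (c - b) * (c - a)) - J a b c g3 := by
    have h4 : J a b c (fun x => ∑' n : ℕ, (m3 n * x ^ 2 - x ^ 2 * Real.exp (-(k3 n * x)))) =
        J a b c (fun x => (∑' n, m3 n) * x ^ 2 - g3 x) := by
      unfold J
      simp only
      rw [e a ha, e b (by linarith), e c (by linarith)]
    rw [h4, J_sub, J_mul, J_sq]
  rw [h3] at h2
  have hV : 0 ≤ (b - a) * (c - b) * (c - a) :=
    mul_nonneg (mul_nonneg (by linarith) (by linarith)) (by linarith)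
  have h5 := mul_le_mul_of_nonneg_right tsum_m3 hV
  linarith

theorem J_g4 {a b c : ℝ} (ha : 51 / 40 ≤ a) (hab : a < b) (hbc : b < c) :
    J a b c g4 ≤ (b - a) * (c - b) * (c - a) *
      ((8 + 1 / 100) * (81 * a ^ 2 - 36 * a + 2) * Real.exp (-(9 * a))) := by
  have h1 : Dn (51 / 40) (fun x => ∑' n : ℕ, (r4 n * (x ^ 2 * Real.exp (-(9 * x))) -
      8 * kH (n + 1) * (x ^ 2 * Real.exp (-(k4 (n + 1) * x))))) := by
    refine Dn.tsum (F := fun n x => r4 n * (x ^ 2 * Real.exp (-(9 * x))) -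
      8 * kH (n + 1) * (x ^ 2 * Real.exp (-(k4 (n + 1) * x)))) cmp4 ?_
    intro x hx
    exact (sum_r4.mul_right _).sub ((summable_nat_add_iff 1).mpr (sum_g4 (by linarith)))
  have h2 := h1.J_nonneg ha hab hbc
  have e : ∀ x, 51 / 40 ≤ x → (∑' n : ℕ, (r4 n * (x ^ 2 * Real.exp (-(9 * x))) -
      8 * kH (n + 1) * (x ^ 2 * Real.exp (-(k4 (n + 1) * x))))) =
      ((∑' n, r4 n) + 16) * (x ^ 2 * Real.exp (-(9 * x))) - g4 x := by
    intro x hx
    have s := sum_g4 (x := x) (by linarith)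
    rw [(sum_r4.mul_right _).tsum_sub ((summable_nat_add_iff 1).mpr s), tsum_mul_right, g4_eq,
      s.tsum_eq_zero_add]
    have hk0 : k4 0 = 9 := by
      unfold k4 kH
      norm_num
    have hH0 : kH 0 = 2 := by
      unfold kH
      norm_num
    rw [hk0, hH0]
    ring
  have h3 : J a b c (fun x => ∑' n : ℕ, (r4 n * (x ^ 2 * Real.exp (-(9 * x))) -
      8 * kH (n + 1) * (x ^ 2 * Real.exp (-(k4 (n + 1) * x))))) =
      ((∑' n, r4 n) + 16) * J a b c (fun x => x ^ 2 * Real.exp (-(9 * x))) - J a b c g4 := by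
    have h4 : J a b c (fun x => ∑' n : ℕ, (r4 n * (x ^ 2 * Real.exp (-(9 * x))) -
      8 * kH (n + 1) * (x ^ 2 * Real.exp (-(k4 (n + 1) * x))))) =
        J a b c (fun x => ((∑' n, r4 n) + 16) * (x ^ 2 * Real.exp (-(9 * x))) - g4 x) := by
      unfold J
      simp only
      rw [e a ha, e b (by linarith), e c (by linarith)]
    rw [h4, J_sub, J_mul]
  rw [h3] at h2
  have h5 := (Dn_psi (k := 9) (by norm_num)).J_nonneg ha hab hbc
  have h6 := J_psi9 ha hab hbc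
  have h7 := tsum_r4
  have h8 : ((∑' n, r4 n) + 16) * J a b c (fun x => x ^ 2 * Real.exp (-(9 * x))) ≤
      (1 / 50 + 16) * J a b c (fun x => x ^ 2 * Real.exp (-(9 * x))) :=
    mul_le_mul_of_nonneg_right (by linarith) h5
  have h9 := mul_le_mul_of_nonneg_left h6 (by norm_num : (0 : ℝ) ≤ 1 / 50 + 16)
  calc J a b c g4 ≤ (1 / 50 + 16) * ((b - a) * (c - b) * (c - a) *
        ((81 * a ^ 2 - 36 * a + 2) / 2 * Real.exp (-(9 * a)))) := by linarith
    _ = _ := by ring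

end Pool.Agent.Lib.EPB
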