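import Pool.Agent.Lib.EPB.Dir
import Pool.Agent.Lib.EPB.Ser
import Pool.Agent.Lib.EPB.Sml
import Pool.Agent.Lib.EPB.UbE
import Pool.Agent.Lib.EPB.UbO
import Pool.Agent.Lib.EPB.Fin

/-!
# The dual side
-/

open Set Filter Topology

namespace Pool.Agent.Lib.EPB

namespace DuaAux

/-- the convexity bound for the divided difference of the exponential -/
theorem W_bound {p q : ℝ} (hp : 0 < p) (hq : p < q) :
    p * q * (q - p) * (1 / 2 * Real.exp ((p + q) / 3)) ≤
      (q - p) - q * Real.exp p + p * Real.exp q := by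
  set μ : ℝ := (p + q) / 3 with hμ
  have hc : ConvexOn ℝ (Ici (0 : ℝ)) (fun x : ℝ => Real.exp x - (1 / 2 * Real.exp μ * x ^ 2 +
      Real.exp μ / 6 * (x * (x - p) * (x - q)))) := by
    refine convexOn_of_hasDerivWithinAt2_nonneg (convex_Ici 0)
      (f' := fun x => Real.exp x - (Real.exp μ * x + Real.exp μ / 6 *
        (3 * x ^ 2 - 2 * (p + q) * x + p * q)))
      (f'' := fun x => Real.exp x - (Real.exp μ + Real.exp μ / 6 * (6 * x - 2 * (p + q))))
      ?_ ?_ ?_ ?_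
    · exact Continuous.continuousOn (by fun_prop)
    · intro x _
      have h1 : HasDerivAt (fun x : ℝ => Real.exp x - (1 / 2 * Real.exp μ * x ^ 2 +
          Real.exp μ / 6 * (x ^ 3 - (p + q) * x ^ 2 + p * q * x)))
          (Real.exp x - (1 / 2 * Real.exp μ * (2 * x) +
            Real.exp μ / 6 * (3 * x ^ 2 - (p + q) * (2 * x) + p * q))) x := by
        have d2 : HasDerivAt (fun x : ℝ => x ^ 2) (2 * x) x := by
          simpa using hasDerivAt_pow 2 x
        have d3 : HasDerivAt (fun x : ℝ => x ^ 3) (3 * x ^ 2) x := by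
          simpa using hasDerivAt_pow 3 x
        have d1 : HasDerivAt (fun x : ℝ => p * q * x) (p * q) x := by
          simpa using (hasDerivAt_id x).const_mul (p * q)
        exact (Real.hasDerivAt_exp x).sub ((d2.const_mul _).add
          (((d3.sub (d2.const_mul (p + q))).add d1).const_mul _))
      have h2 : (fun x : ℝ => Real.exp x - (1 / 2 * Real.exp μ * x ^ 2 +
          Real.exp μ / 6 * (x * (x - p) * (x - q)))) = fun x : ℝ => Real.exp x -
          (1 / 2 * Real.exp μ * x ^ 2 + Real.exp μ / 6 * (x ^ 3 - (p + q) * x ^ 2 + p * q * x)) := by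
        funext x; ring
      rw [h2]
      have h3 := h1.hasDerivWithinAt (s := interior (Ici (0 : ℝ)))
      convert! h3 using 1
      ring
    · intro x _
      have d2 : HasDerivAt (fun x : ℝ => 3 * x ^ 2) (6 * x) x := by
        have := (hasDerivAt_pow 2 x).const_mul (3 : ℝ)
        convert! this using 1
        simp; ring
      have d1 : HasDerivAt (fun x : ℝ => 2 * (p + q) * x) (2 * (p + q)) x := by
        simpa using (hasDerivAt_id x).const_mul (2 * (p + q))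
      have d0 : HasDerivAt (fun x : ℝ => Real.exp μ * x) (Real.exp μ) x := by
        simpa using (hasDerivAt_id x).const_mul (Real.exp μ)
      exact ((Real.hasDerivAt_exp x).sub (d0.add
        (((d2.sub d1).add_const (p * q)).const_mul _))).hasDerivWithinAt
    · intro x _
      have h1 : 1 + (x - μ) ≤ Real.exp (x - μ) := by linarith [Real.add_one_le_exp (x - μ)]
      have h2 := mul_le_mul_of_nonneg_left h1 (Real.exp_pos μ).le
      rw [← Real.exp_add] at h2
      have e : μ + (x - μ) = x := by ring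
      rw [e] at h2
      have e2 : Real.exp μ + Real.exp μ / 6 * (6 * x - 2 * (p + q)) =
          Real.exp μ * (1 + (x - μ)) := by rw [hμ]; ring
      rw [e2]
      linarith
  have h := J_nonneg (L := 0) (a := 0) (b := p) (c := q) le_rfl hp hq hc
  unfold J at h
  simp only [Real.exp_zero] at h
  nlinarith [h]

theorem exp_sub_bound {p q : ℝ} (hq : p ≤ q) :
    (q - p) * Real.exp ((p + q) / 2) ≤ Real.exp q - Real.exp p := by
  have h1 : (q - p) / 2 ≤ Real.sinh ((q - p) / 2) := Real.self_le_sinh_iff.mpr (by linarith)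
  rw [Real.sinh_eq] at h1
  have h2 : q - p ≤ Real.exp ((q - p) / 2) - Real.exp (-((q - p) / 2)) := by linarith
  have h3 := mul_le_mul_of_nonneg_right h2 (Real.exp_pos ((p + q) / 2)).le
  rw [sub_mul (Real.exp ((q - p) / 2)), ← Real.exp_add, ← Real.exp_add] at h3
  have e1 : (q - p) / 2 + (p + q) / 2 = q := by ring
  have e2 : -((q - p) / 2) + (p + q) / 2 = p := by ring
  rwa [e1, e2] at h3

/-- the lower bound for the main term -/
theorem K_bound {a b c : ℝ} (ha : 0 < a) (hab : a < b) (hbc : b < c) :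
    (b - a) * (c - b) * (c - a) * (Real.exp a * (a ^ 2 / 2 * Real.exp ((b + c - 2 * a) / 3) +
      2 * a * Real.exp ((b + c - 2 * a) / 2) - 2)) ≤
    J a b c (fun x => x ^ 2 * Real.exp x) -
      (b - a) * (c - b) * (c - a) * (Real.exp a + Real.exp b + Real.exp c) := by
  set p := b - a with hp
  set q := c - a with hq
  have hp0 : 0 < p := by linarith
  have hpq : p < q := by linarith
  have hq0 : 0 < q := by linarith
  have hW := W_bound hp0 hpq
  have hE := exp_sub_bound hpq.le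
  have eb : Real.exp b = Real.exp a * Real.exp p := by rw [← Real.exp_add]; congr 1; linarith
  have ec : Real.exp c = Real.exp a * Real.exp q := by rw [← Real.exp_add]; congr 1; linarith
  have e1 : (b + c - 2 * a) / 3 = (p + q) / 3 := by rw [hp, hq]; ring
  have e2 : (b + c - 2 * a) / 2 = (p + q) / 2 := by rw [hp, hq]; ring
  have e3 : c - b = q - p := by rw [hp, hq]; ring
  rw [e1, e2, e3]
  unfold J
  simp only
  rw [eb, ec, e3]
  have hb : b = a + p := by rw [hp]; ring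
  have hc : c = a + q := by rw [hq]; ring
  rw [hb, hc]
  -- everything over `exp a`
  set W := (q - p) - q * Real.exp p + p * Real.exp q with hWd
  have hW0 : 0 ≤ W := le_trans (by
    have : 0 ≤ p * q * (q - p) := mul_nonneg (mul_nonneg hp0.le hq0.le) (by linarith)
    positivity) hW
  have key : p * (q - p) * q * (a ^ 2 / 2 * Real.exp ((p + q) / 3) +
      2 * a * Real.exp ((p + q) / 2) - 2) ≤
      (a ^ 2 + p * q) * W + 2 * a * (p * q) * (Real.exp q - Real.exp p) -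
        2 * (p * q * (q - p)) := by
    have h1 : a ^ 2 * (p * q * (q - p) * (1 / 2 * Real.exp ((p + q) / 3))) ≤ a ^ 2 * W :=
      mul_le_mul_of_nonneg_left hW (sq_nonneg a)
    have h2 : 2 * a * (p * q) * ((q - p) * Real.exp ((p + q) / 2)) ≤
        2 * a * (p * q) * (Real.exp q - Real.exp p) :=
      mul_le_mul_of_nonneg_left hE (by positivity)
    have h3 : 0 ≤ p * q * W := by positivity
    nlinarith [h1, h2, h3]
  have h4 := mul_le_mul_of_nonneg_left key (Real.exp_pos a).le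
  have e4 : Real.exp a * ((a ^ 2 + p * q) * W + 2 * a * (p * q) * (Real.exp q - Real.exp p) -
        2 * (p * q * (q - p))) =
      (q - p) * (a ^ 2 * Real.exp a) - (a + q - a) * ((a + p) ^ 2 * (Real.exp a * Real.exp p)) +
        (a + p - a) * ((a + q) ^ 2 * (Real.exp a * Real.exp q)) -
      p * (q - p) * q * (Real.exp a + Real.exp a * Real.exp p + Real.exp a * Real.exp q) := by
    rw [hWd]; ring
  rw [e4] at h4
  nlinarith [h4]

/-- upper bound for the three-point functional -/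
theorem J3_le {L a b c : ℝ} (ha : L ≤ a) (hab : a < b) (hbc : b < c) {g s : ℝ → ℝ}
    (hg : Dn L g) (hs : Dn L s) (hs1 : Dn L (fun x => s x * (1 - s x))) :
    J3 a b c g s ≤
      (1 + (s a + s b + s c) + (s a * s b + s b * s c + s a * s c)) * J a b c g := by
  rw [J3_eq]
  have h1 := (hg.mul hs).J_nonneg ha hab hbc
  have h2 := (hg.mul hs1).J_nonneg ha hab hbc
  have e : J a b c (fun x => g x * (s x * (1 - s x))) =
      J a b c (fun x => g x * s x) - J a b c (fun x => g x * s x * s x) := by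
    unfold J; ring
  rw [e] at h2
  have n1 := hs.nn a ha
  have n2 := hs.nn b (by linarith)
  have n3 := hs.nn c (by linarith)
  have h3 : 0 ≤ (s a + s b + s c) * J a b c (fun x => g x * s x) := by positivity
  nlinarith [h2, h3]

/-- the algebraic identity -/
theorem alg_id (a b c sa sb sc ta tb tc qa qb qc wa wb wc pa pb pc xa xb xc : ℝ)
    (ha : pa * xa = 1) (hb : pb * xb = 1) (hc : pc * xc = 1) :
    a ^ 2 * (b - c) *
        (qa * (1 + sb) * (1 + sc) + qa * (2 * pb * (1 + tb)) * (2 * pc * (1 + tc)) +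
          (2 * pa * (1 + ta) + wa) * (1 + sb) * (2 * pc * (1 + tc)) +
          (2 * pa * (1 + ta) + wa) * (2 * pb * (1 + tb)) * (1 + sc)) +
      b ^ 2 * (c - a) *
        ((1 + sa) * qb * (1 + sc) + (1 + sa) * (2 * pb * (1 + tb) + wb) * (2 * pc * (1 + tc)) +
          (2 * pa * (1 + ta)) * qb * (2 * pc * (1 + tc)) +
          (2 * pa * (1 + ta)) * (2 * pb * (1 + tb) + wb) * (1 + sc)) +
      c ^ 2 * (a - b) *
        ((1 + sa) * (1 + sb) * qc + (1 + sa) * (2 * pb * (1 + tb)) * (2 * pc * (1 + tc) + wc) +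
          (2 * pa * (1 + ta)) * (1 + sb) * (2 * pc * (1 + tc) + wc) +
          (2 * pa * (1 + ta)) * (2 * pb * (1 + tb)) * qc) =
    -((c - b) * (a ^ 2 * qa) * ((1 + sb) * (1 + sc)) -
        (c - a) * (b ^ 2 * qb) * ((1 + sa) * (1 + sc)) +
        (b - a) * (c ^ 2 * qc) * ((1 + sa) * (1 + sb))) +
    4 * (pa * pb * pc) * (-((b - a) * (c - b) * (c - a)) *
        (xa * (1 + sa) * ((1 + tb) * (1 + tc)) + xb * (1 + sb) * ((1 + ta) * (1 + tc)) +
          xc * (1 + sc) * ((1 + ta) * (1 + tb))) +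
      ((c - b) * (a ^ 2 * xa) * ((1 + tb) * (1 + tc)) -
        (c - a) * (b ^ 2 * xb) * ((1 + ta) * (1 + tc)) +
        (b - a) * (c ^ 2 * xc) * ((1 + ta) * (1 + tb))) -
      ((c - b) * (a ^ 2 * xa * (qa - sa)) * ((1 + tb) * (1 + tc)) -
        (c - a) * (b ^ 2 * xb * (qb - sb)) * ((1 + ta) * (1 + tc)) +
        (b - a) * (c ^ 2 * xc * (qc - sc)) * ((1 + ta) * (1 + tb)))) -
    ((c - b) * (a ^ 2 * wa) * ((1 + sb) * (2 * pc * (1 + tc)) + (2 * pb * (1 + tb)) * (1 + sc)) -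
      (c - a) * (b ^ 2 * wb) * ((1 + sa) * (2 * pc * (1 + tc)) + (2 * pa * (1 + ta)) * (1 + sc)) +
      (b - a) * (c ^ 2 * wc) *
        ((1 + sa) * (2 * pb * (1 + tb)) + (2 * pa * (1 + ta)) * (1 + sb))) := by
  have h1 : pa * pb * pc * xa = pb * pc := by
    calc pa * pb * pc * xa = (pa * xa) * (pb * pc) := by ring
      _ = _ := by rw [ha, one_mul]
  have h2 : pa * pb * pc * xb = pa * pc := by
    calc pa * pb * pc * xb = (pb * xb) * (pa * pc) := by ring
      _ = _ := by rw [hb, one_mul]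
  have h3 : pa * pb * pc * xc = pa * pb := by
    calc pa * pb * pc * xc = (pc * xc) * (pa * pb) := by ring
      _ = _ := by rw [hc, one_mul]
  linear_combination
    (-(4 * ((1 + tb) * (1 + tc)) * (-((b - a) * (c - b) * (c - a)) * (1 + sa) +
      (c - b) * a ^ 2 - (c - b) * a ^ 2 * (qa - sa)))) * h1 +
    (-(4 * ((1 + ta) * (1 + tc)) * (-((b - a) * (c - b) * (c - a)) * (1 + sb) -
      (c - a) * b ^ 2 + (c - a) * b ^ 2 * (qb - sb)))) * h2 +
    (-(4 * ((1 + ta) * (1 + tb)) * (-((b - a) * (c - b) * (c - a)) * (1 + sc) +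
      (b - a) * c ^ 2 - (b - a) * c ^ 2 * (qc - sc)))) * h3

/-- the mixed functional -/
theorem mix_id (a b c : ℝ) (g v s : ℝ → ℝ) :
    (c - b) * g a * ((1 + s b) * v c + v b * (1 + s c)) -
      (c - a) * g b * ((1 + s a) * v c + v a * (1 + s c)) +
      (b - a) * g c * ((1 + s a) * v b + v a * (1 + s b)) =
    ((v a + v b + v c) * (1 + (s a + s b + s c)) - (v a * s a + v b * s b + v c * s c)) *
        J a b c g -
      (v a + v b + v c) * J a b c (fun x => g x * s x) -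
      (s a + s b + s c) * J a b c (fun x => g x * v x) -
      J a b c (fun x => g x * (v x * (1 - 2 * s x))) := by
  unfold J; ring

theorem st1 {V xa xb xc sa sb sc ta tb tc A0 A2 A3 A5 B0 B2 : ℝ} (hV : 0 < V) (xa0 : 0 < xa)
    (xb0 : 0 < xb) (xc0 : 0 < xc) (sa0 : 0 ≤ sa) (sb0 : 0 ≤ sb) (sc0 : 0 ≤ sc) (ta0 : 0 ≤ ta)
    (tb0 : 0 ≤ tb) (tc0 : 0 ≤ tc)
    (i2 : B2 ≤ (1 + (ta + tb + tc) + (ta * tb + tb * tc + ta * tc)) * A2)
    (i3 : B0 = (1 + (ta + tb + tc) + (ta * tb + tb * tc + ta * tc)) * A0 -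
      (1 + (ta + tb + tc)) * A3 + A5) (i4 : 0 ≤ A5) (i5 : 0 ≤ A3) :
    (1 + (ta + tb + tc) + (ta * tb + tb * tc + ta * tc)) *
      (A0 - V * (xa * (1 + sa) + xb * (1 + sb) + xc * (1 + sc)) - A3 - A2) ≤
    -V * (xa * (1 + sa) * ((1 + tb) * (1 + tc)) + xb * (1 + sb) * ((1 + ta) * (1 + tc)) +
      xc * (1 + sc) * ((1 + ta) * (1 + tb))) + B0 - B2 := by
  have k1 : 0 ≤ V * (xa * (1 + sa) * (ta + ta * tb + ta * tc)) := by positivity
  have k2 : 0 ≤ V * (xb * (1 + sb) * (tb + ta * tb + tb * tc)) := by positivity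
  have k3 : 0 ≤ V * (xc * (1 + sc) * (tc + tb * tc + ta * tc)) := by positivity
  have k4 : 0 ≤ (ta * tb + tb * tc + ta * tc) * A3 := by positivity
  have e : (-V * (xa * (1 + sa) * ((1 + tb) * (1 + tc)) + xb * (1 + sb) * ((1 + ta) * (1 + tc)) +
      xc * (1 + sc) * ((1 + ta) * (1 + tb))) + B0 - B2) -
      (1 + (ta + tb + tc) + (ta * tb + tb * tc + ta * tc)) *
      (A0 - V * (xa * (1 + sa) + xb * (1 + sb) + xc * (1 + sc)) - A3 - A2) =
      V * (xa * (1 + sa) * (ta + ta * tb + ta * tc)) +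
      V * (xb * (1 + sb) * (tb + ta * tb + tb * tc)) +
      V * (xc * (1 + sc) * (tc + tb * tc + ta * tc)) + (ta * tb + tb * tc + ta * tc) * A3 + A5 +
      ((1 + (ta + tb + tc) + (ta * tb + tb * tc + ta * tc)) * A2 - B2) := by
    rw [i3]; ring
  linarith

theorem st2 {V xa xb xc sa sb sc A0 A2 A3 K : ℝ} (hV : 0 < V) (hx : 31 / 10 ≤ xa)
    (sa1 : sa ≤ 61 / 5000) (hxb : xb * sb ≤ xa * sa) (hxc : xc * sc ≤ xa * sa)
    (hK : V * (xa * (K - 2)) ≤ A0 - V * (xa + xb + xc))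
    (hg2 : A2 ≤ V * (3 / 20)) (hg3 : A3 ≤ V * (13 / 1000)) :
    V * xa * (K - 209 / 100) ≤
      A0 - V * (xa * (1 + sa) + xb * (1 + sb) + xc * (1 + sc)) - A3 - A2 := by
  have hx0 : 0 < xa := by linarith
  have k0 : xa * sa ≤ xa * (61 / 5000) := mul_le_mul_of_nonneg_left sa1 hx0.le
  have k1 : V * (xa * sa + xb * sb + xc * sc) ≤ V * (xa * (183 / 5000)) :=
    mul_le_mul_of_nonneg_left (by linarith) hV.le
  have k2 : V * (163 / 1000) ≤ V * (xa * (267 / 5000)) := by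
    refine mul_le_mul_of_nonneg_left ?_ hV.le
    linarith
  have e : (A0 - V * (xa * (1 + sa) + xb * (1 + sb) + xc * (1 + sc)) - A3 - A2) -
      V * xa * (K - 209 / 100) = (A0 - V * (xa + xb + xc) - V * (xa * (K - 2))) +
        V * (xa * (9 / 100)) - V * (xa * sa + xb * sb + xc * sc) - A3 - A2 := by ring
  have e2 : V * (xa * (9 / 100)) = V * (xa * (183 / 5000)) + V * (xa * (267 / 5000)) := by ring
  linarith

theorem st3a {a c P V E A9 : ℝ} {u v : ℝ} (hPpos : 0 < P) (hPc : P / 2 ≤ c - a)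
    (hpol3 : 0 < 8 * a ^ 2 - 4 * a) (hu : 0 < u) (hv : 0 < v) (hE : 0 < E)
    (hV : V = u * v * (c - a))
    (h4a : A9 ≤ V * ((8 * a ^ 2 - 8 * a + 1) * E))
    (h4b : A9 ≤ u * v * ((4 * a ^ 2 - 2 * a) * E)) :
    A9 ≤ V * (min (8 * a ^ 2 - 8 * a + 1) ((8 * a ^ 2 - 4 * a) / P) * E) := by
  rcases min_choice (8 * a ^ 2 - 8 * a + 1) ((8 * a ^ 2 - 4 * a) / P) with h | h
  · rw [h]; exact h4a
  · rw [h]
    refine h4b.trans ?_
    have k1 : u * v * ((4 * a ^ 2 - 2 * a) * E) =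
        u * v * (((8 * a ^ 2 - 4 * a) / P) * E) * (P / 2) := by
      field_simp
      ring
    rw [k1, hV]
    have k2 : 0 ≤ u * v * (((8 * a ^ 2 - 4 * a) / P) * E) := by
      have := div_pos hpol3 hPpos
      positivity
    calc _ ≤ u * v * (((8 * a ^ 2 - 4 * a) / P) * E) * (c - a) :=
          mul_le_mul_of_nonneg_left hPc k2
      _ = _ := by ring

theorem st3 {V sa sb sc A1 A9 μ E : ℝ} (hV : 0 < V) (hμ0 : 0 < μ) (hE : 0 < E) (sa0 : 0 ≤ sa)
    (sb0 : 0 ≤ sb) (sc0 : 0 ≤ sc) (sa1 : sa ≤ 61 / 5000) (sb1 : sb ≤ 61 / 5000)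
    (sc1 : sc ≤ 61 / 5000) (hg1 : A1 ≤ (8 + 1 / 1000) * A9) (i10 : 0 ≤ A1)
    (k0 : A9 ≤ V * (μ * E)) :
    (1 + (sa + sb + sc) + (sa * sb + sb * sc + sa * sc)) * A1 ≤ 4 * (83 / 40) * (V * (μ * E)) := by
  have k4 : 1 + (sa + sb + sc) + (sa * sb + sb * sc + sa * sc) ≤ 103705 / 100000 := by
    have a1 : sa * sb ≤ 61 / 5000 * (61 / 5000) := mul_le_mul sa1 sb1 sb0 (by norm_num)
    have a2 : sb * sc ≤ 61 / 5000 * (61 / 5000) := mul_le_mul sb1 sc1 sc0 (by norm_num)
    have a3 : sa * sc ≤ 61 / 5000 * (61 / 5000) := mul_le_mul sa1 sc1 sc0 (by norm_num)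
    linarith
  have hp : 0 < V * (μ * E) := by positivity
  calc (1 + (sa + sb + sc) + (sa * sb + sb * sc + sa * sc)) * A1 ≤
        103705 / 100000 * A1 := mul_le_mul_of_nonneg_right k4 i10
    _ ≤ 4 * (83 / 40) * (V * (μ * E)) := by linarith

theorem st4 {V pa pb pc sa sb sc ta tb tc A4 R E : ℝ} (hV : 0 < V) (hR : 0 < R) (hE : 0 < E)
    (pa0 : 0 < pa) (pb0 : 0 < pb) (pc0 : 0 < pc) (sa0 : 0 ≤ sa) (sb0 : 0 ≤ sb) (sc0 : 0 ≤ sc)
    (ta0 : 0 ≤ ta) (tb0 : 0 ≤ tb) (tc0 : 0 ≤ tc) (sa1 : sa ≤ 61 / 5000) (sb1 : sb ≤ 61 / 5000)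
    (sc1 : sc ≤ 61 / 5000) (ta1 : ta ≤ 1 / 10000) (tb1 : tb ≤ 1 / 10000) (tc1 : tc ≤ 1 / 10000)
    (hpb : pb ≤ pa) (hpc : pc ≤ pa) (i9 : 0 ≤ A4) (hg4 : A4 ≤ V * ((8 + 1 / 100) * R * E)) :
    (2 * pa * (1 + ta) + 2 * pb * (1 + tb) + 2 * pc * (1 + tc)) * (1 + (sa + sb + sc)) * A4 ≤
      50 * (V * (R * (pa * E))) := by
  have k1 : 2 * pa * (1 + ta) + 2 * pb * (1 + tb) + 2 * pc * (1 + tc) ≤
      pa * (60006 / 10000) := by
    have a1 : pa * (1 + ta) ≤ pa * (10001 / 10000) :=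
      mul_le_mul_of_nonneg_left (by linarith) pa0.le
    have a2 : pb * (1 + tb) ≤ pa * (10001 / 10000) :=
      mul_le_mul hpb (by linarith) (by linarith) pa0.le
    have a3 : pc * (1 + tc) ≤ pa * (10001 / 10000) :=
      mul_le_mul hpc (by linarith) (by linarith) pa0.le
    linarith
  have k2 : 1 + (sa + sb + sc) ≤ 10366 / 10000 := by linarith
  have hp : 0 < V * (R * (pa * E)) := by positivity
  calc _ ≤ pa * (60006 / 10000) * (10366 / 10000) * (V * ((8 + 1 / 100) * R * E)) :=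
        mul_le_mul (mul_le_mul k1 k2 (by linarith) (by positivity)) hg4 i9 (by positivity)
    _ = (60006 / 10000) * (10366 / 10000) * (8 + 1 / 100) * (V * (R * (pa * E))) := by ring
    _ ≤ _ := by
        refine mul_le_mul_of_nonneg_right (by norm_num) hp.le

theorem st7 {B1 A1 S F X W A4 A6 A7 A8 s1 Q : ℝ} (i1 : B1 ≤ S * A1) (i6 : 0 ≤ A6)
    (r1 : 0 ≤ W * A4) (r2 : 0 ≤ F * A8) (r3 : 0 ≤ s1 * A7)
    (h : 0 < 4 * X - S * A1 - Q) (hQ : F * (1 + s1) * A4 ≤ Q) :
    0 < -B1 + 4 * X - ((F * (1 + s1) - W) * A4 - F * A8 - s1 * A7 - A6) := by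
  have e : -B1 + 4 * X - ((F * (1 + s1) - W) * A4 - F * A8 - s1 * A7 - A6) =
      (4 * X - S * A1 - Q) + (S * A1 - B1) + (Q - F * (1 + s1) * A4) + W * A4 + F * A8 + s1 * A7 +
        A6 := by ring
  rw [e]
  linarith

end DuaAux

open DuaAux

/-- the dual sum is positive -/
theorem N_pos {a b c : ℝ} (ha : 51 / 40 ≤ a) (hab : a < b) (hbc : b < c)
    (hP : b + c - 2 * a ≤ 41 / 20 * a) :
    0 < a ^ 2 * (b - c) *
        (E1 a * E0 b * E0 c + E1 a * O0 b * O0 c + O1 a * E0 b * O0 c + O1 a * O0 b * E0 c) +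
      b ^ 2 * (c - a) *
        (E0 a * E1 b * E0 c + E0 a * O1 b * O0 c + O0 a * E1 b * O0 c + O0 a * O1 b * E0 c) +
      c ^ 2 * (a - b) *
        (E0 a * E0 b * E1 c + E0 a * O0 b * O1 c + O0 a * E0 b * O1 c + O0 a * O0 b * E1 c) := by
  have ha0 : 0 < a := by linarith
  have hb0 : 0 < b := by linarith
  have hc0 : 0 < c := by linarith
  have hb' : 51 / 40 ≤ b := by linarith
  have hc' : 51 / 40 ≤ c := by linarith
  have hV : 0 < (b - a) * (c - b) * (c - a) :=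
    mul_pos (mul_pos (by linarith) (by linarith)) (by linarith)
  set V := (b - a) * (c - b) * (c - a) with hVd
  -- the functional inequalities
  have i1 := J3_le ha hab hbc Dn_g1 Dn_s Dn_s1
  have i2 := J3_le ha hab hbc Dn_g2 Dn_t Dn_t1
  have i3 := J3_eq a b c (fun x => x ^ 2 * Real.exp x) tu
  have i4 : 0 ≤ J a b c (fun x => x ^ 2 * Real.exp x * tu x * tu x) :=
    (Dn_g3.mul Dn_t).J_nonneg ha hab hbc
  have i5 : 0 ≤ J a b c g3 := Dn_g3.J_nonneg ha hab hbc
  have e5 : J a b c (fun x => x ^ 2 * Real.exp x * tu x) = J a b c g3 := rfl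
  have i6 : 0 ≤ J a b c (fun x => g4 x * (2 * (1 + tu x) * (Real.exp (-x) * (1 - 2 * sg x)))) := by
    have hd : Dn (51 / 40) (fun x => 2 * (1 + tu x)) :=
      ((Dn.const (r := 1) one_pos.le).add Dn_t).smul (r := 2) (by norm_num)
    exact (Dn_g4.mul (hd.mul Dn_es)).J_nonneg ha hab hbc
  have i7 : 0 ≤ J a b c (fun x => g4 x * (2 * (1 + tu x) * Real.exp (-x))) := by
    have hd : Dn (51 / 40) (fun x => 2 * (1 + tu x)) :=
      ((Dn.const (r := 1) one_pos.le).add Dn_t).smul (r := 2) (by norm_num)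
    have he : Dn (51 / 40) (fun x : ℝ => Real.exp (-x)) :=
      (Dn_exp (L := 51 / 40) one_pos).congr fun x _ => by rw [one_mul]
    exact (Dn_g4.mul (hd.mul he)).J_nonneg ha hab hbc
  have i8 : 0 ≤ J a b c (fun x => g4 x * sg x) := (Dn_g4.mul Dn_s).J_nonneg ha hab hbc
  have i9 : 0 ≤ J a b c g4 := Dn_g4.J_nonneg ha hab hbc
  have i10 : 0 ≤ J a b c g1 := Dn_g1.J_nonneg ha hab hbc
  have i11 : 0 ≤ J a b c g2 := Dn_g2.J_nonneg ha hab hbc
  -- numbers
  have sa0 := Dn_s.nn a ha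
  have sb0 := Dn_s.nn b hb'
  have sc0 := Dn_s.nn c hc'
  have ta0 := Dn_t.nn a ha
  have tb0 := Dn_t.nn b hb'
  have tc0 := Dn_t.nn c hc'
  have sa1 := s_le ha
  have sb1 := s_le hb'
  have sc1 := s_le hc'
  have ta1 := t_le ha
  have tb1 := t_le hb'
  have tc1 := t_le hc'
  have xb : Real.exp b * sg b ≤ Real.exp a * sg a := Dn_xs.anti (show a ∈ Ici _ from ha)
    (show b ∈ Ici _ from hb') hab.le
  have xc : Real.exp c * sg c ≤ Real.exp a * sg a := Dn_xs.anti (show a ∈ Ici _ from ha)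
    (show c ∈ Ici _ from hc') (by linarith)
  have hK := K_bound ha0 hab hbc
  have hg2 := J_g2 ha hab hbc
  have hg3 := J_g3 ha hab hbc
  have hg4 := J_g4 ha hab hbc
  have hg1 := J_g1 ha hab hbc
  have h4a := J_psi4a ha hab hbc
  have h4b := J_psi4b ha hab hbc
  rw [← hVd] at hK hg2 hg3 hg4 h4a
  -- the values of the one-dimensional functions
  have E0a : E0 a = 1 + sg a := E0_eq ha0
  have E0b : E0 b = 1 + sg b := E0_eq hb0
  have E0c : E0 c = 1 + sg c := E0_eq hc0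
  obtain ⟨qa, hqa⟩ : ∃ q, q = 4 * Tk1 kI 2 (4 * a) := ⟨_, rfl⟩
  obtain ⟨qb, hqb⟩ : ∃ q, q = 4 * Tk1 kI 2 (4 * b) := ⟨_, rfl⟩
  obtain ⟨qc, hqc⟩ : ∃ q, q = 4 * Tk1 kI 2 (4 * c) := ⟨_, rfl⟩
  obtain ⟨wa, hwa⟩ : ∃ q, q = 8 * Real.exp (-a) * Tk1 kH 1 (4 * a) := ⟨_, rfl⟩
  obtain ⟨wb, hwb⟩ : ∃ q, q = 8 * Real.exp (-b) * Tk1 kH 1 (4 * b) := ⟨_, rfl⟩
  obtain ⟨wc, hwc⟩ : ∃ q, q = 8 * Real.exp (-c) * Tk1 kH 1 (4 * c) := ⟨_, rfl⟩
  have E1a : E1 a = qa := by rw [hqa]; exact E1_eq ha0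
  have E1b : E1 b = qb := by rw [hqb]; exact E1_eq hb0
  have E1c : E1 c = qc := by rw [hqc]; exact E1_eq hc0
  have O0a : O0 a = 2 * Real.exp (-a) * (1 + tu a) := O0_eq ha0
  have O0b : O0 b = 2 * Real.exp (-b) * (1 + tu b) := O0_eq hb0
  have O0c : O0 c = 2 * Real.exp (-c) * (1 + tu c) := O0_eq hc0
  have O1a : O1 a = 2 * Real.exp (-a) * (1 + tu a) + wa := by rw [hwa, ← O0a]; exact O1_eq ha0
  have O1b : O1 b = 2 * Real.exp (-b) * (1 + tu b) + wb := by rw [hwb, ← O0b]; exact O1_eq hb0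
  have O1c : O1 c = 2 * Real.exp (-c) * (1 + tu c) + wc := by rw [hwc, ← O0c]; exact O1_eq hc0
  have g1a : g1 a = a ^ 2 * qa := by rw [hqa]; rfl
  have g1b : g1 b = b ^ 2 * qb := by rw [hqb]; rfl
  have g1c : g1 c = c ^ 2 * qc := by rw [hqc]; rfl
  have g2a : g2 a = a ^ 2 * Real.exp a * (qa - sg a) := by rw [hqa]; rfl
  have g2b : g2 b = b ^ 2 * Real.exp b * (qb - sg b) := by rw [hqb]; rfl
  have g2c : g2 c = c ^ 2 * Real.exp c * (qc - sg c) := by rw [hqc]; rfl
  have g4a : g4 a = a ^ 2 * wa := by rw [hwa]; rfl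
  have g4b : g4 b = b ^ 2 * wb := by rw [hwb]; rfl
  have g4c : g4 c = c ^ 2 * wc := by rw [hwc]; rfl
  have pxa : Real.exp (-a) * Real.exp a = 1 := by rw [← Real.exp_add, neg_add_cancel, Real.exp_zero]
  have pxb : Real.exp (-b) * Real.exp b = 1 := by rw [← Real.exp_add, neg_add_cancel, Real.exp_zero]
  have pxc : Real.exp (-c) * Real.exp c = 1 := by rw [← Real.exp_add, neg_add_cancel, Real.exp_zero]
  rw [E0a, E0b, E0c, E1a, E1b, E1c, O1a, O1b, O1c, O0a, O0b, O0c,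
    alg_id a b c (sg a) (sg b) (sg c) (tu a) (tu b) (tu c) qa qb qc wa wb wc (Real.exp (-a))
      (Real.exp (-b)) (Real.exp (-c)) (Real.exp a) (Real.exp b) (Real.exp c) pxa pxb pxc]
  -- rewrite the functionals
  have m := mix_id a b c g4 (fun x => 2 * Real.exp (-x) * (1 + tu x)) sg
  rw [g4a, g4b, g4c] at m
  rw [m]
  have e1 : (c - b) * (a ^ 2 * qa) * ((1 + sg b) * (1 + sg c)) -
        (c - a) * (b ^ 2 * qb) * ((1 + sg a) * (1 + sg c)) +
        (b - a) * (c ^ 2 * qc) * ((1 + sg a) * (1 + sg b)) = J3 a b c g1 sg := by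
    unfold J3; rw [g1a, g1b, g1c]
  have e2 : (c - b) * (a ^ 2 * Real.exp a) * ((1 + tu b) * (1 + tu c)) -
        (c - a) * (b ^ 2 * Real.exp b) * ((1 + tu a) * (1 + tu c)) +
        (b - a) * (c ^ 2 * Real.exp c) * ((1 + tu a) * (1 + tu b)) =
      J3 a b c (fun x => x ^ 2 * Real.exp x) tu := rfl
  have e3 : (c - b) * (a ^ 2 * Real.exp a * (qa - sg a)) * ((1 + tu b) * (1 + tu c)) -
        (c - a) * (b ^ 2 * Real.exp b * (qb - sg b)) * ((1 + tu a) * (1 + tu c)) +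
        (b - a) * (c ^ 2 * Real.exp c * (qc - sg c)) * ((1 + tu a) * (1 + tu b)) =
      J3 a b c g2 tu := by
    unfold J3; rw [g2a, g2b, g2c]
  rw [e1, e2, e3, ← hVd]
  have e6 : (fun x => g4 x * (2 * (1 + tu x) * (Real.exp (-x) * (1 - 2 * sg x)))) =
      fun x => g4 x * (2 * Real.exp (-x) * (1 + tu x) * (1 - 2 * sg x)) := by
    funext x; ring
  have e7 : (fun x => g4 x * (2 * (1 + tu x) * Real.exp (-x))) =
      fun x => g4 x * (2 * Real.exp (-x) * (1 + tu x)) := by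
    funext x; ring
  rw [e6] at i6
  rw [e7] at i7
  rw [e5] at i3
  -- generalize
  generalize hsa : sg a = sa at *
  generalize hsb : sg b = sb at *
  generalize hsc : sg c = sc at *
  generalize hta : tu a = ta at *
  generalize htb : tu b = tb at *
  generalize htc : tu c = tc at *
  generalize hA1 : J a b c g1 = A1 at *
  generalize hA2 : J a b c g2 = A2 at *
  generalize hA3 : J a b c g3 = A3 at *
  generalize hA4 : J a b c g4 = A4 at *
  generalize hB1 : J3 a b c g1 sg = B1 at *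
  generalize hB2 : J3 a b c g2 tu = B2 at *
  generalize hB0 : J3 a b c (fun x => x ^ 2 * Real.exp x) tu = B0 at *
  generalize hA0 : J a b c (fun x => x ^ 2 * Real.exp x) = A0 at *
  generalize hA5 : J a b c (fun x => x ^ 2 * Real.exp x * tu x * tu x) = A5 at *
  generalize hA6 : J a b c (fun x => g4 x * (2 * Real.exp (-x) * (1 + tu x) * (1 - 2 * sg x))) =
    A6 at *
  generalize hA7 : J a b c (fun x => g4 x * (2 * Real.exp (-x) * (1 + tu x))) = A7 at *
  generalize hA8 : J a b c (fun x => g4 x * sg x) = A8 at *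
  generalize hA9 : J a b c (fun x => x ^ 2 * Real.exp (-(4 * x))) = A9 at *
  set P := b + c - 2 * a with hPd
  set M := a ^ 2 / 2 * Real.exp (P / 3) + 2 * a * Real.exp (P / 2) - 209 / 100 with hMd
  have hPpos : 0 < P := by rw [hPd]; linarith
  have hfin := fin_ineq ha hPpos hP
  have hx0 := Real.exp_pos a
  have hx3 : (31 : ℝ) / 10 ≤ Real.exp a := by
    have h1 := Real.exp_le_exp.mpr ha
    have h2 := Real.sum_le_exp_of_nonneg (x := 51 / 40) (by norm_num) 5
    norm_num [Finset.sum_range_succ, Nat.factorial] at h2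
    exact le_trans (by norm_num at h2 ⊢; linarith) h1
  have hpol : 0 < 8 * a ^ 2 - 8 * a + 1 := by clear * - ha; nlinarith
  have hpol2 : 0 < 81 * a ^ 2 - 36 * a + 2 := by clear * - ha; nlinarith
  have hpol3 : 0 < 8 * a ^ 2 - 4 * a := by clear * - ha; nlinarith
  set μ := min (8 * a ^ 2 - 8 * a + 1) ((8 * a ^ 2 - 4 * a) / P) with hμ
  have hμ0 : 0 < μ := lt_min hpol (div_pos hpol3 hPpos)
  have hfin' : 0 < M - 83 / 40 * Real.exp (P - 2 * a) * μ -
      25 / 2 * (81 * a ^ 2 - 36 * a + 2) * Real.exp (P - 8 * a) := by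
    rw [hMd]
    clear * - hfin
    linarith
  have hM0 : 0 < M := by
    have h1 : 0 < 83 / 40 * Real.exp (P - 2 * a) * μ := by positivity
    have h2 : 0 < 25 / 2 * (81 * a ^ 2 - 36 * a + 2) * Real.exp (P - 8 * a) := by positivity
    clear * - h1 h2 hfin'
    linarith
  have t1 := st1 hV hx0 (Real.exp_pos b) (Real.exp_pos c) sa0 sb0 sc0 ta0 tb0 tc0 i2 i3 i4 i5
  have t2 := st2 (K := a ^ 2 / 2 * Real.exp (P / 3) + 2 * a * Real.exp (P / 2)) hV hx3 sa1 xb xc
    hK hg2 hg3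
  rw [← hMd] at t2
  have t3 := st3a (E := Real.exp (-(4 * a))) (u := b - a) (v := c - b) hPpos
    (by rw [hPd]; linarith) hpol3 (by linarith) (by linarith) (Real.exp_pos _) hVd h4a h4b
  rw [← hμ] at t3
  have t4 := st3 hV hμ0 (Real.exp_pos _) sa0 sb0 sc0 sa1 sb1 sc1 hg1 i10 t3
  have pa0 := Real.exp_pos (-a)
  have pb0 := Real.exp_pos (-b)
  have pc0 := Real.exp_pos (-c)
  have hpb : Real.exp (-b) ≤ Real.exp (-a) := Real.exp_le_exp.mpr (by linarith)
  have hpc : Real.exp (-c) ≤ Real.exp (-a) := Real.exp_le_exp.mpr (by linarith)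
  have t5 := st4 hV hpol2 (Real.exp_pos (-(9 * a))) pa0 pb0 pc0 sa0 sb0 sc0 ta0 tb0 tc0 sa1 sb1
    sc1 ta1 tb1 tc1 hpb hpc i9 hg4
  have eD : Real.exp (-a) * Real.exp (-b) * Real.exp (-c) * Real.exp a =
      Real.exp (-(2 * a) - P) := by
    rw [← Real.exp_add, ← Real.exp_add, ← Real.exp_add]
    congr 1
    rw [hPd]; ring
  set D := Real.exp (-(2 * a) - P) with hD
  have hD0 : 0 < D := Real.exp_pos _
  have eD4 : Real.exp (-(4 * a)) = D * Real.exp (P - 2 * a) := by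
    rw [hD, ← Real.exp_add]
    congr 1
    ring
  have eD8 : Real.exp (-a) * Real.exp (-(9 * a)) = D * Real.exp (P - 8 * a) := by
    rw [hD, ← Real.exp_add, ← Real.exp_add]
    congr 1
    ring
  rw [eD4] at t4
  rw [eD8] at t5
  -- the sum
  have hT1 : 1 ≤ 1 + (ta + tb + tc) + (ta * tb + tb * tc + ta * tc) := by
    have : 0 ≤ (ta + tb + tc) + (ta * tb + tb * tc + ta * tc) := by positivity
    clear * - this
    linarith
  have hBrpos : 0 ≤ A0 - V * (Real.exp a * (1 + sa) + Real.exp b * (1 + sb) +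
      Real.exp c * (1 + sc)) - A3 - A2 := le_trans (by positivity) t2
  have k1 := le_mul_of_one_le_left hBrpos hT1
  have k2 := mul_le_mul_of_nonneg_left (t2.trans (k1.trans t1))
    (by positivity : 0 ≤ Real.exp (-a) * Real.exp (-b) * Real.exp (-c))
  have k3 : D * (V * M) = Real.exp (-a) * Real.exp (-b) * Real.exp (-c) *
      (V * Real.exp a * M) := by
    rw [← eD]; ring
  rw [← k3] at k2
  have r1 : 0 ≤ (2 * Real.exp (-a) * (1 + ta) * sa + 2 * Real.exp (-b) * (1 + tb) * sb +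
      2 * Real.exp (-c) * (1 + tc) * sc) * A4 := by positivity
  have r2 : 0 ≤ (2 * Real.exp (-a) * (1 + ta) + 2 * Real.exp (-b) * (1 + tb) +
      2 * Real.exp (-c) * (1 + tc)) * A8 := by positivity
  have r3 : 0 ≤ (sa + sb + sc) * A7 := by positivity
  have k4 : 0 < 4 * (D * (V * M)) - 4 * (83 / 40) * (V * (μ * (D * Real.exp (P - 2 * a)))) -
      50 * (V * ((81 * a ^ 2 - 36 * a + 2) * (D * Real.exp (P - 8 * a)))) := by
    have := mul_pos (mul_pos hD0 hV) hfin'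
    clear * - this
    linarith
  have key := st7 (X := Real.exp (-a) * Real.exp (-b) * Real.exp (-c) *
      (-V * (Real.exp a * (1 + sa) * ((1 + tb) * (1 + tc)) +
      Real.exp b * (1 + sb) * ((1 + ta) * (1 + tc)) +
      Real.exp c * (1 + sc) * ((1 + ta) * (1 + tb))) + B0 - B2)) i1 i6 r1 r2 r3
      (Q := 50 * (V * ((81 * a ^ 2 - 36 * a + 2) * (D * Real.exp (P - 8 * a))))) (by
        clear * - k4 k2 t4
        linarith) t5
  clear * - key
  linarith

end Pool.Agent.Lib.EPB
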