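import Pool.Agent.Lib.EPT.Tri
import Pool.Agent.Lib.EPB.Defs
import Pool.Agent.Lib.EPL.T1

/-!
# The three-dimensional sums over the body centred lattice and over its dual

PROOF.  `u1 + u2 = 2 x0`, `u1 - u3 = 2 x1`, `u2 - u3 = 2 x2`: the map `x ↦ (u1 x, u2 x, u3 x)` is a bijection
of `Z³` onto the triples of integers of the same parity: `x` with `x0 + x1 + x2` even come from the even triples
`(2m1, 2m2, 2m3)`, `x = (m1 + m2, m1 - m3, m2 - m3)`, those with an odd sum from the odd triples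
`(2m1 + 1, 2m2 + 1, 2m3 + 1)`, `x = (m1 + m2 + 1, m1 - m3, m2 - m3)`.  So there is an equivalence
`(ℤ × ℤ × ℤ) ⊕ (ℤ × ℤ × ℤ) ≃ (Fin 3 → ℤ)`, `Equiv.tsum_eq`, `Summable.tsum_sum`, and each of the two sums is a sum of
three products (`EPT.tri_sum`; all functions are nonnegative).
`w1 = y0 + y1`, `w2 = y0 + y2`, `w3 = -(y1 + y2)`: `y ↦ (w1 y, w2 y, w3 y)` is a bijection onto the triples with even
sum (`y0 = (w1 + w2 + w3)/2`, `y1 = w1 - y0`, `y2 = w2 - y0`), i.e. onto the disjoint union of the four classes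
`(2m1, 2m2, 2m3)`, `(2m1, 2m2 + 1, 2m3 + 1)`, `(2m1 + 1, 2m2, 2m3 + 1)`, `(2m1 + 1, 2m2 + 1, 2m3)`.
One-dimensional summability: `∑ exp (-(x m²))` and `∑ m² exp (-(x m²))` over `ℤ` (for instance from
`m² ≥ |m|`, or `EPL.summable_nn_exp`, or by comparison with `Real.summable_exp_neg...`).
-/

namespace Pool.Agent.Lib.EPB

open Pool.Agent.Lib.EPT

namespace LatAux

/-- one-dimensional terms -/
noncomputable def h0 (σ x : ℝ) (m : ℤ) : ℝ := Real.exp (-(x * (2 * (m : ℝ) + σ) ^ 2))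

/-- one-dimensional terms with the second moment -/
noncomputable def h1 (σ x : ℝ) (m : ℤ) : ℝ :=
  (2 * (m : ℝ) + σ) ^ 2 * Real.exp (-(x * (2 * (m : ℝ) + σ) ^ 2))

lemma h0_nn (σ x : ℝ) (m : ℤ) : 0 ≤ h0 σ x m := (Real.exp_pos _).le

lemma h1_nn (σ x : ℝ) (m : ℤ) : 0 ≤ h1 σ x m := mul_nonneg (sq_nonneg _) (Real.exp_pos _).le

lemma s0 (σ : ℝ) {x : ℝ} (hx : 0 < x) : Summable (h0 σ x) := by
  have h := EPL.summable_th (σ / 2) (by linarith : 0 < 4 * x)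
  refine h.congr fun m => ?_
  unfold h0
  congr 1
  ring

lemma s1 (σ : ℝ) {x : ℝ} (hx : 0 < x) : Summable (h1 σ x) := by
  have h := (EPL.summable_th2 (σ / 2) (by linarith : 0 < 4 * x)).mul_left (1 / x)
  refine h.congr fun m => ?_
  unfold h1
  have e : 4 * x * ((m : ℝ) + σ / 2) ^ 2 = x * (2 * (m : ℝ) + σ) ^ 2 := by ring
  rw [e, ← mul_assoc, ← mul_assoc, one_div, inv_mul_cancel₀ hx.ne', one_mul]

lemma E0_eq (x : ℝ) : E0 x = ∑' m, h0 0 x m := by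
  unfold E0 h0
  simp only [add_zero]

lemma E1_eq (x : ℝ) : E1 x = ∑' m, h1 0 x m := by
  unfold E1 h1
  simp only [add_zero]

lemma O0_eq (x : ℝ) : O0 x = ∑' m, h0 1 x m := rfl

lemma O1_eq (x : ℝ) : O1 x = ∑' m, h1 1 x m := rfl

lemma part (α β γ σ τ ρ : ℝ) {a b c : ℝ} (ha : 0 < a) (hb : 0 < b) (hc : 0 < c) :
    HasSum (fun m : ℤ × ℤ × ℤ => (α * (2 * (m.1 : ℝ) + σ) ^ 2 + β * (2 * (m.2.1 : ℝ) + τ) ^ 2 +
      γ * (2 * (m.2.2 : ℝ) + ρ) ^ 2) * Real.exp (-(a * (2 * (m.1 : ℝ) + σ) ^ 2 +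
        b * (2 * (m.2.1 : ℝ) + τ) ^ 2 + c * (2 * (m.2.2 : ℝ) + ρ) ^ 2)))
      (α * ((∑' m, h1 σ a m) * (∑' m, h0 τ b m) * ∑' m, h0 ρ c m) +
        β * ((∑' m, h0 σ a m) * (∑' m, h1 τ b m) * ∑' m, h0 ρ c m) +
        γ * ((∑' m, h0 σ a m) * (∑' m, h0 τ b m) * ∑' m, h1 ρ c m)) := by
  obtain ⟨p1, q1⟩ := tri_sum (h1_nn σ a) (h0_nn τ b) (h0_nn ρ c) (s1 σ ha) (s0 τ hb) (s0 ρ hc)
  obtain ⟨p2, q2⟩ := tri_sum (h0_nn σ a) (h1_nn τ b) (h0_nn ρ c) (s0 σ ha) (s1 τ hb) (s0 ρ hc)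
  obtain ⟨p3, q3⟩ := tri_sum (h0_nn σ a) (h0_nn τ b) (h1_nn ρ c) (s0 σ ha) (s0 τ hb) (s1 ρ hc)
  have k1 := p1.hasSum
  have k2 := p2.hasSum
  have k3 := p3.hasSum
  rw [q1] at k1
  rw [q2] at k2
  rw [q3] at k3
  have k := ((k1.mul_left α).add (k2.mul_left β)).add (k3.mul_left γ)
  have e : (fun m : ℤ × ℤ × ℤ => (α * (2 * (m.1 : ℝ) + σ) ^ 2 + β * (2 * (m.2.1 : ℝ) + τ) ^ 2 +
      γ * (2 * (m.2.2 : ℝ) + ρ) ^ 2) * Real.exp (-(a * (2 * (m.1 : ℝ) + σ) ^ 2 +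
        b * (2 * (m.2.1 : ℝ) + τ) ^ 2 + c * (2 * (m.2.2 : ℝ) + ρ) ^ 2))) =
      fun m : ℤ × ℤ × ℤ => α * (h1 σ a m.1 * h0 τ b m.2.1 * h0 ρ c m.2.2) +
        β * (h0 σ a m.1 * h1 τ b m.2.1 * h0 ρ c m.2.2) +
        γ * (h0 σ a m.1 * h0 τ b m.2.1 * h1 ρ c m.2.2) := by
    funext m
    unfold h0 h1
    rw [show -(a * (2 * (m.1 : ℝ) + σ) ^ 2 + b * (2 * (m.2.1 : ℝ) + τ) ^ 2 +
        c * (2 * (m.2.2 : ℝ) + ρ) ^ 2) = -(a * (2 * (m.1 : ℝ) + σ) ^ 2) +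
        -(b * (2 * (m.2.1 : ℝ) + τ) ^ 2) + -(c * (2 * (m.2.2 : ℝ) + ρ) ^ 2) by ring,
      Real.exp_add, Real.exp_add]
    ring
  rw [e]
  exact k

/-- the two parity classes -/
def fi : (ℤ × ℤ × ℤ) ⊕ (ℤ × ℤ × ℤ) → (Fin 3 → ℤ)
  | Sum.inl m => ![m.1 + m.2.1, m.1 - m.2.2, m.2.1 - m.2.2]
  | Sum.inr m => ![m.1 + m.2.1 + 1, m.1 - m.2.2, m.2.1 - m.2.2]

lemma fi_bij : Function.Bijective fi := by
  constructor
  · rintro (⟨a, b, c⟩ | ⟨a, b, c⟩) (⟨a', b', c'⟩ | ⟨a', b', c'⟩) h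
    all_goals
      have k0 := congrFun h 0
      have k1 := congrFun h 1
      have k2 := congrFun h 2
      simp only [fi, Matrix.cons_val_zero, Matrix.cons_val_one, Matrix.cons_val] at k0 k1 k2
    · have e1 : a = a' := by omega
      have e2 : b = b' := by omega
      have e3 : c = c' := by omega
      rw [e1, e2, e3]
    · omega
    · omega
    · have e1 : a = a' := by omega
      have e2 : b = b' := by omega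
      have e3 : c = c' := by omega
      rw [e1, e2, e3]
  · intro x
    by_cases h : (x 0 + x 1 + x 2) % 2 = 0
    · refine ⟨Sum.inl (u1 x / 2, u2 x / 2, u3 x / 2), ?_⟩
      funext i
      unfold u1 u2 u3
      fin_cases i
      · show (x 0 + x 1 - x 2) / 2 + (x 0 - x 1 + x 2) / 2 = x 0
        omega
      · show (x 0 + x 1 - x 2) / 2 - (x 0 - x 1 - x 2) / 2 = x 1
        omega
      · show (x 0 - x 1 + x 2) / 2 - (x 0 - x 1 - x 2) / 2 = x 2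
        omega
    · refine ⟨Sum.inr (u1 x / 2, u2 x / 2, u3 x / 2), ?_⟩
      funext i
      unfold u1 u2 u3
      fin_cases i
      · show (x 0 + x 1 - x 2) / 2 + (x 0 - x 1 + x 2) / 2 + 1 = x 0
        omega
      · show (x 0 + x 1 - x 2) / 2 - (x 0 - x 1 - x 2) / 2 = x 1
        omega
      · show (x 0 - x 1 + x 2) / 2 - (x 0 - x 1 - x 2) / 2 = x 2
        omega

/-- the four parity classes -/
def gi : ((ℤ × ℤ × ℤ) ⊕ (ℤ × ℤ × ℤ)) ⊕ ((ℤ × ℤ × ℤ) ⊕ (ℤ × ℤ × ℤ)) → (Fin 3 → ℤ)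
  | Sum.inl (Sum.inl m) => ![m.1 + m.2.1 + m.2.2, m.1 - m.2.1 - m.2.2, m.2.1 - m.1 - m.2.2]
  | Sum.inl (Sum.inr m) =>
      ![m.1 + m.2.1 + m.2.2 + 1, m.1 - m.2.1 - m.2.2 - 1, m.2.1 - m.1 - m.2.2]
  | Sum.inr (Sum.inl m) =>
      ![m.1 + m.2.1 + m.2.2 + 1, m.1 - m.2.1 - m.2.2, m.2.1 - m.1 - m.2.2 - 1]
  | Sum.inr (Sum.inr m) => ![m.1 + m.2.1 + m.2.2 + 1, m.1 - m.2.1 - m.2.2, m.2.1 - m.1 - m.2.2]

lemma gi_bij : Function.Bijective gi := by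
  constructor
  · rintro ((⟨a, b, c⟩ | ⟨a, b, c⟩) | (⟨a, b, c⟩ | ⟨a, b, c⟩))
      ((⟨a', b', c'⟩ | ⟨a', b', c'⟩) | (⟨a', b', c'⟩ | ⟨a', b', c'⟩)) h
    all_goals
      have k0 := congrFun h 0
      have k1 := congrFun h 1
      have k2 := congrFun h 2
      simp only [gi, Matrix.cons_val_zero, Matrix.cons_val_one, Matrix.cons_val] at k0 k1 k2
      first
        | (exfalso; omega)
        | (have e1 : a = a' := by omega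
           have e2 : b = b' := by omega
           have e3 : c = c' := by omega
           rw [e1, e2, e3])
  · intro y
    by_cases p1 : (y 0 + y 1) % 2 = 0 <;> by_cases p2 : (y 0 + y 2) % 2 = 0
    · refine ⟨Sum.inl (Sum.inl (w1 y / 2, w2 y / 2, w3 y / 2)), ?_⟩
      funext i
      unfold w1 w2 w3
      fin_cases i
      · show (y 0 + y 1) / 2 + (y 0 + y 2) / 2 + (-(y 1 + y 2)) / 2 = y 0
        omega
      · show (y 0 + y 1) / 2 - (y 0 + y 2) / 2 - (-(y 1 + y 2)) / 2 = y 1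
        omega
      · show (y 0 + y 2) / 2 - (y 0 + y 1) / 2 - (-(y 1 + y 2)) / 2 = y 2
        omega
    · refine ⟨Sum.inl (Sum.inr (w1 y / 2, w2 y / 2, w3 y / 2)), ?_⟩
      funext i
      unfold w1 w2 w3
      fin_cases i
      · show (y 0 + y 1) / 2 + (y 0 + y 2) / 2 + (-(y 1 + y 2)) / 2 + 1 = y 0
        omega
      · show (y 0 + y 1) / 2 - (y 0 + y 2) / 2 - (-(y 1 + y 2)) / 2 - 1 = y 1
        omega
      · show (y 0 + y 2) / 2 - (y 0 + y 1) / 2 - (-(y 1 + y 2)) / 2 = y 2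
        omega
    · refine ⟨Sum.inr (Sum.inl (w1 y / 2, w2 y / 2, w3 y / 2)), ?_⟩
      funext i
      unfold w1 w2 w3
      fin_cases i
      · show (y 0 + y 1) / 2 + (y 0 + y 2) / 2 + (-(y 1 + y 2)) / 2 + 1 = y 0
        omega
      · show (y 0 + y 1) / 2 - (y 0 + y 2) / 2 - (-(y 1 + y 2)) / 2 = y 1
        omega
      · show (y 0 + y 2) / 2 - (y 0 + y 1) / 2 - (-(y 1 + y 2)) / 2 - 1 = y 2
        omega
    · refine ⟨Sum.inr (Sum.inr (w1 y / 2, w2 y / 2, w3 y / 2)), ?_⟩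
      funext i
      unfold w1 w2 w3
      fin_cases i
      · show (y 0 + y 1) / 2 + (y 0 + y 2) / 2 + (-(y 1 + y 2)) / 2 + 1 = y 0
        omega
      · show (y 0 + y 1) / 2 - (y 0 + y 2) / 2 - (-(y 1 + y 2)) / 2 = y 1
        omega
      · show (y 0 + y 2) / 2 - (y 0 + y 1) / 2 - (-(y 1 + y 2)) / 2 = y 2
        omega

end LatAux

open LatAux

theorem dir_sum (α β γ : ℝ) {a b c : ℝ} (ha : 0 < a) (hb : 0 < b) (hc : 0 < c) :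
    ∑' x : Fin 3 → ℤ, (α * (u1 x : ℝ) ^ 2 + β * (u2 x : ℝ) ^ 2 + γ * (u3 x : ℝ) ^ 2) *
      Real.exp (-(a * (u1 x : ℝ) ^ 2 + b * (u2 x : ℝ) ^ 2 + c * (u3 x : ℝ) ^ 2)) =
    α * (E1 a * E0 b * E0 c + O1 a * O0 b * O0 c) +
    β * (E0 a * E1 b * E0 c + O0 a * O1 b * O0 c) +
    γ * (E0 a * E0 b * E1 c + O0 a * O0 b * O1 c) := by
  set G : (Fin 3 → ℤ) → ℝ := fun x =>
    (α * (u1 x : ℝ) ^ 2 + β * (u2 x : ℝ) ^ 2 + γ * (u3 x : ℝ) ^ 2) *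
      Real.exp (-(a * (u1 x : ℝ) ^ 2 + b * (u2 x : ℝ) ^ 2 + c * (u3 x : ℝ) ^ 2)) with hG
  have hval : ∀ (x : Fin 3 → ℤ) (A B C : ℝ), (u1 x : ℝ) = A → (u2 x : ℝ) = B → (u3 x : ℝ) = C →
      G x = (α * A ^ 2 + β * B ^ 2 + γ * C ^ 2) * Real.exp (-(a * A ^ 2 + b * B ^ 2 + c * C ^ 2)) := by
    rintro x A B C rfl rfl rfl
    rfl
  have k1 := part α β γ 0 0 0 ha hb hc
  have k2 := part α β γ 1 1 1 ha hb hc
  have f1 : G ∘ fi ∘ Sum.inl = fun m : ℤ × ℤ × ℤ =>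
      (α * (2 * (m.1 : ℝ) + 0) ^ 2 + β * (2 * (m.2.1 : ℝ) + 0) ^ 2 +
      γ * (2 * (m.2.2 : ℝ) + 0) ^ 2) * Real.exp (-(a * (2 * (m.1 : ℝ) + 0) ^ 2 +
        b * (2 * (m.2.1 : ℝ) + 0) ^ 2 + c * (2 * (m.2.2 : ℝ) + 0) ^ 2)) := by
    funext m
    apply hval
    · show (((m.1 + m.2.1) + (m.1 - m.2.2) - (m.2.1 - m.2.2) : ℤ) : ℝ) = _
      push_cast; ring
    · show (((m.1 + m.2.1) - (m.1 - m.2.2) + (m.2.1 - m.2.2) : ℤ) : ℝ) = _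
      push_cast; ring
    · show (((m.1 + m.2.1) - (m.1 - m.2.2) - (m.2.1 - m.2.2) : ℤ) : ℝ) = _
      push_cast; ring
  have f2 : G ∘ fi ∘ Sum.inr = fun m : ℤ × ℤ × ℤ =>
      (α * (2 * (m.1 : ℝ) + 1) ^ 2 + β * (2 * (m.2.1 : ℝ) + 1) ^ 2 +
      γ * (2 * (m.2.2 : ℝ) + 1) ^ 2) * Real.exp (-(a * (2 * (m.1 : ℝ) + 1) ^ 2 +
        b * (2 * (m.2.1 : ℝ) + 1) ^ 2 + c * (2 * (m.2.2 : ℝ) + 1) ^ 2)) := by
    funext m
    apply hval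
    · show (((m.1 + m.2.1 + 1) + (m.1 - m.2.2) - (m.2.1 - m.2.2) : ℤ) : ℝ) = _
      push_cast; ring
    · show (((m.1 + m.2.1 + 1) - (m.1 - m.2.2) + (m.2.1 - m.2.2) : ℤ) : ℝ) = _
      push_cast; ring
    · show (((m.1 + m.2.1 + 1) - (m.1 - m.2.2) - (m.2.1 - m.2.2) : ℤ) : ℝ) = _
      push_cast; ring
  rw [← f1] at k1
  rw [← f2] at k2
  have k3 : HasSum (G ∘ fi) _ := HasSum.sum (f := G ∘ fi) k1 k2
  have k4 := ((Equiv.ofBijective fi fi_bij).hasSum_iff (f := G)).1 k3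
  rw [k4.tsum_eq, E0_eq, E0_eq, E0_eq, E1_eq, E1_eq, E1_eq, O0_eq, O0_eq, O0_eq, O1_eq, O1_eq, O1_eq]
  ring

theorem dual_sum (α β γ : ℝ) {a b c : ℝ} (ha : 0 < a) (hb : 0 < b) (hc : 0 < c) :
    ∑' y : Fin 3 → ℤ, (α * (w1 y : ℝ) ^ 2 + β * (w2 y : ℝ) ^ 2 + γ * (w3 y : ℝ) ^ 2) *
      Real.exp (-(a * (w1 y : ℝ) ^ 2 + b * (w2 y : ℝ) ^ 2 + c * (w3 y : ℝ) ^ 2)) =
    α * (E1 a * E0 b * E0 c + E1 a * O0 b * O0 c + O1 a * E0 b * O0 c + O1 a * O0 b * E0 c) +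
    β * (E0 a * E1 b * E0 c + E0 a * O1 b * O0 c + O0 a * E1 b * O0 c + O0 a * O1 b * E0 c) +
    γ * (E0 a * E0 b * E1 c + E0 a * O0 b * O1 c + O0 a * E0 b * O1 c + O0 a * O0 b * E1 c) := by
  set G : (Fin 3 → ℤ) → ℝ := fun x =>
    (α * (w1 x : ℝ) ^ 2 + β * (w2 x : ℝ) ^ 2 + γ * (w3 x : ℝ) ^ 2) *
      Real.exp (-(a * (w1 x : ℝ) ^ 2 + b * (w2 x : ℝ) ^ 2 + c * (w3 x : ℝ) ^ 2)) with hG
  have hval : ∀ (x : Fin 3 → ℤ) (A B C : ℝ), (w1 x : ℝ) = A → (w2 x : ℝ) = B → (w3 x : ℝ) = C →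
      G x = (α * A ^ 2 + β * B ^ 2 + γ * C ^ 2) * Real.exp (-(a * A ^ 2 + b * B ^ 2 + c * C ^ 2)) := by
    rintro x A B C rfl rfl rfl
    rfl
  have k1 := part α β γ 0 0 0 ha hb hc
  have k2 := part α β γ 0 1 1 ha hb hc
  have k3 := part α β γ 1 0 1 ha hb hc
  have k4 := part α β γ 1 1 0 ha hb hc
  have f1 : (G ∘ gi ∘ Sum.inl) ∘ Sum.inl = fun m : ℤ × ℤ × ℤ =>
      (α * (2 * (m.1 : ℝ) + 0) ^ 2 + β * (2 * (m.2.1 : ℝ) + 0) ^ 2 +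
      γ * (2 * (m.2.2 : ℝ) + 0) ^ 2) * Real.exp (-(a * (2 * (m.1 : ℝ) + 0) ^ 2 +
        b * (2 * (m.2.1 : ℝ) + 0) ^ 2 + c * (2 * (m.2.2 : ℝ) + 0) ^ 2)) := by
    funext m
    apply hval
    · show (((m.1 + m.2.1 + m.2.2) + (m.1 - m.2.1 - m.2.2) : ℤ) : ℝ) = _
      push_cast; ring
    · show (((m.1 + m.2.1 + m.2.2) + (m.2.1 - m.1 - m.2.2) : ℤ) : ℝ) = _
      push_cast; ring
    · show ((-((m.1 - m.2.1 - m.2.2) + (m.2.1 - m.1 - m.2.2)) : ℤ) : ℝ) = _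
      push_cast; ring
  have f2 : (G ∘ gi ∘ Sum.inl) ∘ Sum.inr = fun m : ℤ × ℤ × ℤ =>
      (α * (2 * (m.1 : ℝ) + 0) ^ 2 + β * (2 * (m.2.1 : ℝ) + 1) ^ 2 +
      γ * (2 * (m.2.2 : ℝ) + 1) ^ 2) * Real.exp (-(a * (2 * (m.1 : ℝ) + 0) ^ 2 +
        b * (2 * (m.2.1 : ℝ) + 1) ^ 2 + c * (2 * (m.2.2 : ℝ) + 1) ^ 2)) := by
    funext m
    apply hval
    · show (((m.1 + m.2.1 + m.2.2 + 1) + (m.1 - m.2.1 - m.2.2 - 1) : ℤ) : ℝ) = _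
      push_cast; ring
    · show (((m.1 + m.2.1 + m.2.2 + 1) + (m.2.1 - m.1 - m.2.2) : ℤ) : ℝ) = _
      push_cast; ring
    · show ((-((m.1 - m.2.1 - m.2.2 - 1) + (m.2.1 - m.1 - m.2.2)) : ℤ) : ℝ) = _
      push_cast; ring
  have f3 : (G ∘ gi ∘ Sum.inr) ∘ Sum.inl = fun m : ℤ × ℤ × ℤ =>
      (α * (2 * (m.1 : ℝ) + 1) ^ 2 + β * (2 * (m.2.1 : ℝ) + 0) ^ 2 +
      γ * (2 * (m.2.2 : ℝ) + 1) ^ 2) * Real.exp (-(a * (2 * (m.1 : ℝ) + 1) ^ 2 +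
        b * (2 * (m.2.1 : ℝ) + 0) ^ 2 + c * (2 * (m.2.2 : ℝ) + 1) ^ 2)) := by
    funext m
    apply hval
    · show (((m.1 + m.2.1 + m.2.2 + 1) + (m.1 - m.2.1 - m.2.2) : ℤ) : ℝ) = _
      push_cast; ring
    · show (((m.1 + m.2.1 + m.2.2 + 1) + (m.2.1 - m.1 - m.2.2 - 1) : ℤ) : ℝ) = _
      push_cast; ring
    · show ((-((m.1 - m.2.1 - m.2.2) + (m.2.1 - m.1 - m.2.2 - 1)) : ℤ) : ℝ) = _
      push_cast; ring
  have f4 : (G ∘ gi ∘ Sum.inr) ∘ Sum.inr = fun m : ℤ × ℤ × ℤ =>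
      (α * (2 * (m.1 : ℝ) + 1) ^ 2 + β * (2 * (m.2.1 : ℝ) + 1) ^ 2 +
      γ * (2 * (m.2.2 : ℝ) + 0) ^ 2) * Real.exp (-(a * (2 * (m.1 : ℝ) + 1) ^ 2 +
        b * (2 * (m.2.1 : ℝ) + 1) ^ 2 + c * (2 * (m.2.2 : ℝ) + 0) ^ 2)) := by
    funext m
    apply hval
    · show (((m.1 + m.2.1 + m.2.2 + 1) + (m.1 - m.2.1 - m.2.2) : ℤ) : ℝ) = _
      push_cast; ring
    · show (((m.1 + m.2.1 + m.2.2 + 1) + (m.2.1 - m.1 - m.2.2) : ℤ) : ℝ) = _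
      push_cast; ring
    · show ((-((m.1 - m.2.1 - m.2.2) + (m.2.1 - m.1 - m.2.2)) : ℤ) : ℝ) = _
      push_cast; ring
  rw [← f1] at k1
  rw [← f2] at k2
  rw [← f3] at k3
  rw [← f4] at k4
  have k5 := HasSum.sum (f := G ∘ gi ∘ Sum.inl) k1 k2
  have k6 := HasSum.sum (f := G ∘ gi ∘ Sum.inr) k3 k4
  have k7 : HasSum (G ∘ gi) _ := HasSum.sum (f := G ∘ gi) k5 k6
  have k8 := ((Equiv.ofBijective gi gi_bij).hasSum_iff (f := G)).1 k7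
  rw [k8.tsum_eq, E0_eq, E0_eq, E0_eq, E1_eq, E1_eq, E1_eq, O0_eq, O0_eq, O0_eq, O1_eq, O1_eq, O1_eq]
  ring

end Pool.Agent.Lib.EPB
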