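import Pool.Agent.Lib.EPT.Alg
import Pool.Agent.Lib.EPB.Lat
import Pool.Agent.Lib.EPB.Dua

/-!
# The derivative in the direction which preserves determinant and trace
-/

open Matrix
open scoped Matrix.Norms.Elementwise

namespace Pool.Agent.Lib.EPB

open Pool.Agent.Lib.EPT Pool.Agent.Lib.EpZ Pool.Agent.Lib.EPS Pool.Agent.Lib.EPL

/-- the diagonal form -/
noncomputable def qdir (A B C : ℝ) : Par := ⟨A, B, C, 0, 0, 0⟩
/-- the direction -/
noncomputable def hdir (A B C : ℝ) : Par := ⟨A * (B - C), B * (C - A), C * (A - B), 0, 0, 0⟩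

namespace NegAux

/-- the direction on the dual side -/
noncomputable def kdir (A B C : ℝ) : Par := ⟨(B - C) / A, (C - A) / B, (A - B) / C, 0, 0, 0⟩

theorem reg {A B C : ℝ} (hA : 3 / 4 ≤ A) (hAB : A ≤ B) (hBC : B ≤ C) (hC : C ≤ 2)
    (hs : A + B + C = 4) (hd : C - A ≤ 11 / 10) : Reg (qdir A B C) := by
  refine ⟨hs, hA, hAB, hBC, hC, hd, ?_, ?_⟩
  · have : 0 ≤ A * B * C := mul_nonneg (mul_nonneg (by linarith) (by linarith)) (by linarith)
    show 200 * (A * 0 ^ 2 + B * 0 ^ 2 + C * 0 ^ 2) ≤ A * B * C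
    simpa using this
  · show |(0 : ℝ)| ≤ 2 - C
    rw [abs_zero]
    linarith

theorem conj_poly (A B C x y z : ℝ) : (qdir A B C).mat * (⟨x, y, z, 0, 0, 0⟩ : Par).dmat *
    (qdir A B C).mat = (⟨A ^ 2 * x, B ^ 2 * y, C ^ 2 * z, 0, 0, 0⟩ : Par).mat := by
  ext i j
  fin_cases i <;> fin_cases j <;>
    simp [Par.mat, Par.dmat, qdir, Matrix.mul_apply, Fin.sum_univ_three] <;>
    ring

theorem trace_poly (A B C x y z : ℝ) : ((⟨x, y, z, 0, 0, 0⟩ : Par).dmat * (qdir A B C).mat).trace =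
    x * A + y * B + z * C := by
  simp only [trace_fin_three, Matrix.mul_apply, Fin.sum_univ_three]
  simp [Par.mat, Par.dmat, qdir]
  ring

theorem conj {A B C : ℝ} (hA : A ≠ 0) (hB : B ≠ 0) (hC : C ≠ 0) :
    (qdir A B C).mat * (kdir A B C).dmat * (qdir A B C).mat = (hdir A B C).mat := by
  unfold kdir hdir
  rw [conj_poly]
  have e1 : A ^ 2 * ((B - C) / A) = A * (B - C) := by field_simp
  have e2 : B ^ 2 * ((C - A) / B) = B * (C - A) := by field_simp
  have e3 : C ^ 2 * ((A - B) / C) = C * (A - B) := by field_simp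
  rw [e1, e2, e3]

theorem Th_h0 (A B C t : ℝ) : Th (qdir A B C).mat (hdir A B C).mat t =
    1 / 4 * ∑' x : Fin 3 → ℤ, (A * (B - C) * (u1 x : ℝ) ^ 2 + B * (C - A) * (u2 x : ℝ) ^ 2 +
        C * (A - B) * (u3 x : ℝ) ^ 2) *
      Real.exp (-(t * ((A * (u1 x : ℝ) ^ 2 + B * (u2 x : ℝ) ^ 2 + C * (u3 x : ℝ) ^ 2) / 4))) := by
  unfold Th
  rw [← tsum_mul_left]
  refine tsum_congr fun x => ?_
  rw [qf_mat, qf_mat]
  have e1 : (qdir A B C).Ex x + (qdir A B C).Kx x =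
      (A * (u1 x : ℝ) ^ 2 + B * (u2 x : ℝ) ^ 2 + C * (u3 x : ℝ) ^ 2) / 4 := by
    simp only [Par.Ex, Par.Kx, qdir]
    ring
  have e2 : (hdir A B C).Ex x + (hdir A B C).Kx x = 1 / 4 * (A * (B - C) * (u1 x : ℝ) ^ 2 +
      B * (C - A) * (u2 x : ℝ) ^ 2 + C * (A - B) * (u3 x : ℝ) ^ 2) := by
    simp only [Par.Ex, Par.Kx, hdir]
    ring
  rw [e1, e2]
  ring

theorem kI_le (n : ℕ) : 1 + 3 * (n : ℝ) ≤ kI n := by
  unfold kI
  have h : (0 : ℝ) ≤ n := Nat.cast_nonneg n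
  rcases Nat.eq_zero_or_pos n with h0 | h0
  · rw [h0]; norm_num
  · have : (1 : ℝ) ≤ n := by exact_mod_cast h0
    nlinarith

theorem kH_le (n : ℕ) : 1 + 3 * (n : ℝ) ≤ kH n := by
  unfold kH
  have h : (0 : ℝ) ≤ n := Nat.cast_nonneg n
  nlinarith

/-- the direct side -/
theorem S_dir {A B C : ℝ} (hA : 3 / 4 ≤ A) (hAB : A < B) (hBC : B < C) {t : ℝ}
    (ht : 387 / 100 ≤ t) :
    ∑' x : Fin 3 → ℤ, (A * (B - C) * (u1 x : ℝ) ^ 2 + B * (C - A) * (u2 x : ℝ) ^ 2 +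
        C * (A - B) * (u3 x : ℝ) ^ 2) *
      Real.exp (-(t * ((A * (u1 x : ℝ) ^ 2 + B * (u2 x : ℝ) ^ 2 + C * (u3 x : ℝ) ^ 2) / 4))) < 0 := by
  have ht0 : 0 < t := by linarith
  have hA0 : 0 < A := by linarith
  have hX : 29 / 10 ≤ t * A := by nlinarith
  have hXY : t * A < t * B := mul_lt_mul_of_pos_left hAB ht0
  have hYZ : t * B < t * C := mul_lt_mul_of_pos_left hBC ht0
  have e : ∀ x : Fin 3 → ℤ, -(t * ((A * (u1 x : ℝ) ^ 2 + B * (u2 x : ℝ) ^ 2 +
      C * (u3 x : ℝ) ^ 2) / 4)) = -(t * A / 4 * (u1 x : ℝ) ^ 2 + t * B / 4 * (u2 x : ℝ) ^ 2 +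
        t * C / 4 * (u3 x : ℝ) ^ 2) := fun x => by ring
  simp only [e]
  have p1 : 0 < t * A / 4 := by positivity
  have p2 : 0 < t * B / 4 := by linarith
  have p3 : 0 < t * C / 4 := by linarith
  rw [dir_sum _ _ _ p1 p2 p3]
  have j1 := J3_dir kI_le (c := 2) (by norm_num) le_rfl hX hXY hYZ
  have j2 := J3_dir kH_le (c := 1) (by norm_num) (by norm_num) hX hXY hYZ
  have f1 : ∀ z : ℝ, 4 * (z / 4) = z := fun z => by ring
  rw [O1_eq p1, O1_eq p2, O1_eq p3, E0_eq p1, E0_eq p2, E0_eq p3, E1_eq p1, E1_eq p2, E1_eq p3,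
    O0_eq p1, O0_eq p2, O0_eq p3, f1, f1, f1]
  unfold J3 at j1 j2
  beta_reduce at j1 j2
  set X := t * A with hXd
  set Y := t * B with hYd
  set Z := t * C with hZd
  generalize Tk kI 2 X = s1 at *
  generalize Tk kI 2 Y = s2 at *
  generalize Tk kI 2 Z = s3 at *
  generalize Tk kH 1 X = r1 at *
  generalize Tk kH 1 Y = r2 at *
  generalize Tk kH 1 Z = r3 at *
  generalize Tk1 kI 2 X = m1 at *
  generalize Tk1 kI 2 Y = m2 at *
  generalize Tk1 kI 2 Z = m3 at *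
  generalize Tk1 kH 1 X = n1 at *
  generalize Tk1 kH 1 Y = n2 at *
  generalize Tk1 kH 1 Z = n3 at *
  have hE1 := Real.exp_pos (-(X / 4))
  have hE2 := Real.exp_pos (-(Y / 4))
  have hE3 := Real.exp_pos (-(Z / 4))
  generalize Real.exp (-(X / 4)) = y1 at *
  generalize Real.exp (-(Y / 4)) = y2 at *
  generalize Real.exp (-(Z / 4)) = y3 at *
  have hy : 0 < y1 * y2 * y3 := by positivity
  have j3 := mul_pos hy j2
  have hfin : 0 < 4 * ((Z - Y) * (X * m1) * ((1 + s2) * (1 + s3)) -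
      (Z - X) * (Y * m2) * ((1 + s1) * (1 + s3)) + (Y - X) * (Z * m3) * ((1 + s1) * (1 + s2))) +
      32 * (y1 * y2 * y3 * ((Z - Y) * (X * n1) * ((1 + r2) * (1 + r3)) -
      (Z - X) * (Y * n2) * ((1 + r1) * (1 + r3)) +
      (Y - X) * (Z * n3) * ((1 + r1) * (1 + r2)))) := by linarith
  have ht2 : 0 < t ^ 2 := by positivity
  refine neg_of_mul_neg_right (a := t ^ 2) ?_ ht2.le
  have e2 : t ^ 2 * (A * (B - C) * (4 * m1 * (1 + s2) * (1 + s3) +
        (2 * y1 * (1 + r1) + 8 * y1 * n1) * (2 * y2 * (1 + r2)) * (2 * y3 * (1 + r3))) +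
      B * (C - A) * ((1 + s1) * (4 * m2) * (1 + s3) +
        (2 * y1 * (1 + r1)) * (2 * y2 * (1 + r2) + 8 * y2 * n2) * (2 * y3 * (1 + r3))) +
      C * (A - B) * ((1 + s1) * (1 + s2) * (4 * m3) +
        (2 * y1 * (1 + r1)) * (2 * y2 * (1 + r2)) * (2 * y3 * (1 + r3) + 8 * y3 * n3))) =
      -(4 * ((Z - Y) * (X * m1) * ((1 + s2) * (1 + s3)) -
      (Z - X) * (Y * m2) * ((1 + s1) * (1 + s3)) + (Y - X) * (Z * m3) * ((1 + s1) * (1 + s2))) +
      32 * (y1 * y2 * y3 * ((Z - Y) * (X * n1) * ((1 + r2) * (1 + r3)) -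
      (Z - X) * (Y * n2) * ((1 + r1) * (1 + r3)) +
      (Y - X) * (Z * n3) * ((1 + r1) * (1 + r2))))) := by
    rw [hXd, hYd, hZd]
    ring
  rw [e2]
  linarith

/-- the dual side -/
theorem S_dual {A B C : ℝ} (hA : 3 / 4 ≤ A) (hAB : A < B) (hBC : B < C) (hC : C ≤ 2)
    (hs : A + B + C = 4) (hd : C - A ≤ 11 / 10) {t : ℝ} (ht : 0 < t) (ht' : t ≤ 387 / 100) :
    Th (qdir A B C).mat (hdir A B C).mat t < 0 := by
  have hA0 : 0 < A := by linarith
  have hB0 : 0 < B := by linarith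
  have hC0 : 0 < C := by linarith
  have hR := reg hA hAB.le hBC.le hC hs hd
  have hpd := hR.pd_mat
  have hu : IsUnit (qdir A B C).mat.det := hpd.det_pos.ne'.isUnit
  have hcj := conj hA0.ne' hB0.ne' hC0.ne'
  have i1 : (qdir A B C).mat⁻¹ * (hdir A B C).mat = (kdir A B C).dmat * (qdir A B C).mat := by
    rw [← hcj, Matrix.mul_assoc (qdir A B C).mat, ← Matrix.mul_assoc, Matrix.nonsing_inv_mul _ hu,
      Matrix.one_mul]
  have htr : ((qdir A B C).mat⁻¹ * (hdir A B C).mat).trace = 0 := by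
    rw [i1]
    unfold kdir
    rw [trace_poly]
    field_simp
    ring
  have i2 : (qdir A B C).mat⁻¹ * (hdir A B C).mat * (qdir A B C).mat⁻¹ = (kdir A B C).dmat := by
    rw [i1, Matrix.mul_assoc, Matrix.mul_nonsing_inv _ hu, Matrix.mul_one]
  have key := Th_dual_symm hpd (mat_symm (hdir A B C)) htr ht
  rw [i2, hR.mat_inv] at key
  rw [key]
  have hCt := Ct_pos hpd ht
  refine neg_neg_of_pos (mul_pos hCt ?_)
  -- the dual sum
  set T := Real.pi ^ 2 / t with hT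
  have hpi := Real.pi_pos
  have hT0 : 0 < T := by positivity
  have hpi2 : (98685 : ℝ) / 10000 ≤ Real.pi ^ 2 := by
    have h1 : (31415 : ℝ) / 10000 < Real.pi := by
      have := Real.pi_gt_d4
      linarith
    nlinarith
  have hTC : 51 / 40 ≤ T / C := by
    rw [hT, div_div, le_div_iff₀ (by positivity)]
    have : t * C ≤ 387 / 100 * 2 := mul_le_mul ht' hC hC0.le (by norm_num)
    nlinarith
  have hCB : T / C < T / B := div_lt_div_of_pos_left hT0 hB0 hBC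
  have hBA : T / B < T / A := div_lt_div_of_pos_left hT0 hA0 hAB
  have hP : T / B + T / A - 2 * (T / C) ≤ 41 / 20 * (T / C) := by
    -- 20 C (A + B) ≤ 81 A B
    have h1 : 20 * C * (A + B) ≤ 81 * (A * B) := by
      rcases le_total C (37 / 20) with h | h
      · -- A B ≥ 3/4 (4 - C - 3/4)
        have h2 : 0 ≤ (A - 3 / 4) * (B - 3 / 4) := mul_nonneg (by linarith) (by linarith)
        have h3 : A + B = 4 - C := by linarith
        nlinarith
      · have h2 : 0 ≤ (A - (C - 11 / 10)) * (B - (C - 11 / 10)) :=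
          mul_nonneg (by linarith) (by linarith)
        have h3 : A + B = 4 - C := by linarith
        nlinarith
    have h4 : T / B + T / A = T * (A + B) / (A * B) := by field_simp
    have h5 : T * (A + B) / (A * B) ≤ 81 / 20 * (T / C) := by
      rw [div_le_iff₀ (by positivity)]
      have : 81 / 20 * (T / C) * (A * B) = T / C * (81 * (A * B)) / 20 := by ring
      rw [this]
      have h6 := mul_le_mul_of_nonneg_left h1 (by positivity : 0 ≤ T / C)
      have h7 : T / C * (20 * C * (A + B)) = 20 * (T * (A + B)) := by field_simp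
      rw [h7] at h6
      linarith
    linarith
  have hN := N_pos hTC hCB hBA hP
  have hinv : (qdir A B C).inv = ⟨1 / A, 1 / B, 1 / C, 0, 0, 0⟩ := by
    unfold Par.inv Par.dt Par.W Par.pp qdir
    simp only [Par.mk.injEq]
    refine ⟨?_, ?_, ?_, ?_, ?_, ?_⟩ <;> field_simp <;> ring
  have hsum : Th (qdir A B C).inv.dmat (kdir A B C).dmat T =
      ∑' y : Fin 3 → ℤ, ((B - C) / A * (w1 y : ℝ) ^ 2 + (C - A) / B * (w2 y : ℝ) ^ 2 +
        (A - B) / C * (w3 y : ℝ) ^ 2) *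
      Real.exp (-(T / A * (w1 y : ℝ) ^ 2 + T / B * (w2 y : ℝ) ^ 2 + T / C * (w3 y : ℝ) ^ 2)) := by
    unfold Th
    refine tsum_congr fun y => ?_
    rw [qf_dmat, qf_dmat, hinv]
    have e1 : T * ((⟨1 / A, 1 / B, 1 / C, 0, 0, 0⟩ : Par).Ey y +
        (⟨1 / A, 1 / B, 1 / C, 0, 0, 0⟩ : Par).Ky y) =
        T / A * (w1 y : ℝ) ^ 2 + T / B * (w2 y : ℝ) ^ 2 + T / C * (w3 y : ℝ) ^ 2 := by
      simp only [Par.Ey, Par.Ky]
      ring
    have e2 : (kdir A B C).Ey y + (kdir A B C).Ky y = (B - C) / A * (w1 y : ℝ) ^ 2 +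
        (C - A) / B * (w2 y : ℝ) ^ 2 + (A - B) / C * (w3 y : ℝ) ^ 2 := by
      simp only [Par.Ey, Par.Ky, kdir]
      ring
    rw [e1, e2]
  rw [hsum, dual_sum _ _ _ (by positivity) (by positivity) (by positivity)]
  generalize E0 (T / A) = x1 at *
  generalize E0 (T / B) = x2 at *
  generalize E0 (T / C) = x3 at *
  generalize E1 (T / A) = y1 at *
  generalize E1 (T / B) = y2 at *
  generalize E1 (T / C) = y3 at *
  generalize O0 (T / A) = z1 at *
  generalize O0 (T / B) = z2 at *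
  generalize O0 (T / C) = z3 at *
  generalize O1 (T / A) = v1 at *
  generalize O1 (T / B) = v2 at *
  generalize O1 (T / C) = v3 at *
  have hm : 0 < A * B * C / T ^ 3 := by positivity
  have hN2 := mul_pos hm hN
  convert! hN2 using 1
  field_simp
  ring

end NegAux

open NegAux

/-- the derivative of the theta function in the direction `(A (B-C), B (C-A), C (A-B))` -/
theorem S_neg {A B C : ℝ} (hA : 3 / 4 ≤ A) (hAB : A < B) (hBC : B < C) (hC : C ≤ 2)
    (hs : A + B + C = 4) (hd : C - A ≤ 11 / 10) {t : ℝ} (ht : 0 < t) :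
    ∑' x : Fin 3 → ℤ, (A * (B - C) * (u1 x : ℝ) ^ 2 + B * (C - A) * (u2 x : ℝ) ^ 2 +
        C * (A - B) * (u3 x : ℝ) ^ 2) *
      Real.exp (-(t * ((A * (u1 x : ℝ) ^ 2 + B * (u2 x : ℝ) ^ 2 + C * (u3 x : ℝ) ^ 2) / 4))) < 0 := by
  rcases le_total (387 / 100) t with h | h
  · exact S_dir hA hAB hBC h
  · have h1 := S_dual hA hAB hBC hC hs hd ht h
    rw [Th_h0] at h1
    linarith

end Pool.Agent.Lib.EPB
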