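import Pool.Agent.Lib.EPB.Neg
import Pool.Agent.Lib.EPB.Lat
import Pool.Agent.Lib.EPH.Wide
import Pool.Agent.Lib.FCC.Perm
import Pool.Agent.Lib.EpZ.Gram

/-!
# The ridge

PROOF.  Let `3/4 ≤ y < x`, `y + 2 x = 4` (so `x - y ≤ 7/8`, `x ≤ 13/8`), `M = (⟨y, x, x, 0, 0, 0⟩ : Par).mat`.  For small `δ ≥ 0`
put `A = y + δ`, `m = (4 - A)/2`, `d = √(m² - y x²/A)`, `B = m - d`, `C = m + d`: `A + B + C = 4`, `A B C = y x²`,
`d² = δ (x (x - y)/y + O(δ))` is positive for small `δ > 0`: exactly `A (m² - y x²/A) = A (x - δ/2)² - y x² =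
δ (x² - x y - x δ + y δ/4 + δ²/4)`.  For small `δ > 0`: `3/4 ≤ A < B < C ≤ 2`, `C - A ≤ 11/10`.  Along the curve
`A' = 1`, `B' = B (C-A)/(A (B-C))`, `C' = C (A-B)/(A (B-C))` (implicit differentiation of the sum and of the product), so
for every `t > 0` the derivative of `δ ↦ ∑' x, exp (-(t Q_δ[x]))` is `-t / (4 A (B-C))` times the sum of `S_neg`, which is
negative (`B < C`, `S_neg`).  Hence the theta function at every `δ ∈ (0, δ0]` is smaller than at `δ = 0`, for all `t`; by the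
Mellin transform the energy `En s` at `δ` is smaller than at `0`; the matrices have the same determinant (`det_mat`) and tend
to `M` as `δ → 0`, so `M` is not a local minimum.
-/

open Matrix Filter Topology
open scoped Matrix.Norms.Elementwise

namespace Pool.Agent.Lib.EPB

open Pool.Agent.Lib.EPT Pool.Agent.Lib.EpZ Pool.Agent.Lib.FCC

namespace RidgeAux

open LatAux

/-- the one-dimensional sum -/
noncomputable def e0 (σ x : ℝ) : ℝ := ∑' m, h0 σ x m

/-- the one-dimensional sum of the moments -/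
noncomputable def e1 (σ x : ℝ) : ℝ := ∑' m, h1 σ x m

theorem h0_deriv (σ x : ℝ) (m : ℤ) : HasDerivAt (fun x => h0 σ x m) (-h1 σ x m) x := by
  unfold h0 h1
  have h := (((hasDerivAt_id x).mul_const ((2 * (m : ℝ) + σ) ^ 2)).neg).exp
  refine h.congr_deriv ?_
  simp only [id, Pi.neg_apply]
  ring

theorem e0_deriv (σ : ℝ) {a : ℝ} (ha : 0 < a) : HasDerivAt (e0 σ) (-e1 σ a) a := by
  have h := hasDerivAt_tsum_of_isPreconnected (u := h1 σ (a / 2)) (t := Set.Ioi (a / 2))
    (g := fun m x => h0 σ x m) (g' := fun m x => -h1 σ x m) (y₀ := a) (y := a)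
    (s1 σ (by linarith)) isOpen_Ioi isPreconnected_Ioi (fun m x _ => h0_deriv σ x m)
    (fun m x hx => by
      rw [norm_neg, Real.norm_of_nonneg (h1_nn σ x m)]
      unfold h1
      refine mul_le_mul_of_nonneg_left (Real.exp_le_exp.2 ?_) (sq_nonneg _)
      have h2 : a / 2 * (2 * (m : ℝ) + σ) ^ 2 ≤ x * (2 * (m : ℝ) + σ) ^ 2 :=
        mul_le_mul_of_nonneg_right (le_of_lt hx) (sq_nonneg _)
      linarith)
    (by simp only [Set.mem_Ioi]; linarith) (s0 σ ha) (by simp only [Set.mem_Ioi]; linarith)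
  unfold e1
  rw [← tsum_neg]
  exact h

/-- the product form of the theta function -/
theorem theta_sum {a b c : ℝ} (ha : 0 < a) (hb : 0 < b) (hc : 0 < c) :
    ∑' x : Fin 3 → ℤ, Real.exp (-(a * (u1 x : ℝ) ^ 2 + b * (u2 x : ℝ) ^ 2 + c * (u3 x : ℝ) ^ 2)) =
    e0 0 a * e0 0 b * e0 0 c + e0 1 a * e0 1 b * e0 1 c := by
  set G : (Fin 3 → ℤ) → ℝ := fun x =>
      Real.exp (-(a * (u1 x : ℝ) ^ 2 + b * (u2 x : ℝ) ^ 2 + c * (u3 x : ℝ) ^ 2)) with hG
  have hval : ∀ (x : Fin 3 → ℤ) (A B C : ℝ), (u1 x : ℝ) = A → (u2 x : ℝ) = B → (u3 x : ℝ) = C →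
      G x = Real.exp (-(a * A ^ 2 + b * B ^ 2 + c * C ^ 2)) := by
    rintro x A B C rfl rfl rfl
    rfl
  have pt : ∀ σ : ℝ, HasSum (fun m : ℤ × ℤ × ℤ => Real.exp (-(a * (2 * (m.1 : ℝ) + σ) ^ 2 +
      b * (2 * (m.2.1 : ℝ) + σ) ^ 2 + c * (2 * (m.2.2 : ℝ) + σ) ^ 2)))
      (e0 σ a * e0 σ b * e0 σ c) := by
    intro σ
    obtain ⟨p, q⟩ := tri_sum (h0_nn σ a) (h0_nn σ b) (h0_nn σ c) (s0 σ ha) (s0 σ hb) (s0 σ hc)
    have k := p.hasSum
    rw [q] at k
    have e : (fun m : ℤ × ℤ × ℤ => Real.exp (-(a * (2 * (m.1 : ℝ) + σ) ^ 2 +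
        b * (2 * (m.2.1 : ℝ) + σ) ^ 2 + c * (2 * (m.2.2 : ℝ) + σ) ^ 2))) =
        fun m : ℤ × ℤ × ℤ => h0 σ a m.1 * h0 σ b m.2.1 * h0 σ c m.2.2 := by
      funext m
      unfold h0
      rw [← Real.exp_add, ← Real.exp_add]
      congr 1
      ring
    rw [e]
    exact k
  have k1 := pt 0
  have k2 := pt 1
  have f1 : G ∘ fi ∘ Sum.inl = fun m : ℤ × ℤ × ℤ =>
      Real.exp (-(a * (2 * (m.1 : ℝ) + 0) ^ 2 +
        b * (2 * (m.2.1 : ℝ) + 0) ^ 2 + c * (2 * (m.2.2 : ℝ) + 0) ^ 2)) := by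
    funext m
    apply hval
    · show (((m.1 + m.2.1) + (m.1 - m.2.2) - (m.2.1 - m.2.2) : ℤ) : ℝ) = _
      push_cast; ring
    · show (((m.1 + m.2.1) - (m.1 - m.2.2) + (m.2.1 - m.2.2) : ℤ) : ℝ) = _
      push_cast; ring
    · show (((m.1 + m.2.1) - (m.1 - m.2.2) - (m.2.1 - m.2.2) : ℤ) : ℝ) = _
      push_cast; ring
  have f2 : G ∘ fi ∘ Sum.inr = fun m : ℤ × ℤ × ℤ =>
      Real.exp (-(a * (2 * (m.1 : ℝ) + 1) ^ 2 +
        b * (2 * (m.2.1 : ℝ) + 1) ^ 2 + c * (2 * (m.2.2 : ℝ) + 1) ^ 2)) := by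
    funext m
    apply hval
    · show (((m.1 + m.2.1 + 1) + (m.1 - m.2.2) - (m.2.1 - m.2.2) : ℤ) : ℝ) = _
      push_cast; ring
    · show (((m.1 + m.2.1 + 1) - (m.1 - m.2.2) + (m.2.1 - m.2.2) : ℤ) : ℝ) = _
      push_cast; ring
    · show (((m.1 + m.2.1 + 1) - (m.1 - m.2.2) - (m.2.1 - m.2.2) : ℤ) : ℝ) = _
      push_cast; ring
  rw [← f1] at k1
  rw [← f2] at k2
  have k3 : HasSum (G ∘ fi) _ := HasSum.sum (f := G ∘ fi) k1 k2
  have k4 := ((Equiv.ofBijective fi fi_bij).hasSum_iff (f := G)).1 k3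
  rw [k4.tsum_eq]

/-- the product form as a function of the three coefficients -/
noncomputable def FF (a b c : ℝ) : ℝ := e0 0 a * e0 0 b * e0 0 c + e0 1 a * e0 1 b * e0 1 c

/-- the derivative along a curve -/
theorem FF_deriv {A B C : ℝ → ℝ} {A' B' C' z : ℝ} (hA : HasDerivAt A A' z) (hB : HasDerivAt B B' z)
    (hC : HasDerivAt C C' z) (pA : 0 < A z) (pB : 0 < B z) (pC : 0 < C z) :
    HasDerivAt (fun z => FF (A z) (B z) (C z))
      (-(A' * (e1 0 (A z) * e0 0 (B z) * e0 0 (C z) + e1 1 (A z) * e0 1 (B z) * e0 1 (C z)) +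
        B' * (e0 0 (A z) * e1 0 (B z) * e0 0 (C z) + e0 1 (A z) * e1 1 (B z) * e0 1 (C z)) +
        C' * (e0 0 (A z) * e0 0 (B z) * e1 0 (C z) + e0 1 (A z) * e0 1 (B z) * e1 1 (C z)))) z := by
  have k : ∀ σ : ℝ, HasDerivAt (fun z => e0 σ (A z) * e0 σ (B z) * e0 σ (C z))
      (-(A' * (e1 σ (A z) * e0 σ (B z) * e0 σ (C z)) + B' * (e0 σ (A z) * e1 σ (B z) * e0 σ (C z)) +
        C' * (e0 σ (A z) * e0 σ (B z) * e1 σ (C z)))) z := by
    intro σ
    have q1 := (e0_deriv σ pA).comp z hA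
    have q2 := (e0_deriv σ pB).comp z hB
    have q3 := (e0_deriv σ pC).comp z hC
    have q := (q1.mul q2).mul q3
    refine q.congr_deriv ?_
    simp only [Function.comp, Pi.mul_apply]
    ring
  have q := (k 0).add (k 1)
  refine q.congr_deriv ?_
  ring

/-- the derivative in terms of the sum of `S_neg` -/
theorem S_eq (A B C : ℝ) (pA : 0 < A) (pB : 0 < B) (pC : 0 < C) {t : ℝ} (ht : 0 < t) :
    ∑' x : Fin 3 → ℤ, (A * (B - C) * (u1 x : ℝ) ^ 2 + B * (C - A) * (u2 x : ℝ) ^ 2 +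
        C * (A - B) * (u3 x : ℝ) ^ 2) *
      Real.exp (-(t * ((A * (u1 x : ℝ) ^ 2 + B * (u2 x : ℝ) ^ 2 + C * (u3 x : ℝ) ^ 2) / 4))) =
    A * (B - C) * (e1 0 (t / 4 * A) * e0 0 (t / 4 * B) * e0 0 (t / 4 * C) +
        e1 1 (t / 4 * A) * e0 1 (t / 4 * B) * e0 1 (t / 4 * C)) +
      B * (C - A) * (e0 0 (t / 4 * A) * e1 0 (t / 4 * B) * e0 0 (t / 4 * C) +
        e0 1 (t / 4 * A) * e1 1 (t / 4 * B) * e0 1 (t / 4 * C)) +
      C * (A - B) * (e0 0 (t / 4 * A) * e0 0 (t / 4 * B) * e1 0 (t / 4 * C) +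
        e0 1 (t / 4 * A) * e0 1 (t / 4 * B) * e1 1 (t / 4 * C)) := by
  have h := dir_sum (A * (B - C)) (B * (C - A)) (C * (A - B)) (a := t / 4 * A) (b := t / 4 * B)
    (c := t / 4 * C) (by positivity) (by positivity) (by positivity)
  rw [LatAux.E0_eq, LatAux.E0_eq, LatAux.E0_eq, LatAux.E1_eq, LatAux.E1_eq, LatAux.E1_eq,
    LatAux.O0_eq, LatAux.O0_eq, LatAux.O0_eq, LatAux.O1_eq, LatAux.O1_eq, LatAux.O1_eq] at h
  unfold e0 e1
  rw [← h]
  refine tsum_congr fun x => ?_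
  congr 2
  ring

/-- energies from theta functions -/
theorem En_lt_theta {Q1 Q2 : Mx 3} (p1 : PD Q1) (p2 : PD Q2) (hdet : Q1.det = Q2.det) {s : ℝ}
    (hs : 3 / 2 < s) (hth : ∀ t : ℝ, 0 < t → ∑' x : Fin 3 → ℤ, Real.exp (-(t * qf Q1 x)) <
      ∑' x : Fin 3 → ℤ, Real.exp (-(t * qf Q2 x))) : En s Q1 < En s Q2 := by
  have hF : F s Q1 < F s Q2 := by
    have hth' : ∀ Q : Mx 3, PD Q → ∀ t : ℝ, 0 < t →
        ∑' x : Fin 3 → ℤ, Real.exp (-(t * qf Q x)) =
          1 + ∑' x : NZ 3, Real.exp (-(qf Q x.1 * t)) := by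
      intro Q hQ t ht
      rw [EPS.tsum_nz (EPS.summable_theta hQ ht), EPS.qf_zero]
      simp only [mul_zero, neg_zero, Real.exp_zero]
      congr 1
      exact tsum_congr fun x => by rw [mul_comm]
    have hsm : ∀ Q : Mx 3, PD Q → ∀ t : ℝ, 0 < t →
        Summable fun x : NZ 3 => Real.exp (-(qf Q x.1 * t)) := by
      intro Q hQ t ht
      have := (EPS.summable_theta hQ ht).comp_injective (i := fun x : NZ 3 => x.1)
        Subtype.val_injective
      refine this.congr fun x => ?_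
      simp only [Function.comp]
      rw [mul_comm]
    have hz : ∀ Q : Mx 3, PD Q → Summable fun x : NZ 3 => (1 / qf Q x.1) ^ s := by
      intro Q hQ
      refine (hQ.summable (s := s) (by norm_num; exact hs)).congr fun x => ?_
      rw [one_div, Real.inv_rpow (hQ.pos x).le, Real.rpow_neg (hQ.pos x).le]
    have h := P34eea4.mellin_lt (f := fun x : NZ 3 => qf Q1 x.1)
      (g := fun x : NZ 3 => qf Q2 x.1)
      (fun x => p1.pos x) (fun x => p2.pos x) (by linarith) (hz _ p1) (hz _ p2)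
      (hsm _ p1) (hsm _ p2) (fun t ht => by
        have h1 := hth' _ p1 t ht
        have h2 := hth' _ p2 t ht
        have h3 := hth t ht
        linarith)
    unfold F
    have e1 : ∀ Q : Mx 3, PD Q → ∑' x : NZ 3, qf Q x.1 ^ (-s) = ∑' x : NZ 3, (1 / qf Q x.1) ^ s := by
      intro Q hQ
      refine tsum_congr fun x => ?_
      rw [one_div, Real.inv_rpow (hQ.pos x).le, Real.rpow_neg (hQ.pos x).le]
    rw [e1 _ p1, e1 _ p2]
    exact h
  unfold En
  rw [hdet]
  refine mul_lt_mul_of_pos_right hF ?_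
  have : 0 < Q2.det := p2.det_pos
  positivity

/-- the radicand -/
noncomputable def rad (P A : ℝ) : ℝ := ((4 - A) / 2) ^ 2 - P / A

/-- the second coefficient -/
noncomputable def cB (P A : ℝ) : ℝ := (4 - A) / 2 - Real.sqrt (rad P A)

/-- the third coefficient -/
noncomputable def cC (P A : ℝ) : ℝ := (4 - A) / 2 + Real.sqrt (rad P A)

theorem rad_deriv {P A : ℝ} (hA : 0 < A) : HasDerivAt (rad P) (-((4 - A) / 2) + P / A ^ 2) A := by
  have h1 : HasDerivAt (fun A : ℝ => (4 - A) / 2) (-1 / 2) A := by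
    have := ((hasDerivAt_id A).const_sub 4).div_const 2
    exact this
  have h2 := (h1.pow 2).sub ((hasDerivAt_const A P).div (hasDerivAt_id A) hA.ne')
  refine (h2.congr_deriv ?_)
  simp only [id]
  have := hA.ne'
  field_simp
  ring

theorem cBC {P A : ℝ} (hr : 0 ≤ rad P A) (hA : 0 < A) : A * cB P A * cC P A = P := by
  unfold cB cC
  have h := Real.sq_sqrt hr
  have h2 : A * ((4 - A) / 2 - Real.sqrt (rad P A)) * ((4 - A) / 2 + Real.sqrt (rad P A)) =
      A * (((4 - A) / 2) ^ 2 - Real.sqrt (rad P A) ^ 2) := by ring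
  rw [h2, h]
  unfold rad
  have := hA.ne'
  field_simp
  ring

theorem cB_deriv {P A : ℝ} (hr : 0 < rad P A) (hA : 0 < A) :
    HasDerivAt (cB P) (cB P A * (cC P A - A) / (A * (cB P A - cC P A))) A ∧
    HasDerivAt (cC P) (cC P A * (A - cB P A) / (A * (cB P A - cC P A))) A := by
  have h1 : HasDerivAt (fun A : ℝ => (4 - A) / 2) (-1 / 2) A := by
    have := ((hasDerivAt_id A).const_sub 4).div_const 2
    exact this
  have h2 := (rad_deriv (P := P) hA).sqrt hr.ne'
  have hs := Real.sqrt_pos.2 hr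
  have hq := Real.sq_sqrt hr.le
  have hA' := hA.ne'
  have hs' := hs.ne'
  have hP : P / A = ((4 - A) / 2) ^ 2 - Real.sqrt (rad P A) ^ 2 := by
    rw [hq]; unfold rad; ring
  have hP2 : P = A * (((4 - A) / 2) ^ 2 - Real.sqrt (rad P A) ^ 2) := by
    rw [← hP]; field_simp
  have hbc : cB P A - cC P A = -(2 * Real.sqrt (rad P A)) := by unfold cB cC; ring
  have key : (-((4 - A) / 2) + P / A ^ 2) =
      (-((4 - A) / 2) * A + (((4 - A) / 2) ^ 2 - Real.sqrt (rad P A) ^ 2)) / A := by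
    rw [← hP]; field_simp
  constructor
  · refine (h1.sub h2).congr_deriv ?_
    rw [key, hbc]
    unfold cB cC
    set w := Real.sqrt (rad P A)
    field_simp
    ring
  · refine (h1.add h2).congr_deriv ?_
    rw [key, hbc]
    unfold cB cC
    set w := Real.sqrt (rad P A)
    field_simp
    ring

theorem mat_lin (i j : Fin 3) : ∃ α β γ : ℝ, ∀ A B C : ℝ,
    (⟨A, B, C, 0, 0, 0⟩ : Par).mat i j = α * A + β * B + γ * C := by
  fin_cases i <;> fin_cases j
  · exact ⟨1 / 4, 1 / 4, 1 / 4, fun A B C => by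
      show (A + B + C + 2 * (0 + 0 + 0)) / 4 = _; ring⟩
  · exact ⟨1 / 4, -1 / 4, -1 / 4, fun A B C => by show (A - B - C - 2 * 0) / 4 = _; ring⟩
  · exact ⟨-1 / 4, 1 / 4, -1 / 4, fun A B C => by show (-A + B - C - 2 * 0) / 4 = _; ring⟩
  · exact ⟨1 / 4, -1 / 4, -1 / 4, fun A B C => by show (A - B - C - 2 * 0) / 4 = _; ring⟩
  · exact ⟨1 / 4, 1 / 4, 1 / 4, fun A B C => by
      show (A + B + C + 2 * (0 - 0 - 0)) / 4 = _; ring⟩
  · exact ⟨-1 / 4, -1 / 4, 1 / 4, fun A B C => by show (-A - B + C + 2 * 0) / 4 = _; ring⟩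
  · exact ⟨-1 / 4, 1 / 4, -1 / 4, fun A B C => by show (-A + B - C - 2 * 0) / 4 = _; ring⟩
  · exact ⟨-1 / 4, -1 / 4, 1 / 4, fun A B C => by show (-A - B + C + 2 * 0) / 4 = _; ring⟩
  · exact ⟨1 / 4, 1 / 4, 1 / 4, fun A B C => by
      show (A + B + C + 2 * (-0 + 0 - 0)) / 4 = _; ring⟩

theorem rad_zero {x y : ℝ} (hy : 0 < y) (hs : y + 2 * x = 4) : rad (y * x ^ 2) y = 0 := by
  unfold rad
  have : (4 - y) / 2 = x := by linarith
  rw [this]
  field_simp
  ring

theorem rad_pos {x y A : ℝ} (hy : 0 < y) (hs : y + 2 * x = 4) (hA : y < A) (hA2 : A - y < x - y)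
    (hx : 0 < x) : 0 < rad (y * x ^ 2) A := by
  have hA0 : 0 < A := by linarith
  have h : rad (y * x ^ 2) A = (A - y) * (x ^ 2 - x * y - x * (A - y) + y * (A - y) / 4 +
      (A - y) ^ 2 / 4) / A := by
    unfold rad
    have e : y = 4 - 2 * x := by linarith
    rw [e]
    field_simp
    ring
  rw [h]
  have h1 : 0 < A - y := by linarith
  have h2 : 0 < x ^ 2 - x * y - x * (A - y) + y * (A - y) / 4 + (A - y) ^ 2 / 4 := by
    have q1 : 0 < x * (x - y - (A - y)) := mul_pos hx (by linarith)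
    have q2 : 0 < y * (A - y) := mul_pos hy h1
    nlinarith [sq_nonneg (A - y)]
  positivity

end RidgeAux

open RidgeAux

theorem ridge_notMin {x y : ℝ} (hy : 3 / 4 ≤ y) (hyx : y < x) (hs : y + 2 * x = 4) {s : ℝ}
    (h : 3 / 2 < s) : ¬ LocMin s (⟨y, x, x, 0, 0, 0⟩ : Par).mat := by
  rintro ⟨ε, hε, hmin⟩
  have hy0 : 0 < y := by linarith
  have hx0 : 0 < x := by linarith
  set P := y * x ^ 2 with hP
  have hr0 : rad P y = 0 := rad_zero hy0 hs
  have cr : ContinuousAt (rad P) y := (rad_deriv hy0).continuousAt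
  have csq : ContinuousAt (fun A => Real.sqrt (rad P A)) y := cr.sqrt
  have hsq0 : Real.sqrt (rad P y) = 0 := by rw [hr0, Real.sqrt_zero]
  have hm : (4 - y) / 2 = x := by linarith
  have hB0 : cB P y = x := by unfold cB; rw [hsq0, hm, sub_zero]
  have hC0 : cC P y = x := by unfold cC; rw [hsq0, hm, add_zero]
  have cB' : ContinuousAt (cB P) y := by
    unfold cB
    exact ContinuousAt.sub (by fun_prop) csq
  have cC' : ContinuousAt (cC P) y := by
    unfold cC
    exact ContinuousAt.add (by fun_prop) csq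
  -- the neighbourhood
  have n1 : ∀ᶠ A in 𝓝 y, A < cB P A := by
    refine (continuousAt_id).eventually_lt cB' ?_
    simp only [id, hB0]; exact hyx
  have n2 : ∀ᶠ A in 𝓝 y, cC P A < 2 := by
    refine cC'.eventually_lt continuousAt_const ?_
    rw [hC0]; linarith
  have n3 : ∀ᶠ A in 𝓝 y, cC P A - A < 11 / 10 := by
    refine (cC'.sub continuousAt_id).eventually_lt continuousAt_const ?_
    show cC P y - y < 11 / 10
    rw [hC0]; linarith
  set N : ℝ → Mx 3 := fun A => (⟨A, cB P A, cC P A, 0, 0, 0⟩ : Par).mat with hN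
  have hNy : N y = (⟨y, x, x, 0, 0, 0⟩ : Par).mat := by simp only [hN, hB0, hC0]
  have cN : ContinuousAt N y := by
    refine continuousAt_pi.2 fun i => continuousAt_pi.2 fun j => ?_
    obtain ⟨α, β, γ, hlin⟩ := mat_lin i j
    have e : (fun A => N A i j) = fun A => α * A + β * cB P A + γ * cC P A := by
      funext A
      exact hlin A (cB P A) (cC P A)
    rw [e]
    exact ((continuousAt_id.const_mul α).add (cB'.const_mul β)).add (cC'.const_mul γ)
  have n4 : ∀ᶠ A in 𝓝 y, ‖N A - N y‖ < ε := by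
    have c4 : ContinuousAt (fun A => ‖N A - N y‖) y := (cN.sub continuousAt_const).norm
    refine c4.eventually_lt continuousAt_const ?_
    rw [sub_self, norm_zero]; exact hε
  obtain ⟨η, hη, hall⟩ := Metric.eventually_nhds_iff.1 ((n1.and n2).and (n3.and n4))
  set δ := min (η / 2) ((x - y) / 2) with hδ
  have hδ0 : 0 < δ := lt_min (by linarith) (by linarith)
  have hδ1 : δ ≤ η / 2 := min_le_left _ _
  have hδ2 : δ ≤ (x - y) / 2 := min_le_right _ _
  have hin : ∀ A, y ≤ A → A ≤ y + δ → A < cB P A ∧ cC P A < 2 ∧ cC P A - A < 11 / 10 ∧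
      ‖N A - N y‖ < ε := by
    intro A h1 h2
    have h3 := hall (y := A) (by rw [Real.dist_eq, abs_of_nonneg (by linarith)]; linarith)
    exact ⟨h3.1.1, h3.1.2, h3.2.1, h3.2.2⟩
  have hrp : ∀ A, y < A → A ≤ y + δ → 0 < rad P A := fun A h1 h2 =>
    rad_pos hy0 hs h1 (by linarith) hx0
  have hrn : ∀ A, y ≤ A → A ≤ y + δ → 0 ≤ rad P A := by
    intro A h1 h2
    rcases h1.eq_or_lt with h3 | h3
    · rw [← h3, hr0]
    · exact (hrp A h3 h2).le
  have hBC : ∀ A, cB P A ≤ cC P A := by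
    intro A
    unfold cB cC
    have := Real.sqrt_nonneg (rad P A)
    linarith
  have hBC' : ∀ A, y < A → A ≤ y + δ → cB P A < cC P A := by
    intro A h1 h2
    unfold cB cC
    have := Real.sqrt_pos.2 (hrp A h1 h2)
    linarith
  have hsum : ∀ A, A + cB P A + cC P A = 4 := by
    intro A
    unfold cB cC
    ring
  have hReg : ∀ A, y ≤ A → A ≤ y + δ → Reg (⟨A, cB P A, cC P A, 0, 0, 0⟩ : Par) := by
    intro A h1 h2
    obtain ⟨k1, k2, k3, -⟩ := hin A h1 h2
    have hA0 : 0 < A := by linarith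
    have hB0 : 0 < cB P A := by linarith
    have hC0 : 0 < cC P A := by linarith [hBC A]
    refine ⟨hsum A, ?_, k1.le, hBC A, k2.le, k3.le, ?_, ?_⟩
    · show 3 / 4 ≤ A
      linarith
    · show 200 * (A * 0 ^ 2 + cB P A * 0 ^ 2 + cC P A * 0 ^ 2) ≤ A * cB P A * cC P A
      have : 0 < A * cB P A * cC P A := by positivity
      linarith
    · show |(0 : ℝ)| ≤ 2 - cC P A
      rw [abs_zero]; linarith
  -- the theta functions
  have hth : ∀ A, y ≤ A → A ≤ y + δ → ∀ t : ℝ, 0 < t →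
      ∑' x : Fin 3 → ℤ, Real.exp (-(t * qf (N A) x)) =
        FF (t / 4 * A) (t / 4 * cB P A) (t / 4 * cC P A) := by
    intro A h1 h2 t ht
    obtain ⟨k1, k2, k3, -⟩ := hin A h1 h2
    have hA0 : 0 < A := by linarith
    have hB0 : 0 < cB P A := by linarith
    have hC0 : 0 < cC P A := by linarith [hBC A]
    unfold FF
    rw [← theta_sum (by positivity) (by positivity) (by positivity)]
    refine tsum_congr fun x => ?_
    congr 2
    simp only [hN]
    rw [qf_mat]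
    simp only [Par.Ex, Par.Kx]
    ring
  have hanti : ∀ t : ℝ, 0 < t → StrictAntiOn
      (fun A => FF (t / 4 * A) (t / 4 * cB P A) (t / 4 * cC P A)) (Set.Icc y (y + δ)) := by
    intro t ht
    have hpos : ∀ A, y ≤ A → A ≤ y + δ → 0 < t / 4 * A ∧ 0 < t / 4 * cB P A ∧
        0 < t / 4 * cC P A := by
      intro A h1 h2
      obtain ⟨k1, k2, k3, -⟩ := hin A h1 h2
      have hA0 : 0 < A := by linarith
      have hB0 : 0 < cB P A := by linarith
      have hC0 : 0 < cC P A := by linarith [hBC A]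
      exact ⟨by positivity, by positivity, by positivity⟩
    have crad : ContinuousOn (fun A => Real.sqrt (rad P A)) (Set.Icc y (y + δ)) := by
      intro A hA
      have hA0 : 0 < A := by linarith [hA.1]
      exact ((rad_deriv hA0).continuousAt.sqrt).continuousWithinAt
    refine strictAntiOn_of_deriv_neg (convex_Icc _ _) ?_ ?_
    · have ce : ∀ (σ : ℝ) (f : ℝ → ℝ), ContinuousOn f (Set.Icc y (y + δ)) →
          (∀ A ∈ Set.Icc y (y + δ), 0 < f A) →
          ContinuousOn (fun A => e0 σ (f A)) (Set.Icc y (y + δ)) := by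
        intro σ f hf hp A hA
        exact ((e0_deriv σ (hp A hA)).continuousAt).comp_continuousWithinAt (hf A hA)
      have c1 : ContinuousOn (fun A : ℝ => t / 4 * A) (Set.Icc y (y + δ)) := by fun_prop
      have c2 : ContinuousOn (fun A : ℝ => t / 4 * cB P A) (Set.Icc y (y + δ)) := by
        unfold cB
        exact continuousOn_const.mul (ContinuousOn.sub (by fun_prop) crad)
      have c3 : ContinuousOn (fun A : ℝ => t / 4 * cC P A) (Set.Icc y (y + δ)) := by
        unfold cC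
        exact continuousOn_const.mul (ContinuousOn.add (by fun_prop) crad)
      have p1 : ∀ A ∈ Set.Icc y (y + δ), 0 < t / 4 * A := fun A hA => (hpos A hA.1 hA.2).1
      have p2 : ∀ A ∈ Set.Icc y (y + δ), 0 < t / 4 * cB P A := fun A hA => (hpos A hA.1 hA.2).2.1
      have p3 : ∀ A ∈ Set.Icc y (y + δ), 0 < t / 4 * cC P A := fun A hA => (hpos A hA.1 hA.2).2.2
      unfold FF
      exact (((ce 0 _ c1 p1).mul (ce 0 _ c2 p2)).mul (ce 0 _ c3 p3)).add
        (((ce 1 _ c1 p1).mul (ce 1 _ c2 p2)).mul (ce 1 _ c3 p3))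
    · intro A hA
      rw [interior_Icc] at hA
      obtain ⟨hA1, hA2⟩ := hA
      obtain ⟨k1, k2, k3, -⟩ := hin A hA1.le hA2.le
      have hA0 : 0 < A := by linarith
      have hB0 : 0 < cB P A := by linarith
      have hC0 : 0 < cC P A := by linarith [hBC A]
      obtain ⟨d1, d2⟩ := cB_deriv (hrp A hA1 hA2.le) hA0
      obtain ⟨q1, q2, q3⟩ := hpos A hA1.le hA2.le
      have dd := FF_deriv (z := A) ((hasDerivAt_id A).const_mul (t / 4)) (d1.const_mul (t / 4))
        (d2.const_mul (t / 4)) q1 q2 q3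
      simp only [id] at dd
      rw [dd.deriv]
      have hlt := hBC' A hA1 hA2.le
      have hS := S_neg (by linarith) k1 hlt k2.le (hsum A) k3.le ht
      rw [S_eq A (cB P A) (cC P A) hA0 hB0 hC0 ht] at hS
      have hD : A * (cB P A - cC P A) < 0 := mul_neg_of_pos_of_neg hA0 (by linarith)
      set X1 := (e1 0 (t / 4 * A) * e0 0 (t / 4 * cB P A) * e0 0 (t / 4 * cC P A) +
        e1 1 (t / 4 * A) * e0 1 (t / 4 * cB P A) * e0 1 (t / 4 * cC P A)) with hX1
      set X2 := (e0 0 (t / 4 * A) * e1 0 (t / 4 * cB P A) * e0 0 (t / 4 * cC P A) +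
        e0 1 (t / 4 * A) * e1 1 (t / 4 * cB P A) * e0 1 (t / 4 * cC P A)) with hX2
      set X3 := (e0 0 (t / 4 * A) * e0 0 (t / 4 * cB P A) * e1 0 (t / 4 * cC P A) +
        e0 1 (t / 4 * A) * e0 1 (t / 4 * cB P A) * e1 1 (t / 4 * cC P A)) with hX3
      have e : -(t / 4 * 1 * X1 +
          t / 4 * (cB P A * (cC P A - A) / (A * (cB P A - cC P A))) * X2 +
          t / 4 * (cC P A * (A - cB P A) / (A * (cB P A - cC P A))) * X3) =
          -(t / 4) * ((A * (cB P A - cC P A) * X1 + cB P A * (cC P A - A) * X2 +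
            cC P A * (A - cB P A) * X3) / (A * (cB P A - cC P A))) := by
        have hD1 : cB P A - cC P A ≠ 0 := by
          intro h0
          rw [h0, mul_zero] at hD
          exact lt_irrefl _ hD
        have hD2 : A ≠ 0 := hA0.ne'
        field_simp
      rw [e]
      have hq := div_pos_of_neg_of_neg hS hD
      have ht4 : 0 < t / 4 := by positivity
      nlinarith
  -- conclusion
  have hA1 : y ≤ y + δ := by linarith
  have hcmp : ∀ t : ℝ, 0 < t → ∑' x : Fin 3 → ℤ, Real.exp (-(t * qf (N (y + δ)) x)) <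
      ∑' x : Fin 3 → ℤ, Real.exp (-(t * qf (N y) x)) := by
    intro t ht
    rw [hth _ hA1 le_rfl t ht, hth _ le_rfl hA1 t ht]
    exact hanti t ht ⟨le_rfl, hA1⟩ ⟨hA1, le_rfl⟩ (by linarith)
  have pd1 := (hReg (y + δ) hA1 le_rfl).pd_mat
  have pd0 := (hReg y le_rfl hA1).pd_mat
  have hdet : (N (y + δ)).det = (N y).det := by
    simp only [hN]
    rw [det_mat, det_mat]
    have e1 := cBC (hrn (y + δ) hA1 le_rfl) (by linarith : 0 < y + δ)
    have e2 := cBC (hrn y le_rfl hA1) hy0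
    simp only [Par.dt, Par.W, Par.pp]
    linarith
  have hE := En_lt_theta (s := s) pd1 pd0 hdet h hcmp
  have hle := hmin (N (y + δ)) pd1 (by rw [← hNy]; exact (hin _ hA1 le_rfl).2.2.2)
  rw [← hNy] at hle
  exact absurd hE (not_lt.2 hle)

theorem ridge_field (p q : ℝ) (hq : 0 < q) (hqp : q < p) (h1 : 3 * p ≤ 10 * q) (s : ℝ)
    (h : 3 / 2 < s) : ¬ LocMin s (formOf ![q, q, p, p, q, q]) := by
  intro hm
  have hr := (PermAux.rel23 ![q, q, p, p, q, q]).1.locMin hm
  have e0 : PermAux.s23 ![q, q, p, p, q, q] = ![p, p, q, q, q, q] := by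
    funext i
    fin_cases i <;> rfl
  rw [e0] at hr
  have he : 0 < 2 * p + 4 * q := by linarith
  set e := 2 * p + 4 * q with hedef
  have hmat : (⟨8 * q / e, 4 * (p + q) / e, 4 * (p + q) / e, 0, 0, 0⟩ : Par).mat =
      (2 / e) • formOf ![p, p, q, q, q, q] := by
    ext i j
    fin_cases i <;> fin_cases j <;>
      simp [Par.mat, formOf] <;> field_simp <;> ring
  have hy : 3 / 4 ≤ 8 * q / e := by
    rw [le_div_iff₀ he]; linarith
  have hyx : 8 * q / e < 4 * (p + q) / e := by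
    rw [div_lt_div_iff_of_pos_right he]; linarith
  have hsum : 8 * q / e + 2 * (4 * (p + q) / e) = 4 := by
    field_simp
    linarith
  refine ridge_notMin hy hyx hsum h ?_
  have hRp : PD (⟨8 * q / e, 4 * (p + q) / e, 4 * (p + q) / e, 0, 0, 0⟩ : Par).mat := by
    have hy0 : 0 < 8 * q / e := by positivity
    have hp0 : 0 < p := by linarith
    have hx0 : 0 < 4 * (p + q) / e := by positivity
    refine Reg.pd_mat ⟨by linarith, hy, hyx.le, le_rfl, by linarith, ?_, ?_, ?_⟩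
    · show 4 * (p + q) / e - 8 * q / e ≤ 11 / 10
      linarith
    · show 200 * (8 * q / e * 0 ^ 2 + 4 * (p + q) / e * 0 ^ 2 + 4 * (p + q) / e * 0 ^ 2) ≤
        8 * q / e * (4 * (p + q) / e) * (4 * (p + q) / e)
      have : 0 < 8 * q / e * (4 * (p + q) / e) * (4 * (p + q) / e) := by positivity
      linarith
    · show |(0 : ℝ)| ≤ 2 - 4 * (p + q) / e
      rw [abs_zero]; linarith
  have hpd : PD (formOf ![p, p, q, q, q, q]) := by
    have h3 := hRp.smul (c := e / 2) (by positivity)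
    rw [hmat, smul_smul] at h3
    have h4 : e / 2 * (2 / e) = 1 := by field_simp
    rwa [h4, one_smul] at h3
  rw [hmat]
  exact hr.smul (by norm_num) hpd (by positivity)

end Pool.Agent.Lib.EPB
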