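import Pool.Agent.Lib.EPB.Cvx

/-!
# The dual side: definitions
-/

namespace Pool.Agent.Lib.EPB

/-- the integral small function -/
noncomputable def sg (x : ℝ) : ℝ := Tk kI 2 (4 * x)
/-- the half-integral small function -/
noncomputable def tu (x : ℝ) : ℝ := Tk kH 1 (4 * x)
/-- `x² E1` -/
noncomputable def g1 (x : ℝ) : ℝ := x ^ 2 * (4 * Tk1 kI 2 (4 * x))
/-- `x² exp x (E1 - σ)` -/
noncomputable def g2 (x : ℝ) : ℝ := x ^ 2 * Real.exp x * (4 * Tk1 kI 2 (4 * x) - Tk kI 2 (4 * x))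
/-- `x² exp x τ` -/
noncomputable def g3 (x : ℝ) : ℝ := x ^ 2 * Real.exp x * Tk kH 1 (4 * x)
/-- `x² (O1 - O0)` -/
noncomputable def g4 (x : ℝ) : ℝ := x ^ 2 * (8 * Real.exp (-x) * Tk1 kH 1 (4 * x))

end Pool.Agent.Lib.EPB
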